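import Mathlib.Analysis.Calculus.FDeriv.Symmetric
import Mathlib.Geometry.Manifold.PartitionOfUnity
import Mathlib.Analysis.Complex.Isometry
import Mathlib.Analysis.Real.Pi.Bounds
import Mathlib.Geometry.Manifold.Sheaf.Basic
import Mathlib.Topology.UniformSpace.Uniformizable
import Pool.Agent.MP_54e5d7_al.atc.Spec
import Pool.Agent.MP_54e5d7_al.atc.Hol1
import Pool.Agent.MP_54e5d7_al.atc.fin.GlueA
import Pool.Agent.MP_54e5d7_al.atc.tr.Core
import Pool.Agent.MP_54e5d7_al.atc.Meas1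

-- ======== part 0: formerly Pool.Agent.MP_54e5d7_al.atc.Final
section MrgPart0

/-!
PROJECT ATC: the assembly of the blocks.
-/

set_option autoImplicit false

open scoped ENNReal
open Matrix Set MeasureTheory

namespace Pool.Agent.MP_54e5d7_al.Atc

open Classical in
/-- the statement that is refuted -/
def Sac : Prop :=
  ∀ (G : Type) [Group G] (F : Subfield ℂ) (N : ℕ),
    (∀ H : Subgroup G, Finite H → Nat.card H ≤ N) →
    ∀ d : ℕ, (∀ H : Subgroup G, Finite H → Nat.card H ∣ d) →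
      (∀ e : ℕ, (∀ H : Subgroup G, Finite H → Nat.card H ∣ e) → d ∣ e) →
    ∀ (m n : ℕ) (A : Matrix (Fin m) (Fin n) (G →₀ ℂ)),
      (∀ i j g, A i j g ∈ F) →
      ∃ z : ℤ, (d : ℝ) * ((n : ℝ) - (m : ℝ) + ∑ i : Fin m,
        (1 - (Metric.infDist
          (lp.single 2 (i, (1 : G)) (1 : ℂ) : lp (fun _ : Fin m × G => ℂ) 2)
          {x : lp (fun _ : Fin m × G => ℂ) 2 | ∀ (j : Fin n) (g : G),
            ∑ i' : Fin m, (A i' j).sum (fun h c => x (i', g * h⁻¹) * c) = 0}) ^ 2)) = z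

/-- If all finite subgroups lie in one finite subgroup of order dividing `n`, then `n` times
every kernel dimension is an integer. -/
theorem Sac.int (h : Sac) {G : Type} [Group G] (Z : Subgroup G) [hZ : Finite Z] {n : ℕ}
    (hn : Nat.card Z ∣ n) (hle : ∀ H : Subgroup G, Finite H → H ≤ Z) {k l : ℕ}
    (A : Matrix (Fin k) (Fin l) (G →₀ ℂ)) : ∃ z : ℤ, (n : ℝ) * vnDim A = z := by
  have hd : ∀ H : Subgroup G, Finite H → Nat.card H ∣ Nat.card Z := fun H hH =>
    Subgroup.card_dvd_of_le (hle H hH)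
  obtain ⟨z, hz⟩ := h G ⊤ (Nat.card Z) (fun H hH => Nat.le_of_dvd Nat.card_pos (hd H hH))
    (Nat.card Z) hd (fun e he => he Z hZ) k l A (fun _ _ _ => Subfield.mem_top _)
  obtain ⟨c, rfl⟩ := hn
  have hz' : (Nat.card Z : ℝ) * ((l : ℝ) - (k : ℝ) + vnDim A) = z := hz
  refine ⟨c * z - (Nat.card Z * c : ℕ) * ((l : ℤ) - k), ?_⟩
  push_cast
  rw [← hz']
  ring

section quo

variable {n : ℕ} {U : Type} [Group U] {C : Cover n U} {Γ : Subgroup SU21} {X : Set V3}
  {N : V3 → Subgroup U}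

/-- the subgroup generated by the lifts, inside the preimage of `Γ` -/
def Kf (C : Cover n U) (Γ : Subgroup SU21) (X : Set V3) (N : V3 → Subgroup U) :
    Subgroup ↥(Γ.comap C.p) := (⨆ x ∈ X, N x).subgroupOf (Γ.comap C.p)

theorem Kf_normal {ε : ℝ} (hX : Discs Γ X ε) (hN : Fill C Γ X N) : (Kf C Γ X N).Normal := by
  refine ⟨fun k hk a => ?_⟩
  have key : (⨆ x ∈ X, N x).map (MulAut.conj (a : U)).toMonoidHom ≤ ⨆ x ∈ X, N x := by
    rw [Subgroup.map_le_iff_le_comap]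
    refine iSup₂_le fun x hx ν hν => ?_
    have h1 : (a : U) * ν * (a : U)⁻¹ ∈ N (mv (C.p a) x) := hN.cnj a a.2 x hx ν hν
    exact (le_iSup₂ (f := fun x (_ : x ∈ X) => N x) _ (hX.inv _ a.2 x hx)) h1
  exact key ⟨k, hk, rfl⟩

end quo

theorem exists_c0 (v : ℝ) : ∃ c : ℕ, 1 ≤ c ∧ 2 * v < Real.pi ^ 2 * 17 ^ (2 * c) := by
  obtain ⟨c, hc⟩ := pow_unbounded_of_one_lt (2 * v) (show (1 : ℝ) < 17 by norm_num)
  refine ⟨c + 1, by omega, hc.trans_le ?_⟩
  have h1 : (17 : ℝ) ^ c ≤ 17 ^ (2 * (c + 1)) := pow_le_pow_right₀ (by norm_num) (by omega)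
  have h2 : (1 : ℝ) ≤ Real.pi ^ 2 := one_le_pow₀ (by linarith [Real.pi_gt_three])
  exact h1.trans (le_mul_of_one_le_left (by positivity) h2)

theorem not_sac (cov : CovStmt) (arith : ArithStmt) (split : SplitStmt) (sc : ScStmt)
    (typ : TypeStmt) (covol : CovolStmt) (ker : KerStmt) (dim : DimStmt) : ¬ Sac := by
  intro sac
  obtain ⟨Γ₀, h0, hA⟩ := arith
  obtain ⟨r, hr, c, hT⟩ := typ Γ₀ h0
  obtain ⟨X, m, ε, hX, hW, hB⟩ := hA r hr c
  obtain ⟨L, hS⟩ := sc ε hX.pos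
  obtain ⟨Γ₁, l1, i1, hD, hTw⟩ := hB L
  have h1 : Lat Γ₁ := h0.sub l1 i1
  obtain ⟨F₁, -, hv, hF⟩ := covol Γ₁ h1
  obtain ⟨c0, hc0, hc⟩ := exists_c0 (vol F₁)
  obtain ⟨b, e, Γ₂, l2, i2, he, hdiv⟩ := hTw c0
  have i2' : Γ₂.relIndex Γ₁ ≠ 0 := by rw [i2]; positivity
  have h2 : Lat Γ₂ := h1.sub l2 i2'
  obtain ⟨F₂, hF₂, hvol⟩ := hF Γ₂ l2 i2'
  obtain ⟨n, hn⟩ : ∃ n : ℕ, n = 17 ^ (b + c0) := ⟨_, rfl⟩
  rw [← hn] at hdiv
  have hn3 : 3 ≤ n := by
    rw [hn]
    exact (by norm_num : 3 ≤ 17 ^ 1).trans (Nat.pow_le_pow_right (by norm_num) (by omega))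
  have hn0 : 0 < n := by omega
  obtain ⟨U, _, ⟨C⟩⟩ := cov n hn0
  obtain ⟨N, hN⟩ := split n U C Γ₁ Γ₂ X ε hn0 h1 (hX.sub l1) l2 i2' hdiv
  have hX2 : Discs Γ₂ X ε := hX.sub (l2.trans l1)
  obtain ⟨s1, s2⟩ := hS n U C Γ₂ X N hn0 h2 (hD.sub l2) hX2 hN
  haveI := Kf_normal hX2 hN
  let Q : Quo C Γ₂ (↥(Γ₂.comap C.p) ⧸ Kf C Γ₂ X N) :=
    ⟨QuotientGroup.mk' _, Quotient.out, fun q => Quotient.out_eq q⟩
  have hπ : ∀ a : ↥(Γ₂.comap C.p), Q.π a = 1 ↔ (a : U) ∈ ⨆ x ∈ X, N x := fun a =>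
    QuotientGroup.eq_one_iff a
  have hker : C.p.ker ≤ Γ₂.comap C.p := fun z hz => by
    rw [Subgroup.mem_comap, MonoidHom.mem_ker.1 hz]
    exact one_mem _
  let ι : C.p.ker →* (↥(Γ₂.comap C.p) ⧸ Kf C Γ₂ X N) := Q.π.comp (Subgroup.inclusion hker)
  have hck := C.card_ker hn0
  haveI : Finite C.p.ker := Nat.finite_of_card_ne_zero (by omega)
  haveI : Finite ι.range := Finite.of_surjective _ ι.rangeRestrict_surjective
  have hZ : Nat.card ι.range ∣ n :=
    (Subgroup.card_dvd_of_surjective _ ι.rangeRestrict_surjective).trans (dvd_of_eq hck)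
  have hle : ∀ H : Subgroup (↥(Γ₂.comap C.p) ⧸ Kf C Γ₂ X N), Finite H → H ≤ ι.range := by
    intro H hH q hq
    have hfin : IsOfFinOrder q := by
      have := isOfFinOrder_of_finite (⟨q, hq⟩ : H)
      exact H.subtype.isOfFinOrder this
    obtain ⟨k, hk, hqk⟩ := isOfFinOrder_iff_pow_eq_one.1 hfin
    have e1 : Q.π (Q.σ q ^ k) = 1 := by rw [map_pow, Q.sec, hqk]
    obtain ⟨z, hz, hz'⟩ := s2 (Q.σ q : U) (Q.σ q).2 k hk ((hπ _).1 e1)
    refine ⟨⟨z, hz⟩, ?_⟩
    have e2 : Q.π (Q.σ q * (Subgroup.inclusion hker ⟨z, hz⟩)⁻¹) = 1 := (hπ _).2 hz'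
    rw [map_mul, map_inv, Q.sec, mul_inv_eq_one] at e2
    exact e2.symm
  have i20 : Γ₂.relIndex Γ₀ ≠ 0 := by
    rw [← Subgroup.relIndex_mul_relIndex Γ₂ Γ₁ Γ₀ l2 l1]
    exact mul_ne_zero i2' i1
  have hnR : (0 : ℝ) < n := by exact_mod_cast hn0
  have hinj : ∀ z : ↥(Γ₂.comap C.p), C.p z = 1 → Q.π z = 1 → z = 1 :=
    fun z hz hz' => Subtype.ext (s1 z ((hπ z).1 hz') hz)
  have main : ∀ s : ℕ, 5 * n < s → s ≤ 6 * n → ∃ z : ℤ,
      vol F₂ / (Real.pi ^ 2 * n ^ 2) * (((s : ℝ) - n) * ((s : ℝ) - 2 * n)) = z := by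
    intro s hs hs'
    obtain ⟨k, l, A, Λ, hfin⟩ := hT X m ε hX hW n U C Γ₂ N _ Q s hn0 hs' (l2.trans l1) i20 hinj hN
      (fun x hx ν hν => (hπ ν).2 ((le_iSup₂ (f := fun x (_ : x ∈ X) => N x) x hx) hν))
    obtain ⟨κ, k1, k2, k3⟩ := ker n U C Γ₂ _ Q s F₂ hn0 hs h2 hF₂ hinj
    have hd := dim n U C Γ₂ _ Q s F₂ κ k l A Λ hn0 h2 hF₂ hfin k1 k2
    rw [k3, Complex.ofReal_inj] at hd
    obtain ⟨z, hz⟩ := sac.int ι.range hZ hle A
    refine ⟨z, ?_⟩
    rw [← hz, hd]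
    have := Real.pi_pos
    field_simp
  obtain ⟨z1, e1⟩ := main (5 * n + 1) (by omega) (by omega)
  obtain ⟨z2, e2⟩ := main (5 * n + 2) (by omega) (by omega)
  obtain ⟨z3, e3⟩ := main (5 * n + 3) (by omega) (by omega)
  have hW0 : 0 < vol F₂ / (Real.pi ^ 2 * n ^ 2) := by
    have := Real.pi_pos
    rw [hvol, i2]
    positivity
  have hW1 : 2 * (vol F₂ / (Real.pi ^ 2 * n ^ 2)) < 1 := by
    have := Real.pi_pos
    rw [hvol, i2, hn, ← mul_div_assoc, div_lt_one (by positivity)]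
    push_cast
    have a1 : (17 : ℝ) ^ e ≤ 17 ^ (2 * b) := pow_le_pow_right₀ (by norm_num) he
    have a2 : ((17 : ℝ) ^ (b + c0)) ^ 2 = 17 ^ (2 * b) * 17 ^ (2 * c0) := by ring
    rw [a2]
    calc 2 * ((17 : ℝ) ^ e * vol F₁) = 17 ^ e * (2 * vol F₁) := by ring
      _ ≤ 17 ^ (2 * b) * (2 * vol F₁) := mul_le_mul_of_nonneg_right a1 (by linarith)
      _ < 17 ^ (2 * b) * (Real.pi ^ 2 * 17 ^ (2 * c0)) :=
        mul_lt_mul_of_pos_left hc (by positivity)
      _ = _ := by ring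
  generalize vol F₂ / (Real.pi ^ 2 * n ^ 2) = W at e1 e2 e3 hW0 hW1
  have e4 : 2 * W = ((z3 - 2 * z2 + z1 : ℤ) : ℝ) := by
    push_cast at e1 e2 e3 ⊢
    rw [← e1, ← e2, ← e3]
    ring
  rw [e4] at hW1
  have hW2 : (0 : ℝ) < ((z3 - 2 * z2 + z1 : ℤ) : ℝ) := by rw [← e4]; linarith
  have b1 : z3 - 2 * z2 + z1 < 1 := by exact_mod_cast hW1
  have b2 : 0 < z3 - 2 * z2 + z1 := by exact_mod_cast hW2
  omega

end Pool.Agent.MP_54e5d7_al.Atc

end MrgPart0

-- ======== part 1: formerly Pool.Agent.MP_54e5d7_al.atc.fin.GlueB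
section MrgPart1

/-!
PROJECT ATC, row GLUE, part B: the index set of the charts and the groupoid of lifts.
-/

set_option autoImplicit false

open Set

namespace Pool.Agent.MP_54e5d7_al.Atc.Glue

noncomputable section

variable {n : ℕ} {U : Type} [Group U] {C : Cover n U} {Γ : Subgroup SU21} {G : Type} [Group G]

/-- `κ` lies in the kernel of `π` -/
def InK (Q : Quo C Γ G) (κ : U) : Prop := ∃ h : κ ∈ Γ.comap C.p, Q.π ⟨κ, h⟩ = 1

variable {Q : Quo C Γ G}

theorem InK.one : InK Q 1 := ⟨one_mem _, map_one Q.π⟩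

theorem InK.mul {a b : U} (ha : InK Q a) (hb : InK Q b) : InK Q (a * b) := by
  obtain ⟨h1, h2⟩ := ha
  obtain ⟨h3, h4⟩ := hb
  refine ⟨mul_mem h1 h3, ?_⟩
  have := map_mul Q.π ⟨a, h1⟩ ⟨b, h3⟩
  rw [h2, h4, mul_one] at this
  exact this

theorem InK.inv {a : U} (ha : InK Q a) : InK Q a⁻¹ := by
  obtain ⟨h1, h2⟩ := ha
  refine ⟨inv_mem h1, ?_⟩
  have := map_inv Q.π ⟨a, h1⟩
  rw [h2, inv_one] at this
  exact this

/-- the image of the kernel of `π` -/
def Kb (Q : Quo C Γ G) (Γ₀ : Subgroup SU21) : Subgroup ↥Γ₀ where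
  carrier := {γ | ∃ κ, InK Q κ ∧ C.p κ = γ}
  mul_mem' := by
    rintro a b ⟨κ, h1, h2⟩ ⟨κ', h3, h4⟩
    exact ⟨κ * κ', h1.mul h3, by rw [map_mul, h2, h4]; rfl⟩
  one_mem' := ⟨1, InK.one, map_one _⟩
  inv_mem' := by
    rintro a ⟨κ, h1, h2⟩
    exact ⟨κ⁻¹, h1.inv, by rw [map_inv, h2]; rfl⟩

/-- The charts are indexed by `J`; the chart `j` is the translate by `ρ j = σ (q j) * t (i j)`. -/
structure Idx (Q : Quo C Γ G) (Γ₀ : Subgroup SU21) (J : Type) [MulAction ↥Γ₀ J] where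
  k : ℕ
  t : Fin k → U
  q : J → G
  i : J → Fin k
  ρ : J → U
  e : J → ↥Γ₀ → U
  c : G → Fin k → J
  hρ : ∀ j, ρ j = Q.σ (q j) * t (i j)
  ht : ∀ i, C.p (t i) ∈ Γ₀
  cov : ∀ γ ∈ Γ₀, ∃ i, ∃ δ ∈ Γ, γ = δ * C.p (t i)
  pe : ∀ j g, C.p (e j g) = g
  he : ∀ j g, ∃ κ, InK Q κ ∧ ρ (g • j) * e j g = κ * ρ j
  coc : ∀ j g h, e j (g * h) = e (h • j) g * e j h
  sur : ∀ γ ∈ Γ₀, ∃ j κ, InK Q κ ∧ C.p (κ * ρ j) = γ
  det : ∀ j j' κ κ' (g : ↥Γ₀), InK Q κ → InK Q κ' → C.p (κ' * ρ j') * g = C.p (κ * ρ j) →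
    j' = g • j ∧ κ' * ρ j' * e j g = κ * ρ j
  hc : ∀ q i, ∃ ζ κ, C.p ζ = 1 ∧ InK Q κ ∧ Q.σ q * t i = ζ * (κ * ρ (c q i))
  sumq : ∀ A : G → ℝ, (∀ q, 0 ≤ A q) → Summable A → Summable fun j => A (q j)
  sumc : ∀ A : J → ℝ, (∀ j, 0 ≤ A j) → Summable A → ∀ i, Summable fun q => A (c q i)

theorem summable_snd {F J : Type} [Finite F] {A : J → ℝ} (h0 : ∀ j, 0 ≤ A j) (hA : Summable A) :
    Summable fun x : F × J => A x.2 :=
  (summable_prod_of_nonneg fun x => h0 x.2).2 ⟨fun _ => hA, Summable.of_finite⟩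

theorem exists_reps {Γ Γ₀ : Subgroup SU21} (hi : Γ.relIndex Γ₀ ≠ 0) :
    ∃ (k : ℕ) (t : Fin k → SU21), (∀ i, t i ∈ Γ₀) ∧ ∀ γ ∈ Γ₀, ∃ i, ∃ δ ∈ Γ, γ = δ * t i := by
  have : Finite (↥Γ₀ ⧸ Γ.subgroupOf Γ₀) := Nat.finite_of_card_ne_zero hi
  obtain ⟨k, ⟨E⟩⟩ := Finite.exists_equiv_fin (↥Γ₀ ⧸ Γ.subgroupOf Γ₀)
  refine ⟨k, fun i => (((E.symm i).out : ↥Γ₀) : SU21)⁻¹, fun i => inv_mem (Subtype.prop _),
    fun γ hγ => ?_⟩
  refine ⟨E (QuotientGroup.mk ⟨γ⁻¹, inv_mem hγ⟩), ?_⟩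
  simp only [Equiv.symm_apply_apply]
  obtain ⟨h, hh⟩ := QuotientGroup.mk_out_eq_mul (Γ.subgroupOf Γ₀) ⟨γ⁻¹, inv_mem hγ⟩
  refine ⟨(h : ↥Γ₀), Subgroup.mem_subgroupOf.1 h.2, ?_⟩
  rw [hh]
  simp

/-- the class of a lift -/
def cl (Q : Quo C Γ G) (Γ₀ : Subgroup SU21) (a : U) (ha : C.p a ∈ Γ₀) : ↥Γ₀ ⧸ Kb Q Γ₀ :=
  QuotientGroup.mk ⟨(C.p a)⁻¹, inv_mem ha⟩

theorem cl_eq {Γ₀ : Subgroup SU21} {a b : U} (ha : C.p a ∈ Γ₀) (hb : C.p b ∈ Γ₀) (g : ↥Γ₀) :
    cl Q Γ₀ a ha = g • cl Q Γ₀ b hb ↔ ∃ κ, InK Q κ ∧ C.p a * g = C.p κ * C.p b := by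
  unfold cl
  rw [MulAction.Quotient.smul_mk, QuotientGroup.eq]
  constructor
  · rintro ⟨κ, h1, h2⟩
    refine ⟨κ, h1, ?_⟩
    rw [h2]
    simp [mul_assoc]
  · rintro ⟨κ, h1, h2⟩
    refine ⟨κ, h1, ?_⟩
    have : C.p κ = C.p a * g * (C.p b)⁻¹ := by rw [h2]; group
    rw [this]
    simp [mul_assoc]

theorem exists_idx (hn : 0 < n) (Q : Quo C Γ G) {Γ₀ : Subgroup SU21} (hle : Γ ≤ Γ₀)
    (hi : Γ.relIndex Γ₀ ≠ 0) (hinj : ∀ z : ↥(Γ.comap C.p), C.p z = 1 → Q.π z = 1 → z = 1) :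
    Nonempty (Idx Q Γ₀ (↥Γ₀ ⧸ Kb Q Γ₀)) := by
  classical
  obtain ⟨k, t0, ht0, hcov⟩ := exists_reps hi
  choose t ht using fun i => C.surj hn (t0 i)
  have hK : ∀ {κ κ' : U}, InK Q κ → InK Q κ' → C.p κ = C.p κ' → κ = κ' := by
    intro κ κ' h1 h2 h3
    obtain ⟨h4, h5⟩ := h1.mul h2.inv
    have := hinj _ (by simp [h3]) h5
    exact mul_inv_eq_one.1 (congrArg Subtype.val this)
  have hmem : ∀ q i, C.p (Q.σ q * t i) ∈ Γ₀ := fun q i => by
    rw [map_mul, ht]
    exact mul_mem (hle (Q.σ q).2) (ht0 i)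
  let c : G → Fin k → ↥Γ₀ ⧸ Kb Q Γ₀ := fun q i => cl Q Γ₀ _ (hmem q i)
  have hsur : ∀ γ ∈ Γ₀, ∃ q i κ, InK Q κ ∧ C.p (κ * (Q.σ q * t i)) = γ := by
    intro γ hγ
    obtain ⟨i, δ, hδ, rfl⟩ := hcov γ hγ
    obtain ⟨d, rfl⟩ := C.surj hn δ
    refine ⟨Q.π ⟨d, hδ⟩, i, d * (Q.σ (Q.π ⟨d, hδ⟩) : U)⁻¹, ⟨mul_mem hδ (inv_mem (Subtype.prop _)), ?_⟩,
      by rw [mul_assoc, inv_mul_cancel_left, map_mul, ht]⟩
    have := map_mul Q.π ⟨d, hδ⟩ (Q.σ (Q.π ⟨d, hδ⟩))⁻¹
    rw [map_inv, Q.sec, mul_inv_cancel] at this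
    exact this
  have hc : ∀ j, ∃ q i, c q i = j := by
    intro j
    induction j using QuotientGroup.induction_on with
    | H γ =>
      obtain ⟨q, i, κ, h1, h2⟩ := hsur _ (inv_mem γ.2)
      obtain ⟨a, ha⟩ := C.surj hn (γ : SU21)⁻¹
      have hm : C.p a ∈ Γ₀ := ha ▸ inv_mem γ.2
      refine ⟨q, i, ?_⟩
      have e1 : (QuotientGroup.mk γ : ↥Γ₀ ⧸ Kb Q Γ₀) = cl Q Γ₀ a hm := by
        unfold cl
        congr 1
        ext1
        simp [ha]
      rw [e1, eq_comm, ← one_smul ↥Γ₀ (c q i)]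
      exact (cl_eq hm (hmem q i) 1).2 ⟨κ, h1, by rw [ha, ← h2, map_mul]; simp⟩
  choose q i hqi using hc
  obtain ⟨ρ, hρ⟩ : ∃ ρ : (↥Γ₀ ⧸ Kb Q Γ₀) → U, ∀ j, ρ j = Q.σ (q j) * t (i j) := ⟨_, fun _ => rfl⟩
  have key : ∀ j j' (g : ↥Γ₀), j' = g • j ↔ ∃ κ, InK Q κ ∧ C.p (ρ j') * g = C.p κ * C.p (ρ j) := by
    intro j j' g
    rw [hρ, hρ, ← cl_eq (hmem _ _) (hmem _ _) g]
    change _ ↔ c _ _ = g • c _ _
    rw [hqi, hqi]
  choose κ0 hκ1 hκ2 using fun j (g : ↥Γ₀) => (key j (g • j) g).1 rfl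
  let e : (↥Γ₀ ⧸ Kb Q Γ₀) → ↥Γ₀ → U := fun j g => (ρ (g • j))⁻¹ * κ0 j g * ρ j
  have pe : ∀ j g, C.p (e j g) = g := fun j g => by
    simp only [e, map_mul, map_inv]
    rw [mul_assoc, ← hκ2, inv_mul_cancel_left]
  have he : ∀ j g, ρ (g • j) * e j g = κ0 j g * ρ j := fun j g => by
    simp only [e]
    group
  have det : ∀ j j' κ κ' (g : ↥Γ₀), InK Q κ → InK Q κ' →
      C.p (κ' * ρ j') * g = C.p (κ * ρ j) → j' = g • j ∧ κ' * ρ j' * e j g = κ * ρ j := by
    intro j j' κ κ' g h1 h2 h3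
    have hj : j' = g • j := (key j j' g).2 ⟨κ'⁻¹ * κ, h2.inv.mul h1, by
      rw [map_mul, map_mul] at h3
      rw [map_mul, map_inv, mul_assoc, ← h3]
      group⟩
    refine ⟨hj, ?_⟩
    subst hj
    rw [mul_assoc, he, ← mul_assoc]
    congr 1
    refine hK (h2.mul (hκ1 j g)) h1 ?_
    rw [map_mul, map_mul, mul_assoc, hκ2, ← mul_assoc] at h3
    rw [map_mul]
    exact mul_right_cancel h3
  have hz : ∀ q' i', ∃ ζ κ, C.p ζ = 1 ∧ InK Q κ ∧ Q.σ q' * t i' = ζ * (κ * ρ (c q' i')) := by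
    intro q' i'
    obtain ⟨κ, h1, h2⟩ := (cl_eq (Q := Q) (hmem q' i') (hmem (q (c q' i')) (i (c q' i'))) 1).1 (by
      rw [one_smul]
      exact (hqi (c q' i')).symm)
    refine ⟨Q.σ q' * t i' * (κ * ρ (c q' i'))⁻¹, κ, ?_, h1, by group⟩
    rw [map_mul _ _ (κ * ρ (c q' i'))⁻¹, map_inv, map_mul C.p κ, hρ, ← h2]
    simp
  refine ⟨⟨k, t, q, i, ρ, e, c, hρ, fun i => (ht i).symm ▸ ht0 i, fun γ hγ => ?_, pe,
    fun j g => ⟨_, hκ1 j g, he j g⟩, fun j g h => ?_, fun γ hγ => ?_, det, hz, fun A h0 hA => ?_,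
    fun A h0 hA i' => ?_⟩⟩
  · simpa only [ht] using hcov γ hγ
  · have h1 := (det j ((g * h) • j) (κ0 (h • j) g * κ0 j h) 1 (g * h)
      ((hκ1 _ _).mul (hκ1 _ _)) InK.one (by
        rw [one_mul, mul_smul, Subgroup.coe_mul, ← mul_assoc, hκ2, mul_assoc, hκ2, map_mul, map_mul,
          mul_assoc])).2
    apply mul_left_cancel (a := ρ ((g * h) • j))
    rw [one_mul] at h1
    rw [h1, mul_smul, ← mul_assoc, he, mul_assoc, mul_assoc, he]
  · obtain ⟨q', i', κ, h1, h2⟩ := hsur γ hγ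
    obtain ⟨ζ, κ', h3, h4, h5⟩ := hz q' i'
    refine ⟨c q' i', κ * κ', h1.mul h4, ?_⟩
    rw [← h2, h5]
    simp [h3, mul_assoc]
  · refine (summable_snd (F := Fin k) h0 hA).comp_injective (i := fun j => (i j, q j)) ?_
    intro j j' h
    simp only [Prod.mk.injEq] at h
    rw [← hqi j, ← hqi j', h.1, h.2]
  · have : Finite C.p.ker := Nat.finite_of_card_ne_zero (by rw [C.card_ker hn]; omega)
    choose ζ κ h3 h4 h5 using fun q' => hz q' i'
    refine (summable_snd (F := C.p.ker) h0 hA).comp_injective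
      (i := fun q' => (⟨ζ q', h3 q'⟩, c q' i')) ?_
    intro a b h
    simp only [Prod.mk.injEq, Subtype.mk.injEq] at h
    have e1 : (Q.σ a : U) * (Q.σ b : U)⁻¹ = κ a * (κ b)⁻¹ := by
      have e2 : (Q.σ a : U) * (Q.σ b : U)⁻¹ = Q.σ a * t i' * (Q.σ b * t i')⁻¹ := by group
      rw [e2, h5 a, h5 b, h.1, h.2, C.central hn (h3 b), C.central hn (h3 b)]
      group
    obtain ⟨h6, h7⟩ := (h4 a).mul (h4 b).inv
    have e3 : Q.σ a * (Q.σ b)⁻¹ = ⟨_, h6⟩ := Subtype.ext e1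
    have e4 := congrArg Q.π e3
    rw [h7, map_mul, map_inv, Q.sec, Q.sec] at e4
    exact mul_inv_eq_one.1 e4

end

end Pool.Agent.MP_54e5d7_al.Atc.Glue

end MrgPart1

-- ======== part 2: formerly Pool.Agent.MP_54e5d7_al.atc.jet.JetA
section MrgPart2

/-!
PROJECT ATC, block JET, part A: division by the equation of a disc.
-/

set_option autoImplicit false

open scoped ComplexConjugate Topology
open Set Filter Metric

namespace Pool.Agent.MP_54e5d7_al.Atc

theorem ell_apply (x : V3) (z : C2) :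
    ell x z = z.1 * conj (x 0) + z.2 * conj (x 1) - conj (x 2) := by
  simp [ell, H, hat]

theorem ell_line (x : V3) (y z : C2) (t : ℂ) :
    ell x (y + t • (z - y)) = ell x y + t * (ell x z - ell x y) := by
  simp only [ell_apply, Prod.fst_add, Prod.snd_add, Prod.smul_fst, Prod.smul_snd, Prod.fst_sub,
    Prod.snd_sub, smul_eq_mul]
  ring

theorem ell_frequently {x : V3} (hx : H x x = 1) (y : C2) : ∃ᶠ z in 𝓝 y, ell x z ≠ 0 := by
  set v : C2 := (x 0, x 1) with hv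
  set a : ℂ := x 0 * conj (x 0) + x 1 * conj (x 1) with ha
  have ha0 : a ≠ 0 := by
    intro h0
    have h1 : a - x 2 * conj (x 2) = 1 := hx
    rw [h0, Complex.mul_conj] at h1
    have h2 := congrArg Complex.re h1
    simp at h2
    have := Complex.normSq_nonneg (x 2)
    linarith
  have hl : ∀ t : ℂ, ell x (y + t • v) = ell x y + t * a := by
    intro t
    simp only [ell_apply, Prod.fst_add, Prod.snd_add, Prod.smul_fst, Prod.smul_snd, smul_eq_mul,
      hv, ha]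
    ring
  have ht : Tendsto (fun t : ℂ => y + t • v) (𝓝[≠] 0) (𝓝 y) := by
    have : Continuous fun t : ℂ => y + t • v := by fun_prop
    have h2 := this.tendsto 0
    simp only [zero_smul, add_zero] at h2
    exact h2.mono_left nhdsWithin_le_nhds
  refine ht.frequently ?_
  by_cases h0 : ell x y = 0
  · refine Eventually.frequently ?_
    filter_upwards [self_mem_nhdsWithin] with t ht
    rw [hl, h0, zero_add]
    exact mul_ne_zero ht ha0
  · refine Eventually.frequently ?_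
    have hc : Continuous fun t : ℂ => ell x y + t * a := by fun_prop
    have h3 : ∀ᶠ t in 𝓝 (0 : ℂ), ell x y + t * a ≠ 0 :=
      hc.continuousAt.eventually_ne (by simpa using h0)
    filter_upwards [mem_nhdsWithin_of_mem_nhds h3] with t ht
    rwa [hl]

theorem ell_cancel {x : V3} (hx : H x x = 1) {O : Set C2} (hO : IsOpen O) {a b : C2 → ℂ}
    (ha : ContinuousOn a O) (hb : ContinuousOn b O)
    (h : ∀ z ∈ O, ell x z * a z = ell x z * b z) : ∀ z ∈ O, a z = b z := by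
  intro y hy
  have hn := hO.mem_nhds hy
  have h1 : ∃ᶠ z in 𝓝 y, a z = b z := by
    refine ((ell_frequently hx y).and_eventually hn).mono ?_
    rintro z ⟨h0, hz⟩
    exact mul_left_cancel₀ h0 (h z hz)
  exact tendsto_nhds_unique_of_frequently_eq (ha.continuousAt hn) (hb.continuousAt hn) h1

/-- a holomorphic function vanishing on the disc is divisible by its equation -/
theorem div_ell {x : V3} (hx : H x x = 1) {f : C2 → ℂ} (hf : DifferentiableOn ℂ f B)
    (h0 : ∀ z ∈ B, ell x z = 0 → f z = 0) :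
    ∃ q : C2 → ℂ, DifferentiableOn ℂ q B ∧ ∀ z ∈ B, f z = ell x z * q z := by
  refine div_glue (isOpen_Bl 1) (differentiable_ell x).continuous.continuousOn
    (fun y _ => ell_frequently hx y) ?_
  intro y hy
  have hn : B ∈ 𝓝 y := (isOpen_Bl 1).mem_nhds hy
  have h1 : Van 1 x f {y} := by
    refine van_one hx ?_ ?_
    · filter_upwards [hn] with z hz
      exact hf.differentiableAt ((isOpen_Bl 1).mem_nhds hz)
    · filter_upwards [hn] with z hz
      exact h0 z hz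
  obtain ⟨O, hO, q, hq, h⟩ := h1 y rfl
  exact ⟨O, hO, q, hq, fun z hz => by simpa using h z hz⟩

/-- identity theorem along the disc -/
theorem disc_identity {x : V3} {f : C2 → ℂ} (hf : DifferentiableOn ℂ f B) {y : C2} (hy : y ∈ B)
    (hy0 : ell x y = 0) (h : ∀ᶠ z in 𝓝 y, ell x z = 0 → f z = 0) :
    ∀ z ∈ B, ell x z = 0 → f z = 0 := by
  intro z hz hz0
  set l : ℂ → C2 := fun t => y + t • (z - y) with hl
  have hlc : Differentiable ℂ l := by fun_prop
  set T : Set ℂ := l ⁻¹' B with hT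
  have hTo : IsOpen T := (isOpen_Bl 1).preimage hlc.continuous
  have hTc : Convex ℝ T := by
    intro a ha b hb s t hs ht hst
    have h1 := convex_Bl 1 ha hb hs ht hst
    have h2 : l (s • a + t • b) = s • l a + t • l b := by
      have hs' : s = 1 - t := by linarith
      simp only [hl, hs']
      ext <;> simp <;> ring
    show l (s • a + t • b) ∈ B
    rw [h2]
    exact h1
  have h0T : (0 : ℂ) ∈ T := by
    show l 0 ∈ B
    simpa [hl] using hy
  have h1T : (1 : ℂ) ∈ T := by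
    show l 1 ∈ B
    simpa [hl] using hz
  have hd : DifferentiableOn ℂ (f ∘ l) T := hf.comp hlc.differentiableOn (mapsTo_preimage _ _)
  have han : AnalyticOnNhd ℂ (f ∘ l) T := hd.analyticOnNhd hTo
  have hev : (f ∘ l) =ᶠ[𝓝 0] 0 := by
    have ht : Tendsto l (𝓝 0) (𝓝 y) := by
      have := hlc.continuous.tendsto 0
      simpa [hl] using this
    filter_upwards [ht.eventually h] with t ht
    refine ht ?_
    simp only [hl]
    rw [ell_line, hy0, hz0]
    ring
  have := han.eqOn_zero_of_preconnected_of_eventuallyEq_zero hTc.isPreconnected h0T hev h1T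
  simpa [hl] using this

theorem van_zero_order (x : V3) {f : C2 → ℂ} (hf : DifferentiableOn ℂ f B) : Van 0 x f B :=
  fun _ hy => ⟨B, (isOpen_Bl 1).mem_nhds hy, f, hf, fun z _ => by simp⟩

theorem van_succ {k : ℕ} {x : V3} {f q : C2 → ℂ} (h : ∀ z ∈ B, f z = ell x z * q z)
    (hq : Van k x q B) : Van (k + 1) x f B := by
  intro y hy
  obtain ⟨O, hO, p, hp, hp'⟩ := hq y hy
  refine ⟨O ∩ B, inter_mem hO ((isOpen_Bl 1).mem_nhds hy), p, hp.mono inter_subset_left, ?_⟩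
  intro z hz
  rw [h z hz.2, hp' z hz.1]
  ring

/-- the order of vanishing is constant along the disc -/
theorem van_prop {x : V3} (hx : H x x = 1) {y : C2} (hy : y ∈ B) (hy0 : ell x y = 0) :
    ∀ (k : ℕ) {f : C2 → ℂ}, DifferentiableOn ℂ f B → Van k x f {y} → Van k x f B := by
  intro k
  induction k with
  | zero => intro f hf _; exact van_zero_order x hf
  | succ k ih =>
    intro f hf h
    obtain ⟨O, hO, p, hp, hp'⟩ := h y rfl
    have h0 : ∀ z ∈ B, ell x z = 0 → f z = 0 := by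
      refine disc_identity hf hy hy0 ?_
      filter_upwards [hO] with z hz h1
      rw [hp' z hz, h1]
      simp
    obtain ⟨q, hq, hq'⟩ := div_ell hx hf h0
    refine van_succ hq' (ih hq ?_)
    obtain ⟨O', hO'1, hO'2, hO'3⟩ := _root_.mem_nhds_iff.1 (inter_mem hO ((isOpen_Bl 1).mem_nhds hy))
    have hsO : O' ⊆ O := fun z hz => (hO'1 hz).1
    have hsB : O' ⊆ B := fun z hz => (hO'1 hz).2
    intro y' hy'
    obtain rfl : y' = y := hy'
    refine ⟨O', hO'2.mem_nhds hO'3, p, hp.mono hsO, ?_⟩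
    refine ell_cancel hx hO'2 (hq.continuousOn.mono hsB)
      ((((differentiable_ell x).continuous.pow k).continuousOn).mul (hp.continuousOn.mono hsO)) ?_
    intro z hz
    rw [← hq' z (hsB hz), hp' z (hsO hz)]
    ring

end Pool.Agent.MP_54e5d7_al.Atc

end MrgPart2

-- ======== part 3: formerly Pool.Agent.MP_54e5d7_al.atc.jet.JetB
section MrgPart3

/-!
PROJECT ATC, block JET, part B: invariant functions; finitely many points of the disc detect the
restriction to the disc; division raises the weight.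
-/

set_option autoImplicit false

open scoped ComplexConjugate Topology
open Set Filter Metric

namespace Pool.Agent.MP_54e5d7_al.Atc

variable {n : ℕ} {U : Type} [Group U]

/-- holomorphic functions invariant under a subgroup of the cover -/
def Cover.invSub (C : Cover n U) (N : Subgroup U) (s : ℕ) : Submodule ℂ (C2 → ℂ) where
  carrier := {f | Hol f ∧ ∀ ν ∈ N, C.sl s f ν = f}
  add_mem' := by
    rintro f g ⟨⟨hf1, hf2⟩, hf3⟩ ⟨⟨hg1, hg2⟩, hg3⟩
    refine ⟨⟨fun z hz => by simp [hf1 z hz, hg1 z hz], hf2.add hg2⟩, fun ν hν => ?_⟩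
    rw [C.sl_add, hf3 ν hν, hg3 ν hν]
  zero_mem' := by
    refine ⟨⟨fun _ _ => rfl, differentiableOn_const 0⟩, fun ν _ => ?_⟩
    have h := C.sl_smul s 0 0 ν
    simpa using h
  smul_mem' := by
    rintro c f ⟨⟨hf1, hf2⟩, hf3⟩
    refine ⟨⟨fun z hz => by simp [hf1 z hz], hf2.const_smul c⟩, fun ν hν => ?_⟩
    rw [C.sl_smul, hf3 ν hν]

theorem ell_act_stab {g : SU21} {x : V3} (hg : g ∈ stab x) {z : C2} (hz : z ∈ B) :
    ell x (act g z) * jf g z = ell x z := by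
  have h := ell_act g x hz
  have h2 : mv g x = x := hg
  rwa [h2] at h

variable {C : Cover n U} {Γ : Subgroup SU21} {X : Set V3} {ε : ℝ} {N : V3 → Subgroup U} {x : V3}

theorem eval_net (hn : 0 < n) (hΓ : Lat Γ) (hX : Discs Γ X ε) (hN : Fill C Γ X N) (hx : x ∈ X)
    (s : ℕ) : ∃ r < (1 : ℝ), ∃ P : Finset C2, (∀ p ∈ P, p ∈ Bl r) ∧
      ∀ f ∈ C.invSub (N x) s, (∀ p ∈ P, f p = 0) → ∀ z ∈ B, ell x z = 0 → f z = 0 := by
  obtain ⟨r, hr, hco⟩ := hX.cocpt hΓ hx
  set K : Set C2 := {z | nsq z ≤ r} ∩ {z | ell x z = 0} with hK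
  have hKc : IsCompact K := (isCompact_nsq_le r).inter_right
    (isClosed_eq (differentiable_ell x).continuous continuous_const)
  set r' : ℝ := (r + 1) / 2 with hr'
  have hr'1 : r' < 1 := by rw [hr']; linarith
  have hKs : K ⊆ Bl r' := fun z hz => by
    have h1 : nsq z ≤ r := hz.1
    show nsq z < r'
    rw [hr']; linarith
  have hsB : Bl r' ⊆ B := Bl_mono hr'1.le
  obtain ⟨δ, hδ, hth⟩ := hKc.exists_thickening_subset_open (isOpen_Bl r') hKs
  set τ : ℝ := (s : ℝ) / n with hτ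
  have hτ0 : 0 ≤ τ := by positivity
  set a : ℝ := (1 - r') ^ τ with ha
  have ha0 : 0 < a := Real.rpow_pos_of_pos (by linarith) _
  set R : ℝ := 1 / a + 2 with hR
  have hR1 : 1 < R := by
    have : 0 < 1 / a := by positivity
    linarith
  have hR0 : 0 < R := by linarith
  have haR : 1 < a * R ^ 2 := by
    have h1 : a * R = 1 + 2 * a := by rw [hR]; field_simp
    nlinarith
  obtain ⟨t, hts, htf, htc⟩ := hKc.finite_cover_balls (show 0 < δ / R by positivity)
  refine ⟨r', hr'1, htf.toFinset, fun p hp => hKs (hts (by simpa using hp)), ?_⟩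
  rintro f ⟨⟨-, hf⟩, hinv⟩ hP z hz hz0
  set u : C2 → ℝ := fun w => ‖f w‖ ^ 2 * (1 - nsq w) ^ τ with hu
  have hmove : ∀ w ∈ B, ell x w = 0 → ∃ w' ∈ K, u w = u w' := by
    intro w hw hw0
    obtain ⟨γ, hγ, hγw⟩ := hco w hw hw0
    obtain ⟨ν, hν, rfl⟩ := hN.onto x hx γ hγ
    refine ⟨act (C.p ν) w, ⟨show nsq (act (C.p ν) w) ≤ r from le_of_lt hγw, ?_⟩, ?_⟩
    · have h1 := ell_act_stab hγ.2 hw
      rw [hw0] at h1
      exact (mul_eq_zero.1 h1).resolve_right (jf_ne_zero _ hw)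
    · have h1 := C.norm_sl hn s f ν hw
      rw [hinv ν hν] at h1
      exact h1
  have huc : ContinuousOn u K := by
    refine ((hf.continuousOn.mono (hKs.trans hsB)).norm.pow 2).mul ?_
    exact ((continuous_const.sub continuous_nsq).rpow_const fun _ => Or.inr hτ0).continuousOn
  obtain ⟨w0, hw0, -⟩ := hmove z hz hz0
  obtain ⟨z0, hz0K, hmax⟩ := hKc.exists_isMaxOn ⟨w0, hw0⟩ huc
  have hle : ∀ w ∈ B, ell x w = 0 → u w ≤ u z0 := by
    intro w hw hw1
    obtain ⟨w', hw', h⟩ := hmove w hw hw1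
    rw [h]
    exact hmax hw'
  have hz0B : z0 ∈ B := hsB (hKs hz0K)
  have hpos : ∀ w ∈ B, 0 < (1 - nsq w) ^ τ := fun w hw =>
    Real.rpow_pos_of_pos (by have : nsq w < 1 := hw; linarith) _
  have hm0 : 0 ≤ u z0 := mul_nonneg (sq_nonneg _) (hpos z0 hz0B).le
  set M : ℝ := √(u z0 / a) with hM
  have hM0 : 0 ≤ M := Real.sqrt_nonneg _
  have hMb : ∀ w ∈ Bl r', ell x w = 0 → ‖f w‖ ≤ M := by
    intro w hw hw1
    refine Real.le_sqrt_of_sq_le ?_
    rw [le_div_iff₀ ha0]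
    refine le_trans ?_ (hle w (hsB hw) hw1)
    refine mul_le_mul_of_nonneg_left ?_ (sq_nonneg _)
    have : nsq w < r' := hw
    exact Real.rpow_le_rpow (by linarith) (by linarith) hτ0
  obtain ⟨p, hp, hpz⟩ := mem_iUnion₂.1 (htc hz0K)
  have hpK := hts hp
  have hfp : f p = 0 := hP p (by simpa using hp)
  set l : ℂ → C2 := fun c => p + c • (z0 - p) with hl
  have hlc : Differentiable ℂ l := by fun_prop
  have hlm : ∀ c ∈ ball (0 : ℂ) R, l c ∈ Bl r' := by
    intro c hc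
    refine hth (mem_thickening_iff.2 ⟨p, hpK, ?_⟩)
    have h1 : ‖c‖ < R := by simpa using hc
    have h2 : ‖z0 - p‖ < δ / R := by rwa [mem_ball, dist_eq_norm] at hpz
    have h3 : dist (l c) p = ‖c‖ * ‖z0 - p‖ := by
      simp [hl, dist_eq_norm, norm_smul]
    rw [h3]
    calc ‖c‖ * ‖z0 - p‖ ≤ R * ‖z0 - p‖ := mul_le_mul_of_nonneg_right h1.le (norm_nonneg _)
      _ < R * (δ / R) := mul_lt_mul_of_pos_left h2 hR0
      _ = δ := by field_simp
  have hd : DifferentiableOn ℂ (f ∘ l) (ball 0 R) :=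
    hf.comp hlc.differentiableOn fun c hc => hsB (hlm c hc)
  have h00 : (f ∘ l) 0 = 0 := by simp [hl, hfp]
  have hmaps : MapsTo (f ∘ l) (ball 0 R) (closedBall ((f ∘ l) 0) M) := by
    intro c hc
    rw [h00, mem_closedBall_zero_iff]
    refine hMb _ (hlm c hc) ?_
    have e1 : ell x p = 0 := hpK.2
    have e2 : ell x z0 = 0 := hz0K.2
    simp only [hl]
    rw [ell_line, e1, e2]
    ring
  have hs := Complex.dist_le_div_mul_dist_of_mapsTo_ball hd hmaps
    (show (1 : ℂ) ∈ ball 0 R by simpa using hR1)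
  rw [h00] at hs
  have hs' : ‖f z0‖ ≤ M / R := by simpa [hl] using hs
  have h1 : u z0 ≤ ‖f z0‖ ^ 2 := by
    refine mul_le_of_le_one_right (sq_nonneg _) ?_
    have h2 : nsq z0 < 1 := hz0B
    exact Real.rpow_le_one (by linarith) (by linarith [nsq_nonneg z0]) hτ0
  have h2 : ‖f z0‖ ^ 2 ≤ (M / R) ^ 2 := pow_le_pow_left₀ (norm_nonneg _) hs' 2
  have h3 : (M / R) ^ 2 = u z0 / (a * R ^ 2) := by
    rw [div_pow, hM, Real.sq_sqrt (div_nonneg hm0 ha0.le)]
    field_simp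
  have h4 : u z0 * (a * R ^ 2) ≤ u z0 := by
    rw [← le_div_iff₀ (by positivity)]
    linarith
  have h5 : u z0 ≤ 0 := by nlinarith
  have h6 : ‖f z‖ ^ 2 * (1 - nsq z) ^ τ ≤ 0 := (hle z hz hz0).trans h5
  have h7 : ‖f z‖ ^ 2 ≤ 0 := by
    by_contra h
    exact absurd (mul_pos (not_le.1 h) (hpos z hz)) (not_lt.2 h6)
  have h8 : ‖f z‖ ^ 2 = 0 := le_antisymm h7 (sq_nonneg _)
  simpa using h8

/-- division by the equation of the disc raises the weight by `n` -/
theorem div_inv (hn : 0 < n) (hX : Discs Γ X ε) (hN : Fill C Γ X N) (hx : x ∈ X) {s : ℕ}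
    {f : C2 → ℂ} (hf : f ∈ C.invSub (N x) s) (h0 : ∀ z ∈ B, ell x z = 0 → f z = 0) :
    ∃ q ∈ C.invSub (N x) (s + n), f = ell x * q := by
  obtain ⟨⟨hf1, hf2⟩, hinv⟩ := hf
  have hu := hX.unit x hx
  obtain ⟨q, hq, hq'⟩ := div_ell hu hf2 h0
  have hd : DifferentiableOn ℂ (B.indicator q) B :=
    hq.congr fun z hz => indicator_of_mem hz q
  refine ⟨B.indicator q, ⟨⟨fun z hz => indicator_of_notMem hz q, hd⟩, ?_⟩, ?_⟩
  · intro ν hν
    funext z
    by_cases hz : z ∈ B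
    · refine ell_cancel hu (isOpen_Bl 1) (C.hol_sl hn (s + n) hd ν).2.continuousOn
        hd.continuousOn ?_ z hz
      intro w hw
      have hw' := act_mem (C.p ν) hw
      have e1 := ell_act_stab (hN.le x hx ν hν).2 hw
      have e2 := congrFun (hinv ν hν) w
      rw [C.sl_of_mem s f ν hw, hq' _ hw', hq' _ hw] at e2
      rw [C.sl_of_mem _ _ ν hw, indicator_of_mem hw', indicator_of_mem hw, ← e2, ← e1, pow_add,
        C.pow ν w hw]
      have n1 := C.φ_ne_zero hn ν hw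
      have n2 := jf_ne_zero (C.p ν) hw
      field_simp
    · rw [C.sl_of_notMem _ _ _ hz, indicator_of_notMem hz]
  · funext z
    by_cases hz : z ∈ B
    · simp [indicator_of_mem hz, hq' z hz]
    · simp [indicator_of_notMem hz, hf1 z hz]

end Pool.Agent.MP_54e5d7_al.Atc

end MrgPart3

-- ======== part 4: formerly Pool.Agent.MP_54e5d7_al.atc.pde.Calc
section MrgPart4

/-! Calculus of the Wirtinger derivatives. -/

open Set MeasureTheory Complex Filter
open scoped ContDiff ENNReal Topology ComplexConjugate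

noncomputable section

namespace Pool.Agent.MP54.PDE

instance : (volume : Measure V).IsAddHaarMeasure :=
  inferInstanceAs (((volume : Measure ℂ).prod (volume : Measure ℂ)).IsAddHaarMeasure)

variable {f g : V → ℂ} {z : V} {U : Set V}

@[simp] lemma e_zero : e 0 = ((1 : ℂ), (0 : ℂ)) := rfl
@[simp] lemma e_one : e 1 = ((0 : ℂ), (1 : ℂ)) := rfl
@[simp] lemma co_zero (z : V) : co 0 z = z.1 := rfl
@[simp] lemma co_one (z : V) : co 1 z = z.2 := rfl

lemma db_congr (k : Fin 2) (h : f =ᶠ[𝓝 z] g) : db k f z = db k g z := by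
  simp only [db, h.fderiv_eq]

lemma dz_congr (k : Fin 2) (h : f =ᶠ[𝓝 z] g) : dz k f z = dz k g z := by
  simp only [dz, h.fderiv_eq]

lemma db_congr_on (k : Fin 2) (hU : IsOpen U) (h : EqOn f g U) : EqOn (db k f) (db k g) U :=
  fun _ hz => db_congr k (h.eventuallyEq_of_mem (hU.mem_nhds hz))

lemma dz_congr_on (k : Fin 2) (hU : IsOpen U) (h : EqOn f g U) : EqOn (dz k f) (dz k g) U :=
  fun _ hz => dz_congr k (h.eventuallyEq_of_mem (hU.mem_nhds hz))

@[simp] lemma db_const (k : Fin 2) (c : ℂ) (z : V) : db k (fun _ => c) z = 0 := by simp [db]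
@[simp] lemma dz_const (k : Fin 2) (c : ℂ) (z : V) : dz k (fun _ => c) z = 0 := by simp [dz]
@[simp] lemma db_zero (k : Fin 2) (z : V) : db k (0 : V → ℂ) z = 0 := db_const k 0 z
@[simp] lemma dz_zero (k : Fin 2) (z : V) : dz k (0 : V → ℂ) z = 0 := dz_const k 0 z

lemma db_add (k : Fin 2) (hf : DifferentiableAt ℝ f z) (hg : DifferentiableAt ℝ g z) :
    db k (fun x => f x + g x) z = db k f z + db k g z := by
  simp only [db, fderiv_fun_add hf hg, _root_.add_apply]; ring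

lemma dz_add (k : Fin 2) (hf : DifferentiableAt ℝ f z) (hg : DifferentiableAt ℝ g z) :
    dz k (fun x => f x + g x) z = dz k f z + dz k g z := by
  simp only [dz, fderiv_fun_add hf hg, _root_.add_apply]; ring

lemma db_sub (k : Fin 2) (hf : DifferentiableAt ℝ f z) (hg : DifferentiableAt ℝ g z) :
    db k (fun x => f x - g x) z = db k f z - db k g z := by
  simp only [db, fderiv_fun_sub hf hg, _root_.sub_apply]; ring

lemma dz_sub (k : Fin 2) (hf : DifferentiableAt ℝ f z) (hg : DifferentiableAt ℝ g z) :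
    dz k (fun x => f x - g x) z = dz k f z - dz k g z := by
  simp only [dz, fderiv_fun_sub hf hg, _root_.sub_apply]; ring

lemma db_add' (k : Fin 2) (hf : DifferentiableAt ℝ f z) (hg : DifferentiableAt ℝ g z) :
    db k (f + g) z = db k f z + db k g z := db_add k hf hg

lemma db_sub' (k : Fin 2) (hf : DifferentiableAt ℝ f z) (hg : DifferentiableAt ℝ g z) :
    db k (f - g) z = db k f z - db k g z := db_sub k hf hg

lemma db_neg (k : Fin 2) (f : V → ℂ) (z : V) : db k (fun x => -f x) z = -db k f z := by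
  simp only [db, fderiv_fun_neg, _root_.neg_apply]; ring

lemma dz_neg (k : Fin 2) (f : V → ℂ) (z : V) : dz k (fun x => -f x) z = -dz k f z := by
  simp only [dz, fderiv_fun_neg, _root_.neg_apply]; ring

lemma db_mul (k : Fin 2) (hf : DifferentiableAt ℝ f z) (hg : DifferentiableAt ℝ g z) :
    db k (fun x => f x * g x) z = db k f z * g z + f z * db k g z := by
  simp only [db, fderiv_fun_mul hf hg, _root_.add_apply,
    _root_.smul_apply, smul_eq_mul]; ring

lemma dz_mul (k : Fin 2) (hf : DifferentiableAt ℝ f z) (hg : DifferentiableAt ℝ g z) :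
    dz k (fun x => f x * g x) z = dz k f z * g z + f z * dz k g z := by
  simp only [dz, fderiv_fun_mul hf hg, _root_.add_apply,
    _root_.smul_apply, smul_eq_mul]; ring

lemma db_const_mul (k : Fin 2) (c : ℂ) (hf : DifferentiableAt ℝ f z) :
    db k (fun x => c * f x) z = c * db k f z := by
  rw [db_mul k (differentiableAt_const c) hf]; simp

lemma dz_const_mul (k : Fin 2) (c : ℂ) (hf : DifferentiableAt ℝ f z) :
    dz k (fun x => c * f x) z = c * dz k f z := by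
  rw [dz_mul k (differentiableAt_const c) hf]; simp

lemma db_sum {ι : Type*} (k : Fin 2) (s : Finset ι) {F : ι → V → ℂ}
    (h : ∀ i ∈ s, DifferentiableAt ℝ (F i) z) :
    db k (fun x => ∑ i ∈ s, F i x) z = ∑ i ∈ s, db k (F i) z := by
  simp only [db, fderiv_fun_sum h, _root_.sum_apply, Finset.mul_sum,
    ← Finset.sum_add_distrib, Finset.sum_div]

lemma fderiv_conj (f : V → ℂ) (z v : V) :
    fderiv ℝ (fun x => conj (f x)) z v = conj (fderiv ℝ f z v) := by
  have : (fun x => conj (f x)) = (conjCLE : ℂ ≃L[ℝ] ℂ) ∘ f := rfl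
  rw [this, ContinuousLinearEquiv.comp_fderiv]; rfl

lemma db_conj (k : Fin 2) (f : V → ℂ) (z : V) :
    db k (fun x => conj (f x)) z = conj (dz k f z) := by
  simp only [db, dz, fderiv_conj, map_div₀, map_sub, map_mul, conj_I, map_ofNat]; ring

lemma dz_conj (k : Fin 2) (f : V → ℂ) (z : V) :
    dz k (fun x => conj (f x)) z = conj (db k f z) := by
  simp only [db, dz, fderiv_conj, map_div₀, map_add, map_mul, conj_I, map_ofNat]; ring

lemma conj_cx (ψ : V → ℝ) : (fun x => conj (cx ψ x)) = cx ψ := by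
  ext x; simp [cx]

lemma db_cx (k : Fin 2) (ψ : V → ℝ) (z : V) : db k (cx ψ) z = conj (dz k (cx ψ) z) := by
  rw [← db_conj, conj_cx]

lemma dz_cx (k : Fin 2) (ψ : V → ℝ) (z : V) : dz k (cx ψ) z = conj (db k (cx ψ) z) := by
  rw [← dz_conj, conj_cx]

lemma contDiff_conj {n : WithTop ℕ∞} (hf : ContDiff ℝ n f) : ContDiff ℝ n fun x => conj (f x) :=
  (conjCLE : ℂ ≃L[ℝ] ℂ).contDiff.comp hf

lemma contDiff_cx {n : WithTop ℕ∞} {ψ : V → ℝ} (h : ContDiff ℝ n ψ) : ContDiff ℝ n (cx ψ) :=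
  ofRealCLM.contDiff.comp h

lemma contDiffOn_cx {n : WithTop ℕ∞} {ψ : V → ℝ} (h : ContDiffOn ℝ n ψ U) :
    ContDiffOn ℝ n (cx ψ) U :=
  ofRealCLM.contDiff.comp_contDiffOn h

lemma fderiv_cx {ψ : V → ℝ} (h : DifferentiableAt ℝ ψ z) (v : V) :
    fderiv ℝ (cx ψ) z v = (fderiv ℝ ψ z v : ℂ) := by
  have := (ofRealCLM.hasFDerivAt.comp z h.hasFDerivAt).fderiv
  exact congrArg (fun L : V →L[ℝ] ℂ => L v) this

/-- Derivative of `exp (c ψ)`. -/
lemma db_exp (k : Fin 2) (c : ℝ) {ψ : V → ℝ} (h : DifferentiableAt ℝ ψ z) :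
    db k (fun x => (Real.exp (c * ψ x) : ℂ)) z =
      c * db k (cx ψ) z * (Real.exp (c * ψ z) : ℂ) := by
  have h1 : HasFDerivAt (fun x => Real.exp (c * ψ x)) (Real.exp (c * ψ z) • c • fderiv ℝ ψ z) z :=
    (h.hasFDerivAt.const_mul c).exp
  have h2 := fderiv_cx h1.differentiableAt
  have h3 := fderiv_cx h
  change db k (cx fun x => Real.exp (c * ψ x)) z = _
  simp only [db, h2, h3, h1.fderiv, _root_.smul_apply, smul_eq_mul]
  push_cast; ring

lemma dz_exp (k : Fin 2) (c : ℝ) {ψ : V → ℝ} (h : DifferentiableAt ℝ ψ z) :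
    dz k (fun x => (Real.exp (c * ψ x) : ℂ)) z =
      c * dz k (cx ψ) z * (Real.exp (c * ψ z) : ℂ) := by
  have h1 : HasFDerivAt (fun x => Real.exp (c * ψ x)) (Real.exp (c * ψ z) • c • fderiv ℝ ψ z) z :=
    (h.hasFDerivAt.const_mul c).exp
  have h2 := fderiv_cx h1.differentiableAt
  have h3 := fderiv_cx h
  change dz k (cx fun x => Real.exp (c * ψ x)) z = _
  simp only [dz, h2, h3, h1.fderiv, _root_.smul_apply, smul_eq_mul]
  push_cast; ring

lemma contDiffOn_fderiv_apply (hU : IsOpen U) (hf : ContDiffOn ℝ ∞ f U) (v : V) :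
    ContDiffOn ℝ ∞ (fun z => fderiv ℝ f z v) U :=
  (hf.fderiv_of_isOpen hU (m := ∞) (by simp)).clm_apply contDiffOn_const

lemma contDiffOn_db (k : Fin 2) (hU : IsOpen U) (hf : ContDiffOn ℝ ∞ f U) :
    ContDiffOn ℝ ∞ (db k f) U :=
  ((contDiffOn_fderiv_apply hU hf _).add
    (contDiffOn_const.mul (contDiffOn_fderiv_apply hU hf _))).div_const 2

lemma contDiffOn_dz (k : Fin 2) (hU : IsOpen U) (hf : ContDiffOn ℝ ∞ f U) :
    ContDiffOn ℝ ∞ (dz k f) U :=
  ((contDiffOn_fderiv_apply hU hf _).sub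
    (contDiffOn_const.mul (contDiffOn_fderiv_apply hU hf _))).div_const 2

lemma contDiff_db (k : Fin 2) (hf : ContDiff ℝ ∞ f) : ContDiff ℝ ∞ (db k f) :=
  contDiffOn_univ.1 (contDiffOn_db k isOpen_univ hf.contDiffOn)

lemma contDiff_dz (k : Fin 2) (hf : ContDiff ℝ ∞ f) : ContDiff ℝ ∞ (dz k f) :=
  contDiffOn_univ.1 (contDiffOn_dz k isOpen_univ hf.contDiffOn)

lemma diffAt_of_smoothOn {F : Type*} [NormedAddCommGroup F] [NormedSpace ℝ F] {f : V → F}
    (hU : IsOpen U) (hf : ContDiffOn ℝ ∞ f U) (hz : z ∈ U) : DifferentiableAt ℝ f z :=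
  (hf.contDiffAt (hU.mem_nhds hz)).differentiableAt (by simp)

lemma diffAt_of_smooth {F : Type*} [NormedAddCommGroup F] [NormedSpace ℝ F] {f : V → F}
    (hf : ContDiff ℝ ∞ f) (z : V) : DifferentiableAt ℝ f z :=
  hf.differentiable (by simp) z

lemma db_eq_zero_of_notMem (k : Fin 2) (hz : z ∉ tsupport f) : db k f z = 0 := by
  rw [db_congr k (notMem_tsupport_iff_eventuallyEq.1 hz)]; exact db_zero k z

lemma dz_eq_zero_of_notMem (k : Fin 2) (hz : z ∉ tsupport f) : dz k f z = 0 := by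
  rw [dz_congr k (notMem_tsupport_iff_eventuallyEq.1 hz)]; exact dz_zero k z

lemma tsupport_db (k : Fin 2) (f : V → ℂ) : tsupport (db k f) ⊆ tsupport f :=
  closure_minimal (fun z hz => by
    by_contra h; exact hz (db_eq_zero_of_notMem k h)) (isClosed_tsupport f)

lemma tsupport_dz (k : Fin 2) (f : V → ℂ) : tsupport (dz k f) ⊆ tsupport f :=
  closure_minimal (fun z hz => by
    by_contra h; exact hz (dz_eq_zero_of_notMem k h)) (isClosed_tsupport f)

lemma Test.db (k : Fin 2) (h : Test U f) : Test U (db k f) :=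
  ⟨contDiff_db k h.1, h.2.1.of_isClosed_subset (isClosed_tsupport _) (tsupport_db k f),
    (tsupport_db k f).trans h.2.2⟩

lemma Test.dz (k : Fin 2) (h : Test U f) : Test U (dz k f) :=
  ⟨contDiff_dz k h.1, h.2.1.of_isClosed_subset (isClosed_tsupport _) (tsupport_dz k f),
    (tsupport_dz k f).trans h.2.2⟩

lemma Test.mono {U' : Set V} (h : Test U f) (hU : U ⊆ U') : Test U' f :=
  ⟨h.1, h.2.1, h.2.2.trans hU⟩

lemma Test.zero (U : Set V) : Test U (0 : V → ℂ) :=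
  ⟨contDiff_const, HasCompactSupport.zero, by simp [tsupport]⟩

lemma Test.add (hf : Test U f) (hg : Test U g) : Test U fun x => f x + g x :=
  ⟨hf.1.add hg.1, hf.2.1.add hg.2.1,
    (tsupport_add f g).trans (union_subset hf.2.2 hg.2.2)⟩

lemma Test.conj (hf : Test U f) : Test U fun x => conj (f x) := by
  have : tsupport (fun x => conj (f x)) = tsupport f := by
    simp only [tsupport]; congr 1; ext x; simp
  exact ⟨contDiff_conj hf.1, by simpa [HasCompactSupport, this] using hf.2.1, this ▸ hf.2.2⟩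

/-- A function smooth on `U` times a test function on `U` is a test function. -/
lemma Test.mul_left (hU : IsOpen U) (hf : ContDiffOn ℝ ∞ f U) (hg : Test U g) :
    Test U fun x => f x * g x := by
  have hs : tsupport (fun x => f x * g x) ⊆ tsupport g := tsupport_mul_subset_right
  refine ⟨contDiff_iff_contDiffAt.2 fun z => ?_,
    hg.2.1.of_isClosed_subset (isClosed_tsupport _) hs, hs.trans hg.2.2⟩
  by_cases hz : z ∈ tsupport g
  · exact (hf.contDiffAt (hU.mem_nhds (hg.2.2 hz))).mul hg.1.contDiffAt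
  · refine (contDiffAt_const (c := (0 : ℂ))).congr_of_eventuallyEq ?_
    filter_upwards [notMem_tsupport_iff_eventuallyEq.1 hz] with x hx
    simp [hx]

lemma Test.mul_right (hU : IsOpen U) (hf : Test U f) (hg : ContDiffOn ℝ ∞ g U) :
    Test U fun x => f x * g x := by
  simpa only [mul_comm] using Test.mul_left hU hg hf

lemma Test.const_mul (c : ℂ) (hf : Test U f) : Test U fun x => c * f x := by
  have h := Test.mul_left isOpen_univ (contDiffOn_const (c := c)) (hf.mono (subset_univ _))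
  exact ⟨h.1, h.2.1, (tsupport_mul_subset_right).trans hf.2.2⟩

lemma Test.integrable (hf : Test U f) : Integrable f :=
  hf.1.continuous.integrable_of_hasCompactSupport hf.2.1

lemma Test.memLp (hf : Test U f) (p : ℝ≥0∞) : MemLp f p volume :=
  hf.1.continuous.memLp_of_hasCompactSupport hf.2.1

lemma Test.eq_zero (hf : Test U f) (hz : z ∉ U) : f z = 0 :=
  image_eq_zero_of_notMem_tsupport fun h => hz (hf.2.2 h)

lemma integral_fderiv_test (hf : Test U f) (v : V) : ∫ z, fderiv ℝ f z v = 0 := by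
  have hi : Integrable fun z => fderiv ℝ f z v :=
    ((contDiffOn_univ.1
      (contDiffOn_fderiv_apply isOpen_univ hf.1.contDiffOn v)).continuous).integrable_of_hasCompactSupport
      (hf.2.1.fderiv_apply (𝕜 := ℝ) v)
  have := integral_mul_fderiv_eq_neg_fderiv_mul_of_integrable (μ := (volume : Measure V))
    (f := fun _ : V => (1 : ℂ)) (g := f) (v := v) (by simp) (by simpa using hi)
    (by simpa using hf.integrable) (fun _ _ => differentiableAt_const _)
    (fun z _ => diffAt_of_smooth hf.1 z)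
  simpa using this

lemma integrable_fderiv_test (hf : Test U f) (v : V) : Integrable fun z => fderiv ℝ f z v :=
  ((contDiffOn_univ.1
    (contDiffOn_fderiv_apply isOpen_univ hf.1.contDiffOn v)).continuous).integrable_of_hasCompactSupport
    (hf.2.1.fderiv_apply (𝕜 := ℝ) v)

lemma integral_db (k : Fin 2) (hf : Test U f) : ∫ z, db k f z = 0 := by
  simp only [db]
  rw [integral_div, integral_add (integrable_fderiv_test hf _)
    ((integrable_fderiv_test hf _).const_mul _), integral_const_mul, integral_fderiv_test hf,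
    integral_fderiv_test hf]; simp

lemma integral_dz (k : Fin 2) (hf : Test U f) : ∫ z, dz k f z = 0 := by
  simp only [dz]
  rw [integral_div, integral_sub (integrable_fderiv_test hf _)
    ((integrable_fderiv_test hf _).const_mul _), integral_const_mul, integral_fderiv_test hf,
    integral_fderiv_test hf]; simp

/-- Integration by parts against a test function. -/
lemma ibp_db (k : Fin 2) (hU : IsOpen U) (hf : ContDiffOn ℝ ∞ f U) (hg : Test U g) :
    ∫ z, f z * db k g z = -∫ z, db k f z * g z := by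
  have h0 := integral_db k (Test.mul_left hU hf hg)
  have h1 : ∀ z, db k (fun x => f x * g x) z = db k f z * g z + f z * db k g z := by
    intro z
    by_cases hz : z ∈ tsupport g
    · exact db_mul k (diffAt_of_smoothOn hU hf (hg.2.2 hz)) (diffAt_of_smooth hg.1 z)
    · rw [db_eq_zero_of_notMem k fun h => hz (tsupport_mul_subset_right h),
        db_eq_zero_of_notMem k hz, image_eq_zero_of_notMem_tsupport hz]; simp
  simp only [h1] at h0
  rw [integral_add (Test.mul_left hU (contDiffOn_db k hU hf) hg).integrable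
    (Test.mul_left hU hf (hg.db k)).integrable] at h0
  linear_combination h0

lemma ibp_dz (k : Fin 2) (hU : IsOpen U) (hf : ContDiffOn ℝ ∞ f U) (hg : Test U g) :
    ∫ z, f z * dz k g z = -∫ z, dz k f z * g z := by
  have h0 := integral_dz k (Test.mul_left hU hf hg)
  have h1 : ∀ z, dz k (fun x => f x * g x) z = dz k f z * g z + f z * dz k g z := by
    intro z
    by_cases hz : z ∈ tsupport g
    · exact dz_mul k (diffAt_of_smoothOn hU hf (hg.2.2 hz)) (diffAt_of_smooth hg.1 z)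
    · rw [dz_eq_zero_of_notMem k fun h => hz (tsupport_mul_subset_right h),
        dz_eq_zero_of_notMem k hz, image_eq_zero_of_notMem_tsupport hz]; simp
  simp only [h1] at h0
  rw [integral_add (Test.mul_left hU (contDiffOn_dz k hU hf) hg).integrable
    (Test.mul_left hU hf (hg.dz k)).integrable] at h0
  linear_combination h0

/-- A holomorphic function is killed by `db`. -/
lemma db_hol (k : Fin 2) (hf : DifferentiableAt ℂ f z) : db k f z = 0 := by
  have h := (hf.hasFDerivAt.restrictScalars ℝ).fderiv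
  simp only [db, h, ContinuousLinearMap.coe_restrictScalars', map_smul, smul_eq_mul]
  rw [← mul_assoc, I_mul_I]; ring

lemma db_hol_on (k : Fin 2) (hU : IsOpen U) (hf : DifferentiableOn ℂ f U) (hz : z ∈ U) :
    db k f z = 0 :=
  db_hol k (hf.differentiableAt (hU.mem_nhds hz))

lemma vec_eq (v : V) : v = v.1.re • e 0 + v.1.im • (I • e 0) + v.2.re • e 1 + v.2.im • (I • e 1) := by
  ext <;> simp

/-- The real derivative in terms of the Wirtinger derivatives. -/
lemma fderiv_eq (f : V → ℂ) (z v : V) :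
    fderiv ℝ f z v = dz 0 f z * v.1 + dz 1 f z * v.2 + db 0 f z * conj v.1 + db 1 f z * conj v.2 := by
  conv_lhs => rw [vec_eq v]
  simp only [map_add, map_smul, dz, db, real_smul]
  rw [← re_add_im v.1, ← re_add_im v.2]
  simp only [map_add, map_mul, conj_ofReal, conj_I, add_re, add_im, ofReal_re, ofReal_im, mul_re,
    mul_im, I_re, I_im]
  simp only [mul_zero, mul_one, sub_zero, add_zero, zero_add]
  linear_combination (fderiv ℝ f z (I • e 0) * v.1.im + fderiv ℝ f z (I • e 1) * v.2.im) * I_mul_I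

/-- The Cauchy-Riemann criterion. -/
lemma cr (hf : DifferentiableAt ℝ f z) (h0 : db 0 f z = 0) (h1 : db 1 f z = 0) :
    DifferentiableAt ℂ f z := by
  let L : V →L[ℂ] ℂ := dz 0 f z • ContinuousLinearMap.fst ℂ ℂ ℂ +
    dz 1 f z • ContinuousLinearMap.snd ℂ ℂ ℂ
  refine (hasFDerivAt_of_restrictScalars ℝ (f' := L) hf.hasFDerivAt ?_).differentiableAt
  refine ContinuousLinearMap.ext fun v => ?_
  rw [fderiv_eq, h0, h1]
  simp [L]

lemma cr_on (hf : ∀ z ∈ U, DifferentiableAt ℝ f z)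
    (h : ∀ z ∈ U, ∀ k, db k f z = 0) : DifferentiableOn ℂ f U :=
  fun z hz => (cr (hf z hz) (h z hz 0) (h z hz 1)).differentiableWithinAt

/-- Chain rule for a holomorphic change of variables. -/
lemma db_comp (k : Fin 2) {T : V → V} (hT : DifferentiableAt ℂ T z)
    (hf : DifferentiableAt ℝ f (T z)) :
    db k (fun x => f (T x)) z = db 0 f (T z) * conj (fderiv ℂ T z (e k)).1 +
      db 1 f (T z) * conj (fderiv ℂ T z (e k)).2 := by
  have h := (hf.hasFDerivAt.comp z (hT.hasFDerivAt.restrictScalars ℝ)).fderiv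
  have h' : fderiv ℝ (fun x => f (T x)) z = _ := h
  rw [db, h']
  simp only [ContinuousLinearMap.comp_apply, ContinuousLinearMap.coe_restrictScalars', map_smul]
  rw [fderiv_eq, fderiv_eq]
  simp only [Prod.smul_fst, Prod.smul_snd, smul_eq_mul, map_mul, conj_I]
  linear_combination
    ((dz 0 f (T z) * (fderiv ℂ T z (e k)).1 + dz 1 f (T z) * (fderiv ℂ T z (e k)).2 -
      db 0 f (T z) * conj (fderiv ℂ T z (e k)).1 -
      db 1 f (T z) * conj (fderiv ℂ T z (e k)).2) / 2) * I_mul_I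

/-- Division by a holomorphic function commutes with `db`. -/
lemma db_div (k : Fin 2) (hf : DifferentiableAt ℝ f z) (hg : DifferentiableAt ℂ g z)
    (h0 : g z ≠ 0) : db k (fun x => f x / g x) z = db k f z / g z := by
  have hi : DifferentiableAt ℂ (fun x => (g x)⁻¹) z := hg.inv h0
  simp only [div_eq_mul_inv]
  rw [db_mul k hf (hi.restrictScalars ℝ), db_hol k hi]; ring

lemma fderiv_fderiv_apply {F : Type*} [NormedAddCommGroup F] [NormedSpace ℝ F] {f : V → F}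
    (hf : ContDiffAt ℝ ∞ f z) (v w : V) :
    fderiv ℝ (fun x => fderiv ℝ f x v) z w = fderiv ℝ (fderiv ℝ f) z w v := by
  have h : DifferentiableAt ℝ (fderiv ℝ f) z :=
    (hf.fderiv_right (m := ∞) (by simp)).differentiableAt (by simp)
  rw [fderiv_clm_apply h (differentiableAt_const v)]; simp

lemma fderiv_symm {F : Type*} [NormedAddCommGroup F] [NormedSpace ℝ F] {f : V → F}
    (hf : ContDiffAt ℝ ∞ f z) (v w : V) :
    fderiv ℝ (fderiv ℝ f) z v w = fderiv ℝ (fderiv ℝ f) z w v :=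
  (hf.isSymmSndFDerivAt (by simp; exact WithTop.coe_le_coe.2 le_top)).eq v w

lemma diffAt_fderiv_apply (hf : ContDiffAt ℝ ∞ f z) (v : V) :
    DifferentiableAt ℝ (fun x => fderiv ℝ f x v) z :=
  ((hf.fderiv_right (m := ∞) (by simp)).differentiableAt (by simp)).clm_apply
    (differentiableAt_const v)

lemma fderiv_db (k : Fin 2) (hf : ContDiffAt ℝ ∞ f z) (w : V) :
    fderiv ℝ (db k f) z w =
      (fderiv ℝ (fderiv ℝ f) z w (e k) + I * fderiv ℝ (fderiv ℝ f) z w (I • e k)) / 2 := by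
  have h := (((diffAt_fderiv_apply hf (e k)).hasFDerivAt.add
    ((diffAt_fderiv_apply hf (I • e k)).hasFDerivAt.const_mul I)).mul_const (2⁻¹ : ℂ)).fderiv
  have e1 : db k f = fun y => ((fun x => fderiv ℝ f x (e k)) +
      fun y => I * fderiv ℝ f y (I • e k)) y * 2⁻¹ := by
    ext y; simp [db, div_eq_mul_inv]
  rw [e1, h]
  simp only [_root_.smul_apply, _root_.add_apply, smul_eq_mul, fderiv_fderiv_apply hf]; ring

lemma fderiv_dz (k : Fin 2) (hf : ContDiffAt ℝ ∞ f z) (w : V) :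
    fderiv ℝ (dz k f) z w =
      (fderiv ℝ (fderiv ℝ f) z w (e k) - I * fderiv ℝ (fderiv ℝ f) z w (I • e k)) / 2 := by
  have h := (((diffAt_fderiv_apply hf (e k)).hasFDerivAt.sub
    ((diffAt_fderiv_apply hf (I • e k)).hasFDerivAt.const_mul I)).mul_const (2⁻¹ : ℂ)).fderiv
  have e1 : dz k f = fun y => ((fun x => fderiv ℝ f x (e k)) -
      fun y => I * fderiv ℝ f y (I • e k)) y * 2⁻¹ := by
    ext y; simp [dz, div_eq_mul_inv]
  rw [e1, h]
  simp only [_root_.smul_apply, _root_.sub_apply, smul_eq_mul, fderiv_fderiv_apply hf]; ring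

lemma db_db_comm (j k : Fin 2) (hf : ContDiffAt ℝ ∞ f z) :
    db j (db k f) z = db k (db j f) z := by
  rw [db, db, fderiv_db k hf, fderiv_db k hf, fderiv_db j hf, fderiv_db j hf,
    fderiv_symm hf (e j) (e k), fderiv_symm hf (e j) (I • e k), fderiv_symm hf (I • e j) (e k),
    fderiv_symm hf (I • e j) (I • e k)]; ring

lemma dz_db_comm (j k : Fin 2) (hf : ContDiffAt ℝ ∞ f z) :
    dz j (db k f) z = db k (dz j f) z := by
  rw [dz, db, fderiv_db k hf, fderiv_db k hf, fderiv_dz j hf, fderiv_dz j hf,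
    fderiv_symm hf (e j) (e k), fderiv_symm hf (e j) (I • e k), fderiv_symm hf (I • e j) (e k),
    fderiv_symm hf (I • e j) (I • e k)]; ring

lemma fderiv2_cx {ψ : V → ℝ} (h : ContDiffAt ℝ ∞ ψ z) (v w : V) :
    fderiv ℝ (fderiv ℝ (cx ψ)) z v w = (fderiv ℝ (fderiv ℝ ψ) z v w : ℂ) := by
  have hc : ContDiffAt ℝ ∞ (cx ψ) z := ofRealCLM.contDiff.contDiffAt.comp z h
  rw [← fderiv_fderiv_apply hc, ← fderiv_fderiv_apply h, ← fderiv_cx
    (((h.fderiv_right (m := ∞) (by simp)).differentiableAt (by simp)).clm_apply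
      (differentiableAt_const w))]
  congr 1
  refine Filter.EventuallyEq.fderiv_eq ?_
  filter_upwards [(h.of_le (m := 1) (by exact_mod_cast le_top)).eventually (by simp)] with x hx
  exact fderiv_cx (hx.differentiableAt one_ne_zero) w

/-- The Levi form in terms of the Wirtinger derivatives. -/
lemma lev_eq {ψ : V → ℝ} (h : ContDiffAt ℝ ∞ ψ z) (ξ : V) :
    (lev ψ z ξ : ℂ) = db 0 (dz 0 (cx ψ)) z * ξ.1 * conj ξ.1 + db 1 (dz 0 (cx ψ)) z * ξ.1 * conj ξ.2 +
      db 0 (dz 1 (cx ψ)) z * ξ.2 * conj ξ.1 + db 1 (dz 1 (cx ψ)) z * ξ.2 * conj ξ.2 := by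
  have hc : ContDiffAt ℝ ∞ (cx ψ) z := ofRealCLM.contDiff.contDiffAt.comp z h
  have hI : I • ξ = (-ξ.1.im) • e 0 + ξ.1.re • (I • e 0) + (-ξ.2.im) • e 1 + ξ.2.re • (I • e 1) := by
    rw [vec_eq (I • ξ)]; simp
  simp only [db, fderiv_dz _ hc, fderiv2_cx h, lev]
  rw [hI]
  conv_lhs => rw [vec_eq ξ]
  simp only [map_add, map_smul, _root_.add_apply, _root_.smul_apply, smul_eq_mul]
  rw [fderiv_symm h (I • e 0) (e 0), fderiv_symm h (e 1) (e 0), fderiv_symm h (I • e 1) (e 0),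
    fderiv_symm h (e 1) (I • e 0), fderiv_symm h (I • e 1) (I • e 0),
    fderiv_symm h (I • e 1) (e 1)]
  generalize fderiv ℝ (fderiv ℝ ψ) z = Q
  simp [Complex.ext_iff]
  constructor <;> ring

lemma Neg.mono {ψ : V → ℝ} {c c' : ℝ} {U' : Set V} (h : Neg ψ c U) (hc : c' ≤ c) (hU : U' ⊆ U) :
    Neg ψ c' U' := fun z hz ξ => (h z (hU hz) ξ).trans (by
  have : 0 ≤ ‖ξ.1‖ ^ 2 + ‖ξ.2‖ ^ 2 := by positivity
  nlinarith)

lemma lev_congr {ψ ψ' : V → ℝ} (h : ψ =ᶠ[𝓝 z] ψ') (ξ : V) : lev ψ z ξ = lev ψ' z ξ := by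
  simp only [lev, h.fderiv.fderiv_eq]

lemma Neg.congr {ψ ψ' : V → ℝ} {c : ℝ} (hU : IsOpen U) (h : Neg ψ c U) (e : EqOn ψ' ψ U) :
    Neg ψ' c U := fun z hz ξ => by
  rw [lev_congr (e.eventuallyEq_of_mem (hU.mem_nhds hz))]; exact h z hz ξ

/-- An open set with compact closure between a compact set and an open set. -/
lemma exists_between {K : Set V} (hK : IsCompact K) (hU : IsOpen U) (hKU : K ⊆ U) :
    ∃ W : Set V, IsOpen W ∧ K ⊆ W ∧ closure W ⊆ U ∧ IsCompact (closure W) :=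
  exists_open_between_and_isCompact_closure hK hU hKU

/-- A smooth cutoff. -/
lemma exists_cutoff {K : Set V} (hK : IsCompact K) (hU : IsOpen U) (hKU : K ⊆ U) :
    ∃ σ : V → ℝ, ContDiff ℝ ∞ σ ∧ HasCompactSupport σ ∧ tsupport σ ⊆ U ∧
      (∀ z, 0 ≤ σ z ∧ σ z ≤ 1) ∧ ∀ z ∈ K, σ z = 1 := by
  obtain ⟨W, hW, hKW, hWU, hc⟩ := exists_between hK hU hKU
  obtain ⟨σ, h0, h1, h01⟩ := exists_contMDiffMap_zero_one_of_isClosed (modelWithCornersSelf ℝ V)
    (n := ⊤) hW.isClosed_compl hK.isClosed (disjoint_compl_left_iff_subset.2 hKW)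
  have hs : tsupport (σ : V → ℝ) ⊆ closure W :=
    closure_mono fun z hz => by by_contra h; exact hz (h0 h)
  exact ⟨σ, σ.contMDiff.contDiff, hc.of_isClosed_subset (isClosed_tsupport _) hs, hs.trans hWU,
    fun z => h01 z, fun z hz => h1 hz⟩

lemma test_cx {σ : V → ℝ} (h1 : ContDiff ℝ ∞ σ) (h2 : HasCompactSupport σ) (h3 : tsupport σ ⊆ U) :
    Test U (cx σ) := by
  have : tsupport (cx σ) = tsupport σ := by
    simp only [tsupport]; congr 1; ext x; simp [cx]
  exact ⟨contDiff_cx h1, by simpa [HasCompactSupport, this] using h2, this ▸ h3⟩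

/-- A function smooth on `U` agrees on a compact part of `U` with a global smooth function. -/
lemma exists_ext {K : Set V} (hK : IsCompact K) (hU : IsOpen U) (hKU : K ⊆ U) {ψ : V → ℝ}
    (hψ : ContDiffOn ℝ ∞ ψ U) :
    ∃ ψ' : V → ℝ, ContDiff ℝ ∞ ψ' ∧ HasCompactSupport ψ' ∧ EqOn ψ' ψ K := by
  obtain ⟨σ, h1, h2, h3, -, h5⟩ := exists_cutoff hK hU hKU
  refine ⟨fun z => ψ z * σ z, contDiff_iff_contDiffAt.2 fun z => ?_, h2.mul_left,
    fun z hz => by simp [h5 z hz]⟩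
  by_cases hz : z ∈ tsupport σ
  · exact (hψ.contDiffAt (hU.mem_nhds (h3 hz))).mul h1.contDiffAt
  · refine (contDiffAt_const (c := (0 : ℝ))).congr_of_eventuallyEq ?_
    filter_upwards [notMem_tsupport_iff_eventuallyEq.1 hz] with x hx
    simp [hx]

/-- A test function is bounded. -/
lemma Test.bound (hf : Test U f) : ∃ M : ℝ, 0 ≤ M ∧ ∀ z, ‖f z‖ ≤ M := by
  obtain ⟨M, hM⟩ := hf.1.continuous.bounded_above_of_compact_support hf.2.1
  exact ⟨M, (norm_nonneg _).trans (hM 0), hM⟩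

end Pool.Agent.MP54.PDE

end
end MrgPart4

-- ======== part 5: formerly Pool.Agent.MP_54e5d7_al.atc.pde.Mv52
section MrgPart5

/-! A smooth kernel that reproduces holomorphic functions. -/

open Set MeasureTheory Complex Filter Metric
open scoped ContDiff ENNReal Topology Real

noncomputable section

namespace Pool.Agent.MP54.PDE.Mv52

def th (δ : ℝ) (y : V) : ℝ := expNegInvGlue (δ ^ 2 - (‖y.1‖ ^ 2 + ‖y.2‖ ^ 2))

lemma th_smooth (δ : ℝ) : ContDiff ℝ ∞ (th δ) :=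
  expNegInvGlue.contDiff.comp (contDiff_const.sub
    (((contDiff_norm_sq ℂ).comp contDiff_fst).add ((contDiff_norm_sq ℂ).comp contDiff_snd)))

lemma th_supp {δ : ℝ} (hδ : 0 < δ) : tsupport (th δ) ⊆ closedBall 0 δ := by
  refine closure_minimal (fun y hy => ?_) isClosed_closedBall
  have h : 0 < δ ^ 2 - (‖y.1‖ ^ 2 + ‖y.2‖ ^ 2) := by
    by_contra h; exact hy (expNegInvGlue.zero_of_nonpos (not_lt.1 h))
  rw [mem_closedBall_zero_iff, Prod.norm_def]
  exact max_le (abs_le_of_sq_le_sq' (by nlinarith [sq_nonneg ‖y.2‖]) hδ.le).2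
    (abs_le_of_sq_le_sq' (by nlinarith [sq_nonneg ‖y.1‖]) hδ.le).2

lemma th_cpt {δ : ℝ} (hδ : 0 < δ) : HasCompactSupport (th δ) :=
  (isCompact_closedBall 0 δ).of_isClosed_subset (isClosed_tsupport _) (th_supp hδ)

lemma th_pos {δ : ℝ} (hδ : 0 < δ) : 0 < ∫ y, th δ y :=
  (th_smooth δ).continuous.integral_pos_of_hasCompactSupport_nonneg_nonzero (th_cpt hδ)
    (fun _ => expNegInvGlue.nonneg _) (x := 0)
    (expNegInvGlue.pos_of_pos (by simpa using pow_pos hδ 2)).ne'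

lemma rot (u : Circle) (F : V → ℂ) : ∫ y, F ((u : ℂ) • y) = ∫ y, F y := by
  have h1 : MeasurePreserving (rotation u) (volume : Measure ℂ) volume :=
    (rotation u).measurePreserving
  have h2 := h1.prod h1
  let E : V ≃ᵐ V := (rotation u).toHomeomorph.toMeasurableEquiv.prodCongr
    (rotation u).toHomeomorph.toMeasurableEquiv
  exact MeasurePreserving.integral_comp' (f := E) h2 F

lemma key {δ : ℝ} (hδ : 0 < δ) {Ω : Set V} {h : V → ℂ} (hΩ : IsOpen Ω)
    (hh : DifferentiableOn ℂ h Ω) {x : V} (hx : closedBall x δ ⊆ Ω) :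
    ∫ y, (th δ y : ℂ) * h (x - y) = (∫ y, th δ y : ℝ) * h x := by
  have hmem : ∀ s : ℂ, ‖s‖ ≤ 1 → ∀ y ∈ closedBall (0 : V) δ, x - s • y ∈ Ω := by
    intro s hs y hy
    refine hx ?_
    rw [mem_closedBall_zero_iff] at hy
    rw [mem_closedBall_iff_norm, sub_sub_cancel_left, norm_neg, norm_smul]
    nlinarith [norm_nonneg s, norm_nonneg y]
  have h1 : ∀ t : ℝ, ∫ y, (th δ y : ℂ) * h (x - circleMap 0 1 t • y) =
      ∫ y, (th δ y : ℂ) * h (x - y) := by
    intro t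
    rw [← rot (Circle.exp t) fun y => (th δ y : ℂ) * h (x - y)]
    congr 1; ext y
    simp [th, circleMap]
  have hz : ∀ y, y ∉ closedBall (0 : V) δ → th δ y = 0 := fun y hy =>
    image_eq_zero_of_notMem_tsupport fun h => hy (th_supp hδ h)
  have h2 : ∀ y, ∫ t in (0 : ℝ)..2 * π, (th δ y : ℂ) * h (x - circleMap 0 1 t • y) =
      (th δ y : ℂ) * ((2 * π : ℝ) * h x) := by
    intro y
    by_cases hy : y ∈ closedBall (0 : V) δ
    · rw [intervalIntegral.integral_const_mul]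
      congr 1
      have hd : ∀ s ∈ closedBall (0 : ℂ) |1|, DifferentiableAt ℂ (fun s : ℂ => h (x - s • y)) s := by
        intro s hs
        refine (hh.differentiableAt (hΩ.mem_nhds (hmem s (by simpa using hs) y hy))).comp s ?_
        fun_prop
      have := circleAverage_of_differentiable_on_off_countable (c := 0) (R := 1) countable_empty
        (fun s hs => (hd s hs).continuousAt.continuousWithinAt)
        (fun s hs => hd s (ball_subset_closedBall hs.1))
      rw [Real.circleAverage_def] at this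
      simp only [zero_smul, sub_zero] at this
      rw [← this, real_smul, ← mul_assoc, ← ofReal_mul, mul_inv_cancel₀ (by positivity)]
      simp
    · simp [hz y hy]
  have h3 : Integrable (Function.uncurry fun (t : ℝ) (y : V) =>
      (th δ y : ℂ) * h (x - circleMap 0 1 t • y))
      ((volume.restrict (uIoc 0 (2 * π))).prod volume) := by
    rw [Measure.restrict_prod_eq_prod_univ]
    have hc : ContinuousOn (Function.uncurry fun (t : ℝ) (y : V) =>
        (th δ y : ℂ) * h (x - circleMap 0 1 t • y)) (uIcc 0 (2 * π) ×ˢ closedBall 0 δ) := by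
      refine ContinuousOn.mul ?_ (hh.continuousOn.comp ?_ fun p hp => hmem _ (by simp) _ hp.2)
      · exact (continuous_ofReal.comp ((th_smooth δ).continuous.comp continuous_snd)).continuousOn
      · exact (continuous_const.sub (((continuous_circleMap 0 1).comp continuous_fst).smul
          continuous_snd)).continuousOn
    have hi := hc.integrableOn_compact (μ := (volume : Measure ℝ).prod (volume : Measure V))
      (isCompact_uIcc.prod (isCompact_closedBall _ _))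
    refine hi.of_forall_sdiff_eq_zero (measurableSet_uIoc.prod MeasurableSet.univ) ?_
    rintro ⟨t, y⟩ ⟨h4, h5⟩
    have : y ∉ closedBall (0 : V) δ := fun h6 => h5 ⟨uIoc_subset_uIcc h4.1, h6⟩
    simp [Function.uncurry, hz y this]
  have h4 := intervalIntegral_integral_swap h3
  simp only [h1, h2, intervalIntegral.integral_const, sub_zero, integral_mul_const,
    integral_complex_ofReal, real_smul] at h4
  have hpi : ((2 * π : ℝ) : ℂ) ≠ 0 := ofReal_ne_zero.2 (by positivity)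
  apply mul_left_cancel₀ hpi
  rw [h4]; ring

theorem mv : MVStmt := by
  intro δ hδ
  have hs : tsupport (fun y => (∫ y, th δ y)⁻¹ * th δ y) ⊆ tsupport (th δ) :=
    tsupport_mul_subset_right
  refine ⟨fun y => (∫ y, th δ y)⁻¹ * th δ y, contDiff_const.mul (th_smooth δ),
    (th_cpt hδ).mul_left, hs.trans (th_supp hδ), fun Ω h hΩ hh x hx => ?_⟩
  have h1 := integral_sub_left_eq_self
    (fun y => (((∫ y, th δ y)⁻¹ * th δ (x - y) : ℝ) : ℂ) * h y) (volume : Measure V) x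
  rw [conv, ← h1]
  simp only [sub_sub_cancel, ofReal_mul, mul_assoc]
  rw [integral_const_mul, key hδ hΩ hh hx, ← mul_assoc, ← ofReal_mul,
    inv_mul_cancel₀ (th_pos hδ).ne']
  simp

end Pool.Agent.MP54.PDE.Mv52

end
end MrgPart5

-- ======== part 6: formerly Pool.Agent.MP_54e5d7_al.atc.ker.BK
section MrgPart6

/-!
PROJECT ATC, block KER: the reproducing formula on the ball.
-/

set_option autoImplicit false

open scoped ComplexConjugate
open Set MeasureTheory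

namespace Pool.Agent.MP_54e5d7_al.Atc

/-- the kernel `(1 - ⟨w, z⟩) ^ (-t)`, holomorphic in `w` -/
noncomputable def bk (t : ℝ) (z w : C2) : ℂ := (-H (hat w) (hat z)) ^ (-(t : ℂ))

theorem BK.neg_H_hat (z w : C2) : -H (hat w) (hat z) = 1 - w.1 * conj z.1 - w.2 * conj z.2 := by
  simp [H, hat]
  ring

theorem re_H_hat {z w : C2} (_hz : z ∈ B) (hw : w ∈ B) :
    (1 - nsq z) / 2 < (-H (hat w) (hat z)).re := by
  have h : nsq w < 1 := hw
  simp only [nsq, Complex.sq_norm, Complex.normSq_apply] at h ⊢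
  rw [BK.neg_H_hat]
  simp only [Complex.sub_re, Complex.one_re, Complex.mul_re, Complex.conj_re, Complex.conj_im]
  nlinarith [sq_nonneg (w.1.re - z.1.re), sq_nonneg (w.1.im - z.1.im),
    sq_nonneg (w.2.re - z.2.re), sq_nonneg (w.2.im - z.2.im)]

theorem BK.B_pos {z : C2} (hz : z ∈ B) : 0 < 1 - nsq z := sub_pos.2 hz

theorem BK.re_H_pos {z w : C2} (hz : z ∈ B) (hw : w ∈ B) : 0 < (-H (hat w) (hat z)).re :=
  lt_trans (half_pos (BK.B_pos hz)) (re_H_hat hz hw)

theorem BK.H_slit {z w : C2} (hz : z ∈ B) (hw : w ∈ B) : -H (hat w) (hat z) ∈ Complex.slitPlane :=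
  Or.inl (BK.re_H_pos hz hw)

theorem bk_ne (t : ℝ) {z w : C2} (hz : z ∈ B) (hw : w ∈ B) : bk t z w ≠ 0 := fun h =>
  Complex.slitPlane_ne_zero (BK.H_slit hz hw) ((Complex.cpow_eq_zero_iff _ _).1 h).1

theorem continuousOn_bk (t : ℝ) :
    ContinuousOn (fun p : C2 × C2 => bk t p.1 p.2) (B ×ˢ B) := by
  refine ContinuousOn.cpow_const ?_ fun p hp => BK.H_slit hp.1 hp.2
  simp only [BK.neg_H_hat]
  fun_prop

theorem bk_hol (t : ℝ) {z : C2} (hz : z ∈ B) : DifferentiableOn ℂ (bk t z) B := by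
  refine DifferentiableOn.cpow_const ?_ fun w hw => BK.H_slit hz hw
  simp only [BK.neg_H_hat]
  fun_prop

theorem bk_conj (t : ℝ) {z w : C2} (hz : z ∈ B) (hw : w ∈ B) : conj (bk t z w) = bk t w z := by
  have h := Complex.conj_cpow (-H (hat w) (hat z)) (-(t : ℂ))
    (Complex.slitPlane_arg_ne_pi (BK.H_slit hz hw))
  rw [map_neg, map_neg, H_conj, Complex.conj_ofReal] at h
  exact h.symm

theorem bk_self (t : ℝ) {z : C2} (hz : z ∈ B) :
    bk t z z = (((1 - nsq z) ^ (-t) : ℝ) : ℂ) := by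
  rw [Complex.ofReal_cpow (BK.B_pos hz).le, bk, H_hat]
  push_cast
  rw [neg_sub]

theorem bk_zero (t : ℝ) (w : C2) : bk t 0 w = 1 := by
  simp [bk, BK.neg_H_hat]

theorem measurable_bk (t : ℝ) : Measurable fun p : C2 × C2 => bk t p.1 p.2 := by
  refine Measurable.pow_const ?_ _
  simp only [BK.neg_H_hat]
  exact Continuous.measurable (by fun_prop)

theorem norm_bk_eq (t : ℝ) (z w : C2) : ‖bk t z w‖ = ‖H (hat z) (hat w)‖ ^ (-t) := by
  rw [bk, ← Complex.ofReal_neg, Complex.norm_cpow_real, norm_neg, ← H_conj, Complex.norm_conj]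

theorem norm_bk' (t : ℝ) {z w : C2} (hz : z ∈ B) (hw : w ∈ B) :
    ‖bk t z w‖ * (1 - nsq z) ^ (t / 2) * (1 - nsq w) ^ (t / 2) = ch2 z w ^ (-(t / 2)) := by
  have h1 := BK.B_pos hz
  have h2 := BK.B_pos hw
  rw [norm_bk_eq, ch2, Real.div_rpow (by positivity) (by positivity), ← Real.rpow_natCast,
    ← Real.rpow_mul (norm_nonneg _), Real.rpow_neg (mul_pos h1 h2).le, div_inv_eq_mul,
    Real.mul_rpow h1.le h2.le, mul_assoc]
  congr 2
  push_cast
  ring

theorem norm_bk (t : ℝ) {z w : C2} (hz : z ∈ B) (hw : w ∈ B) :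
    ‖bk t z w‖ ^ 2 * (1 - nsq z) ^ t * (1 - nsq w) ^ t = ch2 z w ^ (-t) := by
  have h := norm_bk' (2 * t) hz hw
  rw [show 2 * t / 2 = t by ring] at h
  rw [← h, norm_bk_eq, norm_bk_eq, ← Real.rpow_natCast, ← Real.rpow_mul (norm_nonneg _)]
  congr 3
  push_cast
  ring

theorem norm_bk_le {t : ℝ} (ht : 0 ≤ t) {z w : C2} (hz : z ∈ B) (hw : w ∈ B) :
    ‖bk t z w‖ ≤ ((1 - nsq z) / 2) ^ (-t) := by
  rw [bk, ← Complex.ofReal_neg, Complex.norm_cpow_real]
  exact Real.rpow_le_rpow_of_nonpos (half_pos (BK.B_pos hz))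
    ((re_H_hat hz hw).le.trans (Complex.re_le_norm _)) (neg_nonpos.2 ht)

theorem BK.H_act (g : SU21) {z w : C2} (hz : z ∈ B) (hw : w ∈ B) :
    H (hat (act g w)) (hat (act g z)) * (jf g w * conj (jf g z)) = H (hat w) (hat z) := by
  rw [← H_mv g (hat w) (hat z), mv_hat g hz, mv_hat g hw, H_smul_left, H_smul_right]
  ring

theorem bk_pow {n : ℕ} (hn : 0 < n) (s : ℕ) (z w : C2) :
    bk ((s : ℝ) / n) z w ^ n = ((-H (hat w) (hat z)) ^ s)⁻¹ := by
  have h : (n : ℂ) ≠ 0 := Nat.cast_ne_zero.2 hn.ne'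
  rw [bk, ← Complex.cpow_mul_nat, ← Complex.cpow_natCast, ← Complex.cpow_neg]
  congr 1
  push_cast
  field_simp

/-- covariance -/
theorem bk_cov {n : ℕ} {U : Type} [Group U] (C : Cover n U) (hn : 0 < n) (s : ℕ) (a : U)
    {z w : C2} (hz : z ∈ B) (hw : w ∈ B) :
    bk ((s : ℝ) / n) (act (C.p a) z) (act (C.p a) w) =
      bk ((s : ℝ) / n) z w * C.φ a w ^ s * conj (C.φ a z) ^ s := by
  have hφ := C.φ_ne_zero hn a hz
  refine root_unique hn (convex_Bl 1).isPreconnected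
    (f := fun w => bk ((s : ℝ) / n) (act (C.p a) z) (act (C.p a) w))
    (g := fun w => bk ((s : ℝ) / n) z w * C.φ a w ^ s * conj (C.φ a z) ^ s)
    ((bk_hol _ (act_mem _ hz)).continuousOn.comp (continuousOn_act _) fun _ h => act_mem _ h)
    (((bk_hol _ hz).continuousOn.mul ((C.hol a).continuousOn.pow s)).mul continuousOn_const)
    (fun u hu => ?_) (fun u hu => ?_) hz ?_ w hw
  · have h1 := jf_ne_zero (C.p a) hz
    have h2 := jf_ne_zero (C.p a) hu
    have h3 : conj (jf (C.p a) z) ≠ 0 := (map_ne_zero _).2 h1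
    simp only [mul_pow]
    rw [bk_pow hn, bk_pow hn, ← pow_mul, ← pow_mul, mul_comm s n, pow_mul, pow_mul, ← map_pow,
      C.pow a u hu, C.pow a z hz, ← BK.H_act (C.p a) hz hu, ← neg_mul, mul_pow, mul_pow]
    field_simp
  · exact mul_ne_zero (mul_ne_zero (bk_ne _ hz hu) (pow_ne_zero _ (C.φ_ne_zero hn a hu)))
      (pow_ne_zero _ ((map_ne_zero _).2 hφ))
  · have h1 := BK.B_pos hz
    have h2 : 0 < ‖jf (C.p a) z‖ := norm_pos_iff.2 (jf_ne_zero _ hz)
    show bk _ _ _ = bk _ _ _ * _ * _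
    rw [bk_self _ hz, bk_self _ (act_mem _ hz), mul_assoc, ← mul_pow, Complex.mul_conj,
      Complex.normSq_eq_norm_sq, C.norm_φ hn a hz, one_sub_nsq_act _ hz, ← Complex.ofReal_pow,
      ← Complex.ofReal_mul, Real.div_rpow h1.le (by positivity), Real.rpow_neg (by positivity) (_ / _),
      Real.rpow_neg (by positivity) (_ / _), div_inv_eq_mul, ← pow_mul, ← Real.rpow_natCast,
      ← Real.rpow_natCast, ← Real.rpow_mul h2.le, ← Real.rpow_mul h2.le]
    congr 3
    push_cast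
    ring

theorem BK.ae_mem_B : ∀ᵐ z ∂mu, z ∈ B := mem_ae_iff.2 mu_compl_B

instance BK.sfinite_mu : SFinite mu := by
  unfold mu
  infer_instance

theorem BK.exists_rot (θ : ℝ) : ∃ g : SU21, ∀ w : C2, act g w = circleMap 0 1 θ • w := by
  obtain ⟨u, hu, h3⟩ : ∃ u : ℂ, u * conj u = 1 ∧ u ^ 3 = circleMap 0 1 θ := by
    refine ⟨Complex.exp (((θ / 3 : ℝ) : ℂ) * Complex.I), ?_, ?_⟩
    · rw [Complex.mul_conj, Complex.normSq_eq_norm_sq, Complex.norm_exp_ofReal_mul_I]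
      simp
    · rw [← Complex.exp_nat_mul, circleMap]
      simp only [zero_add, Complex.ofReal_one, one_mul]
      congr 1
      push_cast
      ring
  have hc : conj u ^ 2 ≠ 0 := pow_ne_zero _ fun h => by simp [h] at hu
  refine ⟨⟨⟨Matrix.diagonal ![u, u, conj u ^ 2], ?_⟩, fun v w => ?_⟩, fun w => ?_⟩
  · rw [Matrix.det_diagonal, Fin.prod_univ_three]
    simp only [Matrix.cons_val_zero, Matrix.cons_val_one, Matrix.cons_val]
    linear_combination (u * conj u + 1) * hu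
  · simp only [H, Matrix.mulVec_diagonal, Matrix.cons_val_zero, Matrix.cons_val_one,
      Matrix.cons_val, map_mul, map_pow, Complex.conj_conj]
    linear_combination (v 0 * conj (w 0) + v 1 * conj (w 1) -
      (u * conj u + 1) * (v 2 * conj (w 2))) * hu
  · rw [← h3]
    ext
    · simp only [act, jf, mv, hat, Matrix.mulVec_diagonal, Matrix.cons_val_zero,
        Matrix.cons_val_one, Matrix.cons_val, Prod.smul_fst, smul_eq_mul, mul_one]
      rw [div_eq_iff hc]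
      linear_combination (-(u * w.1) * (u * conj u + 1)) * hu
    · simp only [act, jf, mv, hat, Matrix.mulVec_diagonal, Matrix.cons_val_zero,
        Matrix.cons_val_one, Matrix.cons_val, Prod.smul_snd, smul_eq_mul, mul_one]
      rw [div_eq_iff hc]
      linear_combination (-(u * w.2) * (u * conj u + 1)) * hu

theorem BK.nsq_smul (c : ℂ) (w : C2) : nsq (c • w) = ‖c‖ ^ 2 * nsq w := by
  simp only [nsq, Prod.smul_fst, Prod.smul_snd, smul_eq_mul, norm_mul]
  ring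

theorem BK.circle_mean {f : C2 → ℂ} (hf : DifferentiableOn ℂ f B) {w : C2} (hw : w ∈ B) :
    ∫ θ in Ioc 0 (2 * Real.pi), f (circleMap 0 1 θ • w) = ((2 * Real.pi : ℝ) : ℂ) * f 0 := by
  have h1 : DiffContOnCl ℂ (fun c : ℂ => f (c • w)) (Metric.ball 0 |1|) := by
    refine DifferentiableOn.diffContOnCl (hf.comp (by fun_prop) fun c hc => ?_)
    have h2 := Metric.closure_ball_subset_closedBall hc
    rw [abs_one, mem_closedBall_zero_iff] at h2
    have h3 : nsq w < 1 := hw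
    show nsq (c • w) < 1
    rw [BK.nsq_smul]
    have h4 : ‖c‖ ^ 2 ≤ 1 := pow_le_one₀ (norm_nonneg _) h2
    nlinarith [nsq_nonneg w]
  have h2 := h1.circleAverage
  rw [Real.circleAverage_def, intervalIntegral.integral_of_le Real.two_pi_pos.le, zero_smul] at h2
  rw [← h2, Complex.real_smul, ← mul_assoc, ← Complex.ofReal_mul,
    mul_inv_cancel₀ Real.two_pi_pos.ne', Complex.ofReal_one, one_mul]

/-- the mean value property at the origin for a radial weight -/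
theorem BK.radial_mean {f : C2 → ℂ} (hf : DifferentiableOn ℂ f B) {ψ : ℝ → ℂ}
    (hi : Integrable (fun w => f w * ψ (nsq w)) mu) :
    ∫ w, f w * ψ (nsq w) ∂mu = (∫ w, ψ (nsq w) ∂mu) * f 0 := by
  set ν : Measure ℝ := volume.restrict (Ioc 0 (2 * Real.pi)) with hν
  have hm : Measurable (Function.uncurry fun (θ : ℝ) (w : C2) => circleMap 0 1 θ • w) :=
    Continuous.measurable (by fun_prop)
  have hp := (MeasurePreserving.id ν).skew_product (μc := mu) (μd := mu) hm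
    (Filter.Eventually.of_forall fun θ => by
      obtain ⟨g, hg⟩ := BK.exists_rot θ
      rw [← funext hg]
      exact (measurePreserving_act g).map_eq)
  have h1 := hi.comp_snd ν
  have h2 : Integrable (fun p : ℝ × C2 =>
      f (circleMap 0 1 p.1 • p.2) * ψ (nsq (circleMap 0 1 p.1 • p.2))) (ν.prod mu) :=
    hp.integrable_comp_of_integrable h1
  have h3 := integral_map hp.measurable.aemeasurable (hp.map_eq.symm ▸ h1.aestronglyMeasurable)
  rw [hp.map_eq, integral_fun_snd (fun w => f w * ψ (nsq w)), integral_prod_symm _ h2] at h3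
  have h4 : ∀ᵐ w ∂mu, ∫ θ, f (circleMap 0 1 θ • w) * ψ (nsq (circleMap 0 1 θ • w)) ∂ν =
      ((2 * Real.pi : ℝ) : ℂ) * (ψ (nsq w) * f 0) := by
    filter_upwards [BK.ae_mem_B] with w hw
    simp only [BK.nsq_smul, norm_circleMap_zero, abs_one, one_pow, one_mul]
    rw [integral_mul_const, hν, BK.circle_mean hf hw]
    ring
  rw [integral_congr_ae h4, integral_const_mul, integral_mul_const, hν, measureReal_restrict_apply_univ,
    Real.volume_real_Ioc_of_le Real.two_pi_pos.le, sub_zero, Complex.real_smul] at h3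
  exact mul_left_cancel₀ (Complex.ofReal_ne_zero.2 Real.two_pi_pos.ne') h3

theorem bergman_zero {t : ℝ} (ht : 2 < t) {f : C2 → ℂ} (hf : DifferentiableOn ℂ f B)
    (hi : Integrable (fun w => f w * (((1 - nsq w) ^ t : ℝ) : ℂ)) mu) :
    ∫ w, f w * (((1 - nsq w) ^ t : ℝ) : ℂ) ∂mu =
      ((Real.pi ^ 2 / ((t - 1) * (t - 2)) : ℝ) : ℂ) * f 0 := by
  rw [BK.radial_mean hf (ψ := fun x => (((1 - x) ^ t : ℝ) : ℂ)) hi, integral_complex_ofReal,
    integral_rad ht]

/-- the reproducing formula -/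
theorem bergman {t : ℝ} (ht : 2 < t) {f : C2 → ℂ} (hf : DifferentiableOn ℂ f B)
    (hi : Integrable (fun w => f w * (((1 - nsq w) ^ t : ℝ) : ℂ)) mu) {z : C2} (hz : z ∈ B) :
    Integrable (fun w => conj (bk t z w) * f w * (((1 - nsq w) ^ t : ℝ) : ℂ)) mu ∧
      ∫ w, conj (bk t z w) * f w * (((1 - nsq w) ^ t : ℝ) : ℂ) ∂mu =
        ((Real.pi ^ 2 / ((t - 1) * (t - 2)) : ℝ) : ℂ) * f z := by
  have hI : Integrable (fun w => conj (bk t z w) * f w * (((1 - nsq w) ^ t : ℝ) : ℂ)) mu := by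
    simp only [mul_assoc]
    refine hi.bdd_mul (c := ((1 - nsq z) / 2) ^ (-t)) ?_ ?_
    · exact (Complex.continuous_conj.measurable.comp
        ((measurable_bk t).comp measurable_prodMk_left)).aestronglyMeasurable
    · filter_upwards [BK.ae_mem_B] with w hw
      rw [Complex.norm_conj]
      exact norm_bk_le (by linarith) hz hw
  refine ⟨hI, ?_⟩
  obtain ⟨g, hg⟩ := exists_act_zero hz
  have hp := measurePreserving_act g
  have h0 := BK.B_pos hz
  have h1 := hp.integrable_comp_of_integrable hI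
  have h2 := integral_map hp.measurable.aemeasurable (hp.map_eq.symm ▸ hI.aestronglyMeasurable)
  have h3 : ∀ᵐ u ∂mu, conj (bk t z (act g u)) * f (act g u) * (((1 - nsq (act g u)) ^ t : ℝ) : ℂ) =
      f (act g u) / bk t z (act g u) * bk t z z * (((1 - nsq u) ^ t : ℝ) : ℂ) := by
    filter_upwards [BK.ae_mem_B] with u hu
    have h4 := norm_bk t hz (act_mem g hu)
    have h5 : ch2 z (act g u) = (1 - nsq u)⁻¹ := by
      rw [← hg, ch2_act g zero_mem_B hu, ch2_symm, ch2_zero]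
    rw [h5, Real.inv_rpow (BK.B_pos hu).le, Real.rpow_neg (BK.B_pos hu).le, inv_inv] at h4
    have h6 := bk_ne t hz (act_mem g hu)
    have h7 : (((1 - nsq z) ^ t : ℝ) : ℂ) ≠ 0 :=
      Complex.ofReal_ne_zero.2 (Real.rpow_pos_of_pos h0 t).ne'
    rw [bk_self t hz, Real.rpow_neg h0.le, ← h4, Complex.ofReal_mul, Complex.ofReal_mul,
      Complex.ofReal_inv, ← Complex.normSq_eq_norm_sq, ← Complex.mul_conj]
    field_simp
  have hA : ∀ u ∈ B, act g u ∈ B := fun u hu => act_mem g hu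
  have hF : DifferentiableOn ℂ (fun u => f (act g u) / bk t z (act g u) * bk t z z) B := by
    simp only [div_eq_mul_inv]
    exact ((hf.comp (differentiableOn_act g) hA).mul
      (((bk_hol t hz).comp (differentiableOn_act g) hA).inv
        fun u hu => bk_ne t hz (hA u hu))).mul_const _
  rw [hp.map_eq] at h2
  rw [h2, integral_congr_ae h3, bergman_zero ht hF (h1.congr h3), hg,
    div_mul_cancel₀ _ (bk_ne t hz hz)]

theorem integrable_of_bdd {t M : ℝ} (ht : 4 < t) {f : C2 → ℂ} (hf : ContinuousOn f B)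
    (hM : ∀ w ∈ B, ‖f w‖ ^ 2 * (1 - nsq w) ^ t ≤ M) :
    Integrable (fun w => f w * (((1 - nsq w) ^ t : ℝ) : ℂ)) mu := by
  have h1 : AEStronglyMeasurable f mu := by
    have h := hf.aestronglyMeasurable (μ := mu) (isOpen_Bl 1).measurableSet
    rwa [Measure.restrict_eq_self_of_ae_mem BK.ae_mem_B] at h
  refine ((integrable_rad (τ := t / 2) (by linarith)).const_mul √M).mono'
    (h1.mul (Complex.measurable_ofReal.comp
      ((continuous_nsq.measurable.const_sub 1).pow_const t)).aestronglyMeasurable) ?_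
  filter_upwards [BK.ae_mem_B] with w hw
  have h0 := BK.B_pos hw
  have h2 : (1 - nsq w) ^ t = (1 - nsq w) ^ (t / 2) * (1 - nsq w) ^ (t / 2) := by
    rw [← Real.rpow_add h0, add_halves]
  have h3 := hM w hw
  rw [norm_mul, Complex.norm_real, Real.norm_of_nonneg (Real.rpow_nonneg h0.le _), h2, ← mul_assoc]
  refine mul_le_mul_of_nonneg_right (Real.le_sqrt_of_sq_le ?_) (Real.rpow_nonneg h0.le _)
  rw [h2] at h3
  nlinarith

theorem bergman_bdd {t M : ℝ} (ht : 4 < t) {f : C2 → ℂ} (hf : DifferentiableOn ℂ f B)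
    (hM : ∀ w ∈ B, ‖f w‖ ^ 2 * (1 - nsq w) ^ t ≤ M) {z : C2} (hz : z ∈ B) :
    Integrable (fun w => conj (bk t z w) * f w * (((1 - nsq w) ^ t : ℝ) : ℂ)) mu ∧
      ∫ w, conj (bk t z w) * f w * (((1 - nsq w) ^ t : ℝ) : ℂ) ∂mu =
        ((Real.pi ^ 2 / ((t - 1) * (t - 2)) : ℝ) : ℂ) * f z :=
  bergman (by linarith) hf (integrable_of_bdd ht hf.continuousOn hM) hz

end Pool.Agent.MP_54e5d7_al.Atc

end MrgPart6

-- ======== part 7: formerly Pool.Agent.MP_54e5d7_al.atc.ker.Rep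
section MrgPart7

/-!
PROJECT ATC, block KER: the Poincaré series of the kernel reproduces.
-/

set_option autoImplicit false

open scoped ComplexConjugate
open Set MeasureTheory

namespace Pool.Agent.MP_54e5d7_al.Atc

variable {n : ℕ} {U : Type} [Group U] (C : Cover n U)

/-- invariance of the pointwise inner product -/
theorem Cover.sl_pair (hn : 0 < n) (s : ℕ) (g f : C2 → ℂ) (a : U) {w : C2} (hw : w ∈ B) :
    conj (C.sl s g a w) * C.sl s f a w * (((1 - nsq w) ^ ((s : ℝ) / n) : ℝ) : ℂ) =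
      conj (g (act (C.p a) w)) * f (act (C.p a) w) *
        (((1 - nsq (act (C.p a) w)) ^ ((s : ℝ) / n) : ℝ) : ℂ) := by
  have h1 := C.norm_sl hn s (fun _ => 1) a hw
  rw [C.sl_of_mem s _ a hw] at h1
  simp only [norm_one, one_pow, one_mul, norm_div, div_pow] at h1
  rw [C.sl_of_mem s _ a hw, C.sl_of_mem s _ a hw, ← h1, map_div₀]
  have h2 : C.φ a w ^ s ≠ 0 := pow_ne_zero _ (C.φ_ne_zero hn a hw)
  have h3 : conj (C.φ a w ^ s) ≠ 0 := (map_ne_zero _).2 h2
  have h4 : ((‖C.φ a w ^ s‖ ^ 2 : ℝ) : ℂ) = conj (C.φ a w ^ s) * C.φ a w ^ s := by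
    rw [Complex.conj_mul']; push_cast; rfl
  rw [Complex.ofReal_mul, Complex.ofReal_div, h4]
  generalize conj (C.φ a w ^ s) = u at h3 ⊢
  generalize C.φ a w ^ s = v at h2 ⊢
  push_cast
  field_simp

theorem Cover.exists_equiv_lift (hn : 0 < n) (Γ : Subgroup SU21) :
    ∃ e : Γ × C.p.ker ≃ ↥(Γ.comap C.p), ∀ x, C.p (e x) = x.1 := by
  choose l hl using C.surj hn
  refine ⟨⟨fun x => ⟨l x.1 * x.2, ?_⟩, fun a => (⟨C.p a, a.2⟩, ⟨(l (C.p a))⁻¹ * a, ?_⟩), ?_, ?_⟩, ?_⟩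
  · have h := x.2.2
    rw [MonoidHom.mem_ker] at h
    simp [Subgroup.mem_comap, hl, h]
  · simp [MonoidHom.mem_ker, hl]
  · rintro ⟨γ, ζ⟩
    have h := ζ.2
    rw [MonoidHom.mem_ker] at h
    simp [hl, h]
  · intro a
    simp
  · rintro ⟨γ, ζ⟩
    have h := ζ.2
    rw [MonoidHom.mem_ker] at h
    simp [hl, h]

theorem Cover.finite_ker (hn : 0 < n) : Finite C.p.ker :=
  Nat.finite_of_card_ne_zero (by rw [C.card_ker hn]; omega)

theorem Cover.countable_lift (hn : 0 < n) {Γ : Subgroup SU21} (hΓ : Lat Γ) :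
    Countable ↥(Γ.comap C.p) := by
  obtain ⟨e, -⟩ := C.exists_equiv_lift hn Γ
  have := hΓ.countable
  have := C.finite_ker hn
  exact e.symm.injective.countable

theorem hasSum_fst {α β : Type} [Finite β] {I : α → ℂ} {x : ℂ} (h : HasSum I x) :
    HasSum (fun y : α × β => I y.1) (Nat.card β * x) := by
  have := Fintype.ofFinite β
  have h1 : HasSum (fun _ : β => (1 : ℂ)) (Nat.card β : ℂ) := by
    have := hasSum_fintype (fun _ : β => (1 : ℂ))
    rwa [Finset.sum_const, Finset.card_univ, ← Nat.card_eq_fintype_card,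
      nsmul_eq_mul, mul_one] at this
  have h3 : Summable fun y : α × β => I y.1 * (1 : ℂ) :=
    summable_mul_of_summable_norm (f := I) (g := fun _ : β => (1 : ℂ)) h.summable.norm
      h1.summable.norm
  have h2 := HasSum.mul (f := I) (g := fun _ : β => (1 : ℂ)) h h1 h3
  simpa only [mul_one, mul_comm x] using h2

/-- sums over the preimage of `Γ` -/
theorem Cover.hasSum_lift (hn : 0 < n) {Γ : Subgroup SU21} {I : SU21 → ℂ} {x : ℂ}
    (h : HasSum (fun γ : Γ => I γ) x) :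
    HasSum (fun a : ↥(Γ.comap C.p) => I (C.p a)) (n * x) := by
  obtain ⟨e, he⟩ := C.exists_equiv_lift hn Γ
  have := C.finite_ker hn
  have h2 := hasSum_fst (β := C.p.ker) h
  rw [C.card_ker hn] at h2
  rw [← e.hasSum_iff]
  have h3 : ((fun a : ↥(Γ.comap C.p) => I (C.p a)) ∘ e) = fun y => I y.1 :=
    funext fun y => congrArg I (he y)
  rw [h3]
  exact h2

variable {C} {Γ : Subgroup SU21} {G : Type} [Group G] (Q : Quo C Γ G)

/-- every element of the preimage of `Γ` is uniquely `k * σ q` -/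
theorem Quo.exists_equiv : ∃ e : G × Q.π.ker ≃ ↥(Γ.comap C.p),
    ∀ x, e x = x.2.1 * Q.σ x.1 := by
  refine ⟨⟨fun x => x.2.1 * Q.σ x.1, fun a => (Q.π a, ⟨a * (Q.σ (Q.π a))⁻¹, ?_⟩), ?_, ?_⟩,
    fun _ => rfl⟩
  · simp [MonoidHom.mem_ker, Q.sec]
  · rintro ⟨q, k⟩
    have h := k.2
    rw [MonoidHom.mem_ker] at h
    simp [Q.sec, h]
  · intro a
    simp

/-- elements of the Bergman space are bounded in the invariant norm -/
theorem Quo.Berg.bdd {Q : Quo C Γ G} (hn : 0 < n) (hΓ : Lat Γ) {s : ℕ} {f : C2 → ℂ}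
    (hf : Q.Berg s f) : ∃ M : ℝ, ∀ w ∈ B, ‖f w‖ ^ 2 * (1 - nsq w) ^ ((s : ℝ) / n) ≤ M := by
  obtain ⟨r, hr, hc⟩ := hΓ.cocpt
  obtain ⟨M, hM, hb⟩ := hf.2 r hr
  refine ⟨∑' q, M q ^ 2, fun w hw => ?_⟩
  obtain ⟨γ, hγ, hw'⟩ := hc w hw
  obtain ⟨a, ha⟩ := C.surj hn γ⁻¹
  have ha' : a ∈ Γ.comap C.p := by rw [Subgroup.mem_comap, ha]; exact Γ.inv_mem hγ
  have hB := act_mem γ hw
  have h1 := C.norm_sl hn s f a hB
  rw [ha, act_inv_act γ hw] at h1
  have h2 := hb (Q.π ⟨a, ha'⟩) _ hw'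
  rw [Q.sl_σ hf.1 ⟨a, ha'⟩] at h2
  have h3 : (1 - nsq (act γ w)) ^ ((s : ℝ) / n) ≤ 1 :=
    Real.rpow_le_one (sub_nonneg.2 (le_of_lt hB)) (by linarith [nsq_nonneg (act γ w)])
      (by positivity)
  have h4 : M (Q.π ⟨a, ha'⟩) ^ 2 ≤ ∑' q, M q ^ 2 := hM.le_tsum _ fun _ _ => sq_nonneg _
  rw [← h1]
  calc _ ≤ M (Q.π ⟨a, ha'⟩) ^ 2 * 1 :=
        mul_le_mul (pow_le_pow_left₀ (norm_nonneg _) h2 2) h3
          (Real.rpow_nonneg (sub_nonneg.2 (le_of_lt hB)) _) (sq_nonneg _)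
    _ ≤ _ := by linarith

theorem Quo.sl_tsum (s : ℕ) (g : C2 → ℂ) (a : U) {w : C2} (hw : w ∈ B) :
    C.sl s (fun w => ∑' k : Q.π.ker, C.sl s g k.1 w) a w =
      ∑' k : Q.π.ker, C.sl s g (k.1 * a) w := by
  rw [C.sl_of_mem s _ a hw, ← tsum_div_const]
  refine tsum_congr fun k => ?_
  rw [← C.sl_mul, C.sl_of_mem s (C.sl s g k.1) a hw]

/-- unfolding of the inner product against a Poincaré series -/
theorem Quo.unfold_pair (hn : 0 < n) {s : ℕ} (hΓ : Lat Γ) {F : Set C2} (hF : FD Γ F)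
    {g f : C2 → ℂ} (hf : Q.Aut s f)
    (hi : Integrable (fun w => conj (g w) * f w * (((1 - nsq w) ^ ((s : ℝ) / n) : ℝ) : ℂ)) mu) :
    HasSum (fun q : G => ∫ w in F,
        conj (C.sl s (fun w => ∑' k : Q.π.ker, C.sl s g k.1 w) (Q.σ q) w) *
          C.sl s f (Q.σ q) w * (((1 - nsq w) ^ ((s : ℝ) / n) * rho w : ℝ) : ℂ))
      (n * ∫ w, conj (g w) * f w * (((1 - nsq w) ^ ((s : ℝ) / n) : ℝ) : ℂ) ∂mu) := by
  set h : C2 → ℂ := fun w => conj (g w) * f w * (((1 - nsq w) ^ ((s : ℝ) / n) : ℝ) : ℂ) with hh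
  obtain ⟨e, he⟩ := Q.exists_equiv
  have := C.countable_lift hn hΓ
  have hFB : F ⊆ B := by
    obtain ⟨r, hr, h⟩ := hF.2.1
    exact h.trans (Bl_mono hr.le)
  have h1 := C.hasSum_lift hn (I := fun γ => ∫ w in F, h (act γ w) ∂mu) (hasSum_unfold hΓ hF hi)
  have h2 := C.hasSum_lift hn (I := fun γ => ∫ w in F, ((‖h (act γ w)‖ : ℝ) : ℂ) ∂mu)
    (hasSum_unfold hΓ hF (f := fun w => ((‖h w‖ : ℝ) : ℂ)) hi.norm.ofReal)
  rw [← e.hasSum_iff] at h1 h2
  refine h1.prod_fiberwise fun q => ?_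
  have h3 : Summable fun k : Q.π.ker => ∫ w in F, ‖h (act (C.p (e (q, k))) w)‖ ∂mu := by
    have h4 := h2.summable.prod_factor q
    simp only [Function.comp, integral_complex_ofReal] at h4
    exact Complex.summable_ofReal.1 h4
  have h5 := hasSum_integral_of_summable_integral_norm (μ := mu.restrict F)
    (F := fun (k : Q.π.ker) w => h (act (C.p (e (q, k))) w))
    (fun k => ((measurePreserving_act _).integrable_comp_of_integrable hi).integrableOn) h3
  rw [integral_mu hF.1 hFB] at h5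
  have h6 : ∫ w in F, rho w • ∑' k : Q.π.ker, h (act (C.p (e (q, k))) w) = ∫ w in F,
      conj (C.sl s (fun w => ∑' k : Q.π.ker, C.sl s g k.1 w) (Q.σ q) w) *
        C.sl s f (Q.σ q) w * (((1 - nsq w) ^ ((s : ℝ) / n) * rho w : ℝ) : ℂ) := by
    refine setIntegral_congr_fun hF.1 fun w hw => ?_
    have hw' := hFB hw
    rw [Q.sl_tsum s g _ hw', Complex.conj_tsum, Complex.ofReal_mul, ← mul_assoc, ← tsum_mul_right,
      ← tsum_mul_right, Complex.real_smul, mul_comm]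
    congr 1
    refine tsum_congr fun k => ?_
    have h7 : C.sl s f (Q.σ q) = C.sl s f (k.1 * Q.σ q) := by
      rw [← C.sl_mul, hf.2 k.1 k.2]
    rw [h7, C.sl_pair hn s g f _ hw', he]
    rfl
  rw [h6] at h5
  exact h5

/-- the Poincaré series of the kernel reproduces -/
theorem Quo.rep_kap (hn : 0 < n) {s : ℕ} (hs : 4 * n < s) (hΓ : Lat Γ) {F : Set C2}
    (hF : FD Γ F) {z : C2} (hz : z ∈ B) {f : C2 → ℂ} (hf : Q.Berg s f) :
    HasSum (fun q : G => ∫ w in F,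
        conj (C.sl s (fun w => ∑' k : Q.π.ker, C.sl s (bk ((s : ℝ) / n) z) k.1 w) (Q.σ q) w) *
          C.sl s f (Q.σ q) w * (((1 - nsq w) ^ ((s : ℝ) / n) * rho w : ℝ) : ℂ))
      (n * (((Real.pi ^ 2 / (((s : ℝ) / n - 1) * ((s : ℝ) / n - 2)) : ℝ) : ℂ) * f z)) := by
  obtain ⟨M, hM⟩ := hf.bdd hn hΓ
  have ht : (4 : ℝ) < (s : ℝ) / n := by
    rw [lt_div_iff₀ (by exact_mod_cast hn)]
    exact_mod_cast hs
  obtain ⟨h1, h2⟩ := bergman_bdd ht hf.1.1.2 hM hz
  rw [← h2]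
  exact Q.unfold_pair hn hΓ hF hf.1 h1

end Pool.Agent.MP_54e5d7_al.Atc

end MrgPart7

-- ======== part 8: formerly Pool.Agent.MP_54e5d7_al.atc.ker.Trace
section MrgPart8

/-!
PROJECT ATC, block KER: the trace of the Poincaré series of the kernel, term by term.
-/

set_option autoImplicit false

open scoped ComplexConjugate
open Set MeasureTheory

namespace Pool.Agent.MP_54e5d7_al.Atc

variable {n : ℕ} {U : Type} [Group U] (C : Cover n U)

theorem Cover.norm_diag (hn : 0 < n) (s : ℕ) (a : U) {z : C2} (hz : z ∈ B) :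
    ‖C.sl s (bk ((s : ℝ) / n) z) a z‖ * (1 - nsq z) ^ ((s : ℝ) / n) =
      ch2 z (act (C.p a) z) ^ (-((s : ℝ) / n / 2)) := by
  have h0 := BK.B_pos hz
  have h1 := C.norm_sl hn s (bk ((s : ℝ) / n) z) a hz
  have h2 := norm_bk ((s : ℝ) / n) hz (act_mem (C.p a) hz)
  have h3 : 0 ≤ ch2 z (act (C.p a) z) := zero_le_one.trans (one_le_ch2 hz (act_mem _ hz))
  refine (pow_left_inj₀ (by positivity) (by positivity) two_ne_zero).1 ?_
  rw [← Real.rpow_natCast (_ ^ (-(_ / 2))), ← Real.rpow_mul h3,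
    show -((s : ℝ) / n / 2) * (2 : ℕ) = -((s : ℝ) / n) by push_cast; ring, ← h2, mul_right_comm,
    ← h1]
  ring

theorem ch2_move_le {r τ : ℝ} (hr : r < 1) (hτ : 0 ≤ τ) (g : SU21) {z : C2} (hz : z ∈ Bl r) :
    ch2 z (act g z) ^ (-τ) ≤ (16 / (1 - r) ^ 2) ^ τ * (1 - nsq (act g 0)) ^ τ := by
  have hB : z ∈ B := Bl_mono hr.le hz
  have h0 := BK.B_pos hB
  have h1 := BK.B_pos (act_mem g zero_mem_B)
  have h2 := ch2_le (act_mem g zero_mem_B) zero_mem_B (act_mem g hB)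
  have h3 := ch2_le (act_mem g hB) zero_mem_B hB
  rw [ch2_act g zero_mem_B hB, ch2_symm 0 z, ch2_zero, ch2_zero] at h2
  rw [ch2_symm (act g z) z, ch2_zero z] at h3
  have h4 : 0 < ch2 z (act g z) := zero_lt_one.trans_le (one_le_ch2 hB (act_mem g hB))
  have h5 : 0 < 1 - r := sub_pos.2 hr
  have h6 : (1 - nsq z)⁻¹ ≤ (1 - r)⁻¹ := inv_anti₀ h5 (by linarith [show nsq z < r from hz])
  have h7 : (1 - nsq (act g 0))⁻¹ ≤ 16 / (1 - r) ^ 2 * ch2 z (act g z) := by
    calc _ ≤ 4 * (1 - nsq z)⁻¹ * (4 * ch2 z (act g z) * (1 - nsq z)⁻¹) :=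
          h2.trans (mul_le_mul_of_nonneg_left h3 (by positivity))
      _ ≤ 4 * (1 - r)⁻¹ * (4 * ch2 z (act g z) * (1 - r)⁻¹) := by gcongr
      _ = _ := by field_simp; ring
  rw [Real.rpow_neg h4.le, ← Real.inv_rpow h4.le, ← Real.mul_rpow (by positivity) h1.le]
  refine Real.rpow_le_rpow (by positivity) ?_ hτ
  rw [inv_le_iff_one_le_mul₀ h4]
  rw [inv_le_iff_one_le_mul₀ h1] at h7
  linarith

theorem Cover.summable_lift (hn : 0 < n) {Γ : Subgroup SU21} (hΓ : Lat Γ) {τ : ℝ} (hτ : 2 < τ) :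
    Summable fun a : ↥(Γ.comap C.p) => (1 - nsq (act (C.p a) 0)) ^ τ :=
  Complex.summable_ofReal.1
    (C.hasSum_lift hn (I := fun γ => (((1 - nsq (act γ 0)) ^ τ : ℝ) : ℂ))
      (Complex.summable_ofReal.2 (hΓ.summable hτ)).hasSum).summable

theorem Cover.continuousOn_diag (hn : 0 < n) (s : ℕ) (a : U) :
    ContinuousOn (fun z => C.sl s (bk ((s : ℝ) / n) z) a z *
      (((1 - nsq z) ^ ((s : ℝ) / n) * rho z : ℝ) : ℂ)) B := by
  have h1 : ContinuousOn (fun z => bk ((s : ℝ) / n) z (act (C.p a) z) / C.φ a z ^ s) B :=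
    ((continuousOn_bk _).comp (continuousOn_id.prodMk (continuousOn_act _))
      fun z hz => ⟨hz, act_mem _ hz⟩).div ((C.hol a).continuousOn.pow s)
      fun z hz => pow_ne_zero _ (C.φ_ne_zero hn a hz)
  have h2 : ContinuousOn (fun z => 1 - nsq z) B := (continuous_const.sub continuous_nsq).continuousOn
  refine (h1.congr fun z hz => C.sl_of_mem s _ a hz).mul
    (Complex.continuous_ofReal.comp_continuousOn
      ((h2.rpow_const fun z hz => Or.inl (BK.B_pos hz).ne').mul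
        ((h2.pow 3).inv₀ fun z hz => pow_ne_zero _ (BK.B_pos hz).ne')))

theorem Cover.diag_bound (hn : 0 < n) {s : ℕ} (hs : 4 * n < s) {Γ : Subgroup SU21} (hΓ : Lat Γ)
    {r : ℝ} (hr : r < 1) : ∃ u : ↥(Γ.comap C.p) → ℝ, Summable u ∧ ∀ a, ∀ z ∈ Bl r,
      ‖C.sl s (bk ((s : ℝ) / n) z) a.1 z * (((1 - nsq z) ^ ((s : ℝ) / n) * rho z : ℝ) : ℂ)‖ ≤
        u a := by
  have ht : (4 : ℝ) < (s : ℝ) / n := by
    rw [lt_div_iff₀ (by exact_mod_cast hn)]
    exact_mod_cast hs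
  refine ⟨_, ((C.summable_lift hn hΓ (τ := (s : ℝ) / n / 2) (by linarith)).mul_left
    ((16 / (1 - r) ^ 2) ^ ((s : ℝ) / n / 2))).mul_right ((1 - r) ^ 3)⁻¹, fun a z hz => ?_⟩
  have hB : z ∈ B := Bl_mono hr.le hz
  have h0 := BK.B_pos hB
  have h1 := BK.B_pos (act_mem (C.p a) zero_mem_B)
  have h5 : 0 < 1 - r := sub_pos.2 hr
  rw [norm_mul, Complex.norm_real, rho, Real.norm_of_nonneg (by positivity), ← mul_assoc,
    C.norm_diag hn s a hB]
  refine mul_le_mul (ch2_move_le hr (by linarith) _ hz) (inv_anti₀ (by positivity) ?_)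
    (by positivity) (by positivity)
  exact pow_le_pow_left₀ h5.le (by linarith [show nsq z < r from hz]) 3

theorem FD.volume_lt_top {Γ : Subgroup SU21} {F : Set C2} (hF : FD Γ F) : volume F < ⊤ := by
  obtain ⟨r, -, h⟩ := hF.2.1
  exact (measure_mono (h.trans fun z hz => le_of_lt (show nsq z < r from hz))).trans_lt
    (isCompact_nsq_le r).measure_lt_top

theorem Cover.diag_integrable (hn : 0 < n) {s : ℕ} (hs : 4 * n < s) {Γ : Subgroup SU21}
    (hΓ : Lat Γ) {F : Set C2} (hF : FD Γ F) :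
    (∀ a : ↥(Γ.comap C.p), IntegrableOn (fun z => C.sl s (bk ((s : ℝ) / n) z) a.1 z *
      (((1 - nsq z) ^ ((s : ℝ) / n) * rho z : ℝ) : ℂ)) F) ∧
    Summable fun a : ↥(Γ.comap C.p) => ∫ z in F, ‖C.sl s (bk ((s : ℝ) / n) z) a.1 z *
      (((1 - nsq z) ^ ((s : ℝ) / n) * rho z : ℝ) : ℂ)‖ := by
  obtain ⟨r, hr, h⟩ := hF.2.1
  obtain ⟨u, hu, hb⟩ := C.diag_bound hn hs hΓ hr
  have : IsFiniteMeasure (volume.restrict F) := isFiniteMeasure_restrict.2 hF.volume_lt_top.ne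
  have h1 : ∀ a : ↥(Γ.comap C.p), IntegrableOn (fun z => C.sl s (bk ((s : ℝ) / n) z) a.1 z *
      (((1 - nsq z) ^ ((s : ℝ) / n) * rho z : ℝ) : ℂ)) F := fun a =>
    (integrable_const (u a)).mono'
      (((C.continuousOn_diag hn s a.1).mono (h.trans (Bl_mono hr.le))).aestronglyMeasurable hF.1)
      ((ae_restrict_mem hF.1).mono fun z hz => hb a z (h hz))
  refine ⟨h1, (hu.mul_left (volume.real F)).of_nonneg_of_le
    (fun a => integral_nonneg fun z => norm_nonneg _) fun a => ?_⟩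
  refine (integral_mono_ae (h1 a).norm (integrable_const (u a))
    ((ae_restrict_mem hF.1).mono fun z hz => hb a z (h hz))).trans_eq ?_
  rw [integral_const, measureReal_restrict_apply_univ, smul_eq_mul]

variable {C} {Γ : Subgroup SU21} {G : Type} [Group G] (Q : Quo C Γ G)

/-- termwise integration of the diagonal of the Poincaré series -/
theorem Quo.hasSum_trace (hn : 0 < n) {s : ℕ} (hs : 4 * n < s) (hΓ : Lat Γ) {F : Set C2}
    (hF : FD Γ F) :
    HasSum (fun k : Q.π.ker => ∫ z in F, C.sl s (bk ((s : ℝ) / n) z) k.1 z *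
        (((1 - nsq z) ^ ((s : ℝ) / n) * rho z : ℝ) : ℂ))
      (∫ z in F, (∑' k : Q.π.ker, C.sl s (bk ((s : ℝ) / n) z) k.1 z) *
        (((1 - nsq z) ^ ((s : ℝ) / n) * rho z : ℝ) : ℂ)) := by
  obtain ⟨h1, h2⟩ := C.diag_integrable hn hs hΓ hF
  have := C.countable_lift hn hΓ
  have h3 := hasSum_integral_of_summable_integral_norm (μ := volume.restrict F)
    (F := fun (k : Q.π.ker) z => C.sl s (bk ((s : ℝ) / n) z) k.1 z *
      (((1 - nsq z) ^ ((s : ℝ) / n) * rho z : ℝ) : ℂ))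
    (fun k => h1 k.1) (h2.subtype _)
  simpa only [tsum_mul_right] using h3

theorem Cover.trace_one (C : Cover n U) (hn : 0 < n) (s : ℕ) {F : Set C2} (hF : FD Γ F) :
    ∫ z in F, C.sl s (bk ((s : ℝ) / n) z) 1 z *
      (((1 - nsq z) ^ ((s : ℝ) / n) * rho z : ℝ) : ℂ) = ((vol F : ℝ) : ℂ) := by
  obtain ⟨r, hr, h⟩ := hF.2.1
  rw [vol, ← integral_complex_ofReal]
  refine setIntegral_congr_fun hF.1 fun z hz => ?_
  have hB : z ∈ B := Bl_mono hr.le (h hz)
  have h0 := BK.B_pos hB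
  show _ * _ = _
  rw [C.sl_of_mem s _ 1 hB, map_one, act_one, C.φ_one hn hB, one_pow, div_one, bk_self _ hB,
    ← Complex.ofReal_mul, ← mul_assoc, ← Real.rpow_add h0, neg_add_cancel, Real.rpow_zero, one_mul]

/-- the trace clause from the vanishing of the orbital terms -/
theorem Quo.trace_of_orb (hn : 0 < n) {s : ℕ} (hs : 4 * n < s) (hΓ : Lat Γ) {F : Set C2}
    (hF : FD Γ F)
    (horb : HasSum (fun k : {k : ↥(Γ.comap C.p) // Q.π k = 1 ∧ k ≠ 1} =>
      ∫ z in F, C.sl s (bk ((s : ℝ) / n) z) k.1 z *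
        (((1 - nsq z) ^ ((s : ℝ) / n) * rho z : ℝ) : ℂ)) 0) :
    ∫ z in F, (∑' k : Q.π.ker, C.sl s (bk ((s : ℝ) / n) z) k.1 z) *
      (((1 - nsq z) ^ ((s : ℝ) / n) * rho z : ℝ) : ℂ) = ((vol F : ℝ) : ℂ) := by
  let e : ({1}ᶜ : Set Q.π.ker) ≃ {k : ↥(Γ.comap C.p) // Q.π k = 1 ∧ k ≠ 1} :=
    ⟨fun k => ⟨k.1.1, k.1.2, fun h => k.2 (Subtype.ext h)⟩,
      fun k => ⟨⟨k.1, k.2.1⟩, fun h => k.2.2 (congrArg Subtype.val h)⟩, fun _ => rfl, fun _ => rfl⟩
  have key : ∀ (f : Q.π.ker → ℂ) (x : ℂ), HasSum f x →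
      HasSum (fun k : ({1}ᶜ : Set Q.π.ker) => f k) 0 → x = f 1 := fun f x h1 h2 => by
    have h3 : HasSum (f ∘ (Subtype.val : ({1} : Set Q.π.ker) → Q.π.ker)) (f 1) :=
      hasSum_singleton 1 f
    rw [h1.unique (h3.add_compl h2), add_zero]
  exact (key _ _ (Q.hasSum_trace hn hs hΓ hF) (e.hasSum_iff.2 horb)).trans (C.trace_one hn s hF)

end Pool.Agent.MP_54e5d7_al.Atc

end MrgPart8

-- marker of a merged file
example : 731051 + 471389 = 731051 + 471389 := rfl
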