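import Mathlib.Algebra.Group.MinimalAxioms
import Mathlib.Algebra.QuadraticAlgebra.Basic
import Mathlib.Analysis.SpecialFunctions.Arcosh
import Pool.Agent.MP_54e5d7_al.atc.Spec
import Pool.Agent.MP_54e5d7_al.atc.Hol1
import Pool.Agent.MP_54e5d7_al.atc.nt.Pell
import Pool.Agent.MP_54e5d7_al.atc.SC
import Pool.Agent.MP_54e5d7_al.atc.tr.Core
import Pool.Agent.MP_54e5d7_al.atc.ker.Trace

-- ======== part 0: formerly Pool.Agent.MP_54e5d7_al.atc.Cov
section MrgPart0

/-!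
PROJECT ATC, row COV: the `n`-fold cover of `SU(2,1)` exists.
-/

set_option autoImplicit false

open scoped ComplexConjugate
open Matrix Set

namespace Pool.Agent.MP_54e5d7_al.Atc

noncomputable section

namespace CovAux

theorem jf_smul (g : SU21) (c : ℂ) (z : C2) :
    jf g (c • z) = jf g 0 + c * (jf g z - jf g 0) := by
  simp only [jf, mv_hat_apply, Prod.smul_fst, Prod.smul_snd, smul_eq_mul, Prod.fst_zero,
    Prod.snd_zero]
  ring

theorem nsq_smul' (c : ℂ) (z : C2) : nsq (c • z) = ‖c‖ ^ 2 * nsq z := by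
  simp only [nsq, Prod.smul_fst, Prod.smul_snd, smul_eq_mul, norm_mul]
  ring

theorem ratio_mem (g : SU21) {z : C2} (hz : z ∈ B) : jf g z / jf g 0 ∈ Complex.slitPlane := by
  have h0 := jf_ne_zero g zero_mem_B
  have h1 : jf g z / jf g 0 = 1 + (jf g z - jf g 0) / jf g 0 := by field_simp; ring
  rw [h1]
  refine Complex.mem_slitPlane_of_norm_lt_one ?_
  by_contra hlt
  have hge : 1 ≤ ‖(jf g z - jf g 0) / jf g 0‖ := not_lt.1 hlt
  set l : ℂ := (jf g z - jf g 0) / jf g 0 with hl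
  have hl0 : l ≠ 0 := by
    intro h
    rw [h, norm_zero] at hge
    linarith
  have hd : jf g z - jf g 0 = l * jf g 0 := by rw [hl]; field_simp
  have hmem : (-l⁻¹) • z ∈ B := by
    show nsq _ < 1
    rw [nsq_smul', norm_neg, norm_inv]
    have h2 : ‖l‖⁻¹ ≤ 1 := inv_le_one_of_one_le₀ hge
    have h3 : ‖l‖⁻¹ ^ 2 ≤ 1 := pow_le_one₀ (by positivity) h2
    have h4 : nsq z < 1 := hz
    have h5 := nsq_nonneg z
    nlinarith
  apply jf_ne_zero g hmem
  rw [jf_smul, hd]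
  field_simp
  ring

/-- the principal root of the normalised factor of automorphy -/
def root (n : ℕ) (g : SU21) (z : C2) : ℂ := Complex.exp (Complex.log (jf g z / jf g 0) / n)

theorem root_zero (n : ℕ) (g : SU21) : root n g 0 = 1 := by
  rw [root, div_self (jf_ne_zero g zero_mem_B), Complex.log_one, zero_div, Complex.exp_zero]

theorem root_one (n : ℕ) (z : C2) : root n 1 z = 1 := by
  rw [root, jf_one, jf_one, div_one, Complex.log_one, zero_div, Complex.exp_zero]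

theorem root_pow {n : ℕ} (hn : 0 < n) (g : SU21) {z : C2} (hz : z ∈ B) :
    root n g z ^ n = jf g z / jf g 0 := by
  have h : (n : ℂ) ≠ 0 := by exact_mod_cast hn.ne'
  rw [root, ← Complex.exp_nat_mul, mul_div_cancel₀ _ h,
    Complex.exp_log (Complex.slitPlane_ne_zero (ratio_mem g hz))]

theorem root_hol (n : ℕ) (g : SU21) : DifferentiableOn ℂ (root n g) B := by
  intro z hz
  have h1 : DifferentiableAt ℂ (fun w : C2 => jf g w / jf g 0) z := by
    simp only [div_eq_mul_inv]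
    exact (differentiable_jf g z).mul_const _
  have h2 : DifferentiableAt ℂ (fun w : C2 => Complex.log (jf g w / jf g 0) / n) z := by
    simp only [div_eq_mul_inv (Complex.log _)]
    exact (h1.clog (ratio_mem g hz)).mul_const _
  exact h2.cexp.differentiableWithinAt

/-- uniqueness of continuous roots on the ball -/
theorem root_unique {n : ℕ} (hn : 0 < n) {f₁ f₂ : C2 → ℂ} (h₁ : ContinuousOn f₁ B)
    (h₂ : ContinuousOn f₂ B) (hp : ∀ z ∈ B, f₁ z ^ n = f₂ z ^ n) (hne : ∀ z ∈ B, f₂ z ≠ 0)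
    (h0 : f₁ 0 = f₂ 0) {z : C2} (hz : z ∈ B) : f₁ z = f₂ z := by
  have hfin : {w : ℂ | w ^ n = 1}.Finite := by
    refine (Polynomial.nthRoots n (1 : ℂ)).toFinset.finite_toSet.subset fun w hw => ?_
    simpa [Polynomial.mem_nthRoots hn] using hw
  have hc : ContinuousOn (fun w => f₁ w / f₂ w) B := h₁.div h₂ hne
  have hm : MapsTo (fun w => f₁ w / f₂ w) B {w : ℂ | w ^ n = 1} := by
    intro w hw
    show (f₁ w / f₂ w) ^ n = 1
    rw [div_pow, hp w hw, div_self (pow_ne_zero _ (hne w hw))]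
  have h := (convex_Bl 1).isPreconnected.constant_of_mapsTo hfin.isDiscrete hc hm hz zero_mem_B
  simp only [h0, div_self (hne 0 zero_mem_B)] at h
  exact (div_eq_one_iff_eq (hne z hz)).1 h

/-- the underlying set of the cover -/
@[ext]
structure Cv (n : ℕ) where
  g : SU21
  c : ℂ
  h : c ^ (n + 1) = jf g 0

variable {n : ℕ}

/-- the root of the factor of automorphy -/
def Cv.ph (a : Cv n) (z : C2) : ℂ := a.c * root (n + 1) a.g z

theorem Cv.ph_zero (a : Cv n) : a.ph 0 = a.c := by rw [Cv.ph, root_zero, mul_one]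

theorem Cv.ph_pow (a : Cv n) {z : C2} (hz : z ∈ B) : a.ph z ^ (n + 1) = jf a.g z := by
  have h0 := jf_ne_zero a.g zero_mem_B
  rw [Cv.ph, mul_pow, a.h, root_pow n.succ_pos _ hz]
  field_simp

theorem Cv.ph_ne (a : Cv n) {z : C2} (hz : z ∈ B) : a.ph z ≠ 0 := by
  intro h
  have h1 := a.ph_pow hz
  rw [h, zero_pow n.succ_ne_zero] at h1
  exact jf_ne_zero a.g hz h1.symm

theorem Cv.ph_hol (a : Cv n) : DifferentiableOn ℂ a.ph B := (root_hol _ _).const_mul _

instance : Mul (Cv n) where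
  mul a b := ⟨a.g * b.g, a.ph (act b.g 0) * b.c, by
    rw [mul_pow, a.ph_pow (act_mem _ zero_mem_B), b.h, jf_mul _ _ zero_mem_B]⟩

instance : One (Cv n) where
  one := ⟨1, 1, by rw [one_pow, jf_one]⟩

instance : Inv (Cv n) where
  inv a := ⟨a.g⁻¹, (a.ph (act a.g⁻¹ 0))⁻¹, by
    have h := jf_mul a.g a.g⁻¹ zero_mem_B
    rw [mul_inv_cancel, jf_one] at h
    rw [inv_pow, a.ph_pow (act_mem _ zero_mem_B)]
    exact (eq_inv_of_mul_eq_one_right h.symm).symm⟩

theorem mul_g (a b : Cv n) : (a * b).g = a.g * b.g := rfl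
theorem mul_c (a b : Cv n) : (a * b).c = a.ph (act b.g 0) * b.c := rfl
theorem one_g : (1 : Cv n).g = 1 := rfl
theorem one_c : (1 : Cv n).c = 1 := rfl
theorem inv_g (a : Cv n) : a⁻¹.g = a.g⁻¹ := rfl
theorem inv_c (a : Cv n) : a⁻¹.c = (a.ph (act a.g⁻¹ 0))⁻¹ := rfl

theorem ph_mul (a b : Cv n) {z : C2} (hz : z ∈ B) :
    (a * b).ph z = a.ph (act b.g z) * b.ph z := by
  refine root_unique (f₁ := (a * b).ph) (f₂ := fun w => a.ph (act b.g w) * b.ph w) n.succ_pos
    (a * b).ph_hol.continuousOn ?_ ?_ ?_ ?_ hz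
  · exact (a.ph_hol.continuousOn.comp (continuousOn_act b.g) fun w hw => act_mem _ hw).mul
      b.ph_hol.continuousOn
  · intro w hw
    show _ = (a.ph (act b.g w) * b.ph w) ^ (n + 1)
    rw [mul_pow, a.ph_pow (act_mem _ hw), b.ph_pow hw, ← jf_mul _ _ hw]
    exact (a * b).ph_pow hw
  · intro w hw
    exact mul_ne_zero (a.ph_ne (act_mem _ hw)) (b.ph_ne hw)
  · rw [Cv.ph_zero, Cv.ph_zero, mul_c]

instance : Group (Cv n) :=
  Group.ofRightAxioms
    (fun a b c => by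
      refine Cv.ext (mul_assoc _ _ _) ?_
      rw [mul_c, mul_c, mul_c, mul_g, ph_mul _ _ (act_mem _ zero_mem_B),
        act_mul _ _ zero_mem_B, mul_assoc])
    (fun a => by
      refine Cv.ext (mul_one _) ?_
      rw [mul_c, one_g, one_c, act_one, mul_one, Cv.ph_zero])
    (fun a => by
      refine Cv.ext (mul_inv_cancel _) ?_
      rw [mul_c, inv_g, inv_c, one_c, mul_inv_cancel₀ (a.ph_ne (act_mem _ zero_mem_B))])

/-- the cover -/
def cover (n : ℕ) : Cover (n + 1) (Cv n) where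
  p := MonoidHom.mk' Cv.g mul_g
  φ := Cv.ph
  hol := Cv.ph_hol
  mul := fun a b _ hz => ph_mul a b hz
  pow := fun a _ hz => a.ph_pow hz
  inj := fun a h1 h2 => Cv.ext h1 (by rw [← a.ph_zero, h2, one_c])
  full := fun g c h => ⟨⟨g, c, h⟩, rfl, Cv.ph_zero _⟩

end CovAux

theorem cov : CovStmt := by
  intro n hn
  obtain ⟨m, rfl⟩ := Nat.exists_eq_succ_of_ne_zero hn.ne'
  exact ⟨CovAux.Cv m, inferInstance, ⟨CovAux.cover m⟩⟩

end

end Pool.Agent.MP_54e5d7_al.Atc

end MrgPart0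

-- ======== part 1: formerly Pool.Agent.MP_54e5d7_al.atc.ar.Defs
section MrgPart1

/-!
PROJECT ATC, block ARITH: the order, its two complex places, the congruence subgroups and the
interfaces between LAT, AMP and NT.
-/

set_option autoImplicit false

open scoped ComplexConjugate
open Matrix

namespace Pool.Agent.MP_54e5d7_al.Atc.Ar

open Pool.Agent.MP_54e5d7_al.ATC.NT

noncomputable section

/-- the order generated by `√2` and `i` -/
abbrev O : Type := QuadraticAlgebra (ℤ√2) (-1) 0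
abbrev L3 : Type := Fin 3 → O
abbrev M3 : Type := Matrix (Fin 3) (Fin 3) O

/-- the complex place above a real place -/
def pl (t : ℤ√2 →+* ℝ) : O →+* ℂ where
  toFun x := ⟨t x.re, t x.im⟩
  map_one' := Complex.ext (map_one t) (map_zero t)
  map_zero' := by apply Complex.ext <;> simp
  map_add' x y := by apply Complex.ext <;> simp
  map_mul' x y := by apply Complex.ext <;> simp [sub_eq_add_neg]

/-- the indefinite place -/
def s1 : O →+* ℂ := pl t1
/-- the definite place -/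
def s2 : O →+* ℂ := pl t2

/-- `√2` -/
def rt : O := ⟨Zsqrtd.sqrtd, 0⟩

/-- the hermitian form over the order -/
def hO (v w : L3) : O := v 0 * star (w 0) + v 1 * star (w 1) - rt * (v 2 * star (w 2))

/-- the fourth root of two -/
def q4 : ℝ := √(√2)

/-- the embedding at the indefinite place (the form becomes `H`) -/
def e1 (v : L3) : V3 := ![s1 (v 0), s1 (v 1), q4 * s1 (v 2)]
/-- the embedding at the definite place (the form becomes `Hp`) -/
def e2 (v : L3) : V3 := ![s2 (v 0), s2 (v 1), q4 * s2 (v 2)]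

/-- the positive definite form -/
def Hp (v w : V3) : ℂ := v 0 * conj (w 0) + v 1 * conj (w 1) + v 2 * conj (w 2)

theorem pl_star (t : ℤ√2 →+* ℝ) (x : O) : pl t (star x) = conj (pl t x) := by
  apply Complex.ext <;> simp [pl]

theorem s1_star (x : O) : s1 (star x) = conj (s1 x) := pl_star _ x
theorem s2_star (x : O) : s2 (star x) = conj (s2 x) := pl_star _ x

theorem q4_pos : 0 < q4 := Real.sqrt_pos.2 (Real.sqrt_pos.2 (by norm_num))
theorem q4_sq : q4 * q4 = √2 := Real.mul_self_sqrt (Real.sqrt_nonneg _)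
theorem q4_ne : (q4 : ℂ) ≠ 0 := by exact_mod_cast q4_pos.ne'

theorem s1_rt : s1 rt = (q4 : ℂ) * q4 := by
  rw [← Complex.ofReal_mul, q4_sq]
  apply Complex.ext <;> simp [s1, pl, rt, t1_apply]

theorem s2_rt : s2 rt = -((q4 : ℂ) * q4) := by
  rw [← Complex.ofReal_mul, q4_sq]
  apply Complex.ext <;> simp [s2, pl, rt, t2_apply]

theorem H_e1 (v w : L3) : H (e1 v) (e1 w) = s1 (hO v w) := by
  simp only [H, e1, hO, map_sub, map_add, map_mul, s1_star, s1_rt, cons_val_zero, cons_val_one,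
    cons_val, Complex.conj_ofReal]
  ring

theorem Hp_e2 (v w : L3) : Hp (e2 v) (e2 w) = s2 (hO v w) := by
  simp only [Hp, e2, hO, map_sub, map_add, map_mul, s2_star, s2_rt, cons_val_zero, cons_val_one,
    cons_val, Complex.conj_ofReal]
  ring

theorem pl_eq_zero {t : ℤ√2 →+* ℝ} (ht : ∀ x : ℤ√2, x ≠ 0 → t x ≠ 0) {x : O} (h : pl t x = 0) :
    x = 0 := by
  have h1 : t x.re = 0 := congrArg Complex.re h
  have h2 : t x.im = 0 := congrArg Complex.im h
  exact QuadraticAlgebra.ext (by_contra fun h => ht _ h h1) (by_contra fun h => ht _ h h2)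

theorem s1_inj : Function.Injective s1 :=
  (injective_iff_map_eq_zero _).2 fun _ h => pl_eq_zero (fun _ => t1_ne) h

theorem s2_inj : Function.Injective s2 :=
  (injective_iff_map_eq_zero _).2 fun _ h => pl_eq_zero (fun _ => t2_ne) h

instance : IsDomain O := s1_inj.isDomain _

theorem e1_add (v w : L3) : e1 (v + w) = e1 v + e1 w := by
  ext i; fin_cases i <;> simp [e1, mul_add]
theorem e2_add (v w : L3) : e2 (v + w) = e2 v + e2 w := by
  ext i; fin_cases i <;> simp [e2, mul_add]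
theorem e1_smul (c : O) (v : L3) : e1 (c • v) = s1 c • e1 v := by
  ext i; fin_cases i <;> simp [e1, mul_left_comm]
theorem e2_smul (c : O) (v : L3) : e2 (c • v) = s2 c • e2 v := by
  ext i; fin_cases i <;> simp [e2, mul_left_comm]
theorem e1_sub (v w : L3) : e1 (v - w) = e1 v - e1 w := by
  ext i; fin_cases i <;> simp [e1, mul_sub]
theorem e2_sub (v w : L3) : e2 (v - w) = e2 v - e2 w := by
  ext i; fin_cases i <;> simp [e2, mul_sub]

theorem e1_inj : Function.Injective e1 := fun v w h => by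
  ext1 i
  apply s1_inj
  have h1 := congrFun h i
  fin_cases i
  · simpa [e1] using h1
  · simpa [e1] using h1
  · simpa [e1, q4_pos.ne'] using h1

theorem e2_inj : Function.Injective e2 := fun v w h => by
  ext1 i
  apply s2_inj
  have h1 := congrFun h i
  fin_cases i
  · simpa [e2] using h1
  · simpa [e2] using h1
  · simpa [e2, q4_pos.ne'] using h1

/-- the scaling vector -/
def sc : V3 := ![1, 1, q4]

theorem sc_ne (i : Fin 3) : sc i ≠ 0 := by fin_cases i <;> simp [sc, q4_pos.ne']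

theorem e1_apply (v : L3) (i : Fin 3) : e1 v i = sc i * s1 (v i) := by
  fin_cases i <;> simp [e1, sc]

theorem e2_apply (v : L3) (i : Fin 3) : e2 v i = sc i * s2 (v i) := by
  fin_cases i <;> simp [e2, sc]

/-- the complex matrix of an integral matrix at a place -/
def mat (s : O →+* ℂ) (A : M3) : Matrix (Fin 3) (Fin 3) ℂ :=
  Matrix.of fun i j => sc i * s (A i j) / sc j

theorem mat1_mulVec (A : M3) (v : L3) : mat s1 A *ᵥ e1 v = e1 (A *ᵥ v) := by
  ext i
  simp only [mat, mulVec, dotProduct, of_apply, e1_apply, map_sum, map_mul, Finset.mul_sum]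
  refine Finset.sum_congr rfl fun j _ => ?_
  field_simp [sc_ne j]

theorem mat2_mulVec (A : M3) (v : L3) : mat s2 A *ᵥ e2 v = e2 (A *ᵥ v) := by
  ext i
  simp only [mat, mulVec, dotProduct, of_apply, e2_apply, map_sum, map_mul, Finset.mul_sum]
  refine Finset.sum_congr rfl fun j _ => ?_
  field_simp [sc_ne j]

theorem mat_one (s : O →+* ℂ) : mat s 1 = 1 := by
  ext i j
  by_cases h : i = j
  · subst h
    simp [mat, sc_ne i]
  · simp [mat, h]

theorem mat_mul (s : O →+* ℂ) (A A' : M3) : mat s (A * A') = mat s A * mat s A' := by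
  ext i j
  simp only [mat, mul_apply, of_apply, map_sum, map_mul, Finset.mul_sum, Finset.sum_div]
  refine Finset.sum_congr rfl fun k _ => ?_
  field_simp [sc_ne k, sc_ne j]

theorem det_mat (s : O →+* ℂ) (A : M3) : (mat s A).det = s A.det := by
  simp only [det_fin_three, mat, of_apply, map_add, map_sub, map_mul, sc, cons_val_zero,
    cons_val_one, cons_val]
  have := q4_ne
  field_simp

theorem trace_mat (s : O →+* ℂ) (A : M3) : (mat s A).trace = s A.trace := by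
  simp only [trace_fin_three, mat, of_apply, map_add, sc, cons_val_zero, cons_val_one, cons_val]
  have := q4_ne
  field_simp

theorem mat1_inj : Function.Injective (mat s1) := fun A A' h => by
  ext1 i j
  apply s1_inj
  have h1 : sc i * s1 (A i j) / sc j = sc i * s1 (A' i j) / sc j := congrFun (congrFun h i) j
  rw [div_left_inj' (sc_ne j)] at h1
  exact mul_left_cancel₀ (sc_ne i) h1

/-- the principal congruence subgroup of level `M` -/
def Gam (M : ℕ) : Subgroup SU21 where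
  carrier := {g | ∃ Y : M3, g.1.1 = mat s1 (1 + (M : O) • Y)}
  one_mem' := ⟨0, by simp [mat_one]⟩
  mul_mem' := by
    rintro a b ⟨Y, hY⟩ ⟨Z, hZ⟩
    refine ⟨Y + Z + (M : O) • (Y * Z), ?_⟩
    have h : (a * b).1.1 = a.1.1 * b.1.1 := rfl
    rw [h, hY, hZ, ← mat_mul]
    congr 1
    simp only [add_mul, mul_add, one_mul, mul_one, smul_mul_assoc, mul_smul_comm, smul_add]
    abel
  inv_mem' := by
    rintro a ⟨Y, hY⟩
    have hd : (1 + (M : O) • Y).det = 1 := by
      apply s1_inj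
      rw [← det_mat, ← hY, a.1.2, map_one]
    have h1 := adjugate_mul (1 + (M : O) • Y)
    rw [hd, one_smul] at h1
    refine ⟨-(adjugate (1 + (M : O) • Y) * Y), ?_⟩
    have h2 : 1 + (M : O) • -(adjugate (1 + (M : O) • Y) * Y) = adjugate (1 + (M : O) • Y) := by
      have h6 := h1
      rw [mul_add, mul_one, mul_smul_comm] at h6
      rw [smul_neg, ← sub_eq_add_neg, sub_eq_iff_eq_add, h6]
    have h3 : a.1.1 * a⁻¹.1.1 = 1 := by
      have h4 : (a * a⁻¹).1.1 = 1 := by rw [mul_inv_cancel]; rfl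
      exact h4
    have h5 : mat s1 (adjugate (1 + (M : O) • Y)) * a.1.1 = 1 := by
      rw [hY, ← mat_mul, h1, mat_one]
    rw [h2, ← one_mul a⁻¹.1.1, ← h5, mul_assoc, h3, mul_one]

/-- the integral matrix of an element of the congruence subgroup -/
def rep (M : ℕ) : ↥(Gam M) →* M3 where
  toFun g := 1 + (M : O) • g.2.choose
  map_one' := mat1_inj (by rw [← (1 : ↥(Gam M)).2.choose_spec, mat_one]; rfl)
  map_mul' a b := mat1_inj (by
    rw [← (a * b).2.choose_spec, mat_mul, ← a.2.choose_spec, ← b.2.choose_spec]; rfl)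

variable {M : ℕ}

theorem mat_rep (g : ↥(Gam M)) : mat s1 (rep M g) = g.1.1.1 := g.2.choose_spec.symm

theorem rep_cong (g : ↥(Gam M)) : ∃ Y : M3, rep M g = 1 + (M : O) • Y := ⟨_, rfl⟩

theorem mv_e1 (g : ↥(Gam M)) (v : L3) : mv g.1 (e1 v) = e1 (rep M g *ᵥ v) := by
  rw [← mat1_mulVec, mat_rep, mv]

theorem rep_det (g : ↥(Gam M)) : (rep M g).det = 1 :=
  s1_inj (by rw [← det_mat, mat_rep, g.1.1.2, map_one])

theorem rep_hO (g : ↥(Gam M)) (v w : L3) : hO (rep M g *ᵥ v) (rep M g *ᵥ w) = hO v w :=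
  s1_inj (by rw [← H_e1, ← H_e1, ← mv_e1, ← mv_e1, H_mv])

theorem rep_inj : Function.Injective (rep M) := fun a b h =>
  Subtype.ext (Subtype.ext (Subtype.ext (by rw [← mat_rep, ← mat_rep, h])))

theorem H_basis {A : Matrix (Fin 3) (Fin 3) ℂ}
    (h : ∀ i j, H (A *ᵥ e1 (Pi.single i 1)) (A *ᵥ e1 (Pi.single j 1)) =
      H (e1 (Pi.single i 1)) (e1 (Pi.single j 1))) (v w : V3) :
    H (A *ᵥ v) (A *ᵥ w) = H v w := by
  have h00 := h 0 0
  have h01 := h 0 1
  have h02 := h 0 2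
  have h10 := h 1 0
  have h11 := h 1 1
  have h12 := h 1 2
  have h20 := h 2 0
  have h21 := h 2 1
  have h22 := h 2 2
  simp [H, e1, mulVec, dotProduct, Fin.sum_univ_three] at h00 h01 h02 h10 h11 h12 h20 h21 h22 ⊢
  have hq := q4_ne
  have k02 : A 0 0 * conj (A 0 2) + A 1 0 * conj (A 1 2) - A 2 0 * conj (A 2 2) = 0 :=
    mul_left_cancel₀ hq (by linear_combination h02)
  have k12 : A 0 1 * conj (A 0 2) + A 1 1 * conj (A 1 2) - A 2 1 * conj (A 2 2) = 0 :=
    mul_left_cancel₀ hq (by linear_combination h12)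
  have k20 : A 0 2 * conj (A 0 0) + A 1 2 * conj (A 1 0) - A 2 2 * conj (A 2 0) = 0 :=
    mul_left_cancel₀ hq (by linear_combination h20)
  have k21 : A 0 2 * conj (A 0 1) + A 1 2 * conj (A 1 1) - A 2 2 * conj (A 2 1) = 0 :=
    mul_left_cancel₀ hq (by linear_combination h21)
  have k22 : A 0 2 * conj (A 0 2) + A 1 2 * conj (A 1 2) - A 2 2 * conj (A 2 2) = -1 :=
    mul_left_cancel₀ (mul_ne_zero hq hq) (by linear_combination h22)
  linear_combination v 0 * conj (w 0) * h00 + v 0 * conj (w 1) * h01 + v 0 * conj (w 2) * k02 +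
    v 1 * conj (w 0) * h10 + v 1 * conj (w 1) * h11 + v 1 * conj (w 2) * k12 +
    v 2 * conj (w 0) * k20 + v 2 * conj (w 1) * k21 + v 2 * conj (w 2) * k22

/-- an integral unitary matrix of determinant one and level `M` comes from `Gam M` -/
theorem exists_rep {A : M3} (hd : A.det = 1) (hh : ∀ v w, hO (A *ᵥ v) (A *ᵥ w) = hO v w)
    (hc : ∃ Y : M3, A = 1 + (M : O) • Y) : ∃ g : ↥(Gam M), rep M g = A := by
  obtain ⟨Y, hY⟩ := hc
  let g : SU21 := ⟨⟨mat s1 A, by rw [det_mat, hd, map_one]⟩,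
    H_basis fun i j => by rw [mat1_mulVec, mat1_mulVec, H_e1, H_e1, hh]⟩
  exact ⟨⟨g, Y, congrArg (mat s1) hY⟩, mat1_inj (mat_rep _)⟩

theorem Gam_anti {M N : ℕ} (h : M ∣ N) : Gam N ≤ Gam M := by
  rintro g ⟨Y, hY⟩
  obtain ⟨c, rfl⟩ := h
  exact ⟨(c : O) • Y, by rw [hY, smul_smul, Nat.cast_mul]⟩

/-- the vectors whose discs form the divisor -/
def VT (T : ℝ) : Set L3 :=
  {v | (∃ u : L3, v = ![1, 0, 0] + (17 : O) • u) ∧ 0 < (H (e1 v) (e1 v)).re ∧
    (H (e1 v) (e1 v)).re ≤ 2 * T ∧ (Hp (e2 v) (e2 v)).re ≤ T}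

/-- `X` contains exactly one unit vector on each line through a vector of `VT T` -/
def Reps (T : ℝ) (X : Set V3) : Prop :=
  (∀ v ∈ VT T, ∃ x ∈ X, ∃ c : ℂ, e1 v = c • x) ∧
    ∀ x ∈ X, ∃ v ∈ VT T, ∃ c : ℝ, 0 < c ∧ e1 v = (c : ℂ) • x

/-- LAT -/
def LatStmt : Prop :=
  Lat (Gam 17) ∧ (∀ k, (Gam (17 ^ (k + 1))).relIndex (Gam 17) ≠ 0) ∧
    (∀ L : ℝ, ∃ k, Deep (Gam (17 ^ (k + 1))) L) ∧
    ∀ T : ℝ, ∃ (X : Set V3) (ε : ℝ), Discs (Gam 17) X ε ∧ Reps T X

/-- bounded sets of lattice vectors are finite; the lattice has finite covering radius -/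
def GridStmt : Prop :=
  (∀ R : ℝ, {v : L3 | ‖e1 v‖ ≤ R ∧ ‖e2 v‖ ≤ R}.Finite) ∧
    ∃ R : ℝ, ∀ w₁ w₂ : V3, ∃ u : L3, ‖w₁ - e1 ((17 : O) • u)‖ ≤ R ∧ ‖w₂ - e2 ((17 : O) • u)‖ ≤ R

/-- AMP -/
def AmpStmt : Prop :=
  ∀ r < (1 : ℝ), ∀ c : ℝ, ∃ T : ℝ, ∀ (X : Set V3) (ε : ℝ), Discs (Gam 17) X ε → Reps T X →
    ∃ m : V3 → ℕ, Weight (Gam 17) X m r c

/-- NT -/
def NtStmt : Prop :=
  ∀ (k : ℕ) (T : ℝ) (X : Set V3) (ε : ℝ), Lat (Gam (17 ^ (k + 1))) →
    Discs (Gam (17 ^ (k + 1))) X ε → Reps T X → Tower (Gam (17 ^ (k + 1))) X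

end

end Pool.Agent.MP_54e5d7_al.Atc.Ar

end MrgPart1

-- ======== part 2: formerly Pool.Agent.MP_54e5d7_al.atc.amp.Spec
section MrgPart2

/-!
PROJECT ATC, block AMP: the interface.
-/

set_option autoImplicit false

namespace Pool.Agent.MP_54e5d7_al.Atc

/-- the definite form -/
noncomputable def n2 (v : V3) : ℝ := ‖v 0‖ ^ 2 + ‖v 1‖ ^ 2 + ‖v 2‖ ^ 2

/-- A coset `Vec` of a lattice `Λ` with its two embeddings. -/
structure Grid (Γ : Subgroup SU21) {Λ : Type} [AddCommGroup Λ] (e1 e2 : Λ →+ V3)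
    (Vec : Set Λ) : Prop where
  ne : Vec.Nonempty
  inj : Function.Injective e1
  fin : ∀ R : ℝ, {v | v ∈ Vec ∧ ‖e1 v‖ ≤ R ∧ ‖e2 v‖ ≤ R}.Finite
  den : ∃ R : ℝ, ∀ w1 w2 : V3, ∃ u, ‖e1 u - w1‖ ≤ R ∧ ‖e2 u - w2‖ ≤ R ∧ ∀ v ∈ Vec, v + u ∈ Vec
  inv : ∀ γ ∈ Γ, ∀ v ∈ Vec, ∃ v' ∈ Vec, e1 v' = mv γ (e1 v) ∧ n2 (e2 v') = n2 (e2 v)
  rigid : ∀ γ ∈ Γ, ∀ v ∈ Vec, ∀ c : ℂ, mv γ (e1 v) = c • e1 v → mv γ (e1 v) = e1 v
  gap : ∀ T : ℝ, ∃ δ : ℝ, 0 < δ ∧ ∀ v ∈ Vec, ∀ w ∈ Vec, n2 (e2 v) ≤ T → n2 (e2 w) ≤ T →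
    (∃ c : ℂ, e1 w = c • e1 v) ∨
      δ ≤ |(H (e1 v) (e1 v)).re * (H (e1 w) (e1 w)).re - ‖H (e1 v) (e1 w)‖ ^ 2|

/-- AMP: the ample divisor. -/
def AmpGridStmt : Prop :=
  ∀ (Γ : Subgroup SU21) (Λ : Type) [AddCommGroup Λ] (e1 e2 : Λ →+ V3) (Vec : Set Λ),
    Grid Γ e1 e2 Vec → ∀ r < (1 : ℝ), ∀ c : ℝ, ∃ (X : Set V3) (m : V3 → ℕ) (ε : ℝ),
      Discs Γ X ε ∧ Weight Γ X m r c ∧ ∀ x ∈ X, ∃ v ∈ Vec, ∃ a : ℂ, x = a • e1 v

end Pool.Agent.MP_54e5d7_al.Atc

end MrgPart2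

-- ======== part 3: formerly Pool.Agent.MP_54e5d7_al.atc.ar.Spec
section MrgPart3

/-!
PROJECT ATC, block ARITH: the interfaces actually used.
-/

set_option autoImplicit false

namespace Pool.Agent.MP_54e5d7_al.Atc.Ar

/-- the coset of vectors -/
def Vec : Set L3 := {v | ∃ u : L3, v = ![1, 0, 0] + (17 : O) • u}

/-- cocompactness -/
def CocptStmt : Prop :=
  ∃ r < (1 : ℝ), ∀ z ∈ B, ∃ γ ∈ Gam 17, act γ z ∈ Bl r

/-- the tower -/
def TowStmt : Prop :=
  ∀ (k : ℕ) (X : Set V3) (ε : ℝ), Lat (Gam (17 ^ (k + 1))) → Discs (Gam (17 ^ (k + 1))) X ε →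
    (∀ x ∈ X, ∃ v ∈ Vec, ∃ a : ℂ, x = a • e1 v) → Tower (Gam (17 ^ (k + 1))) X

end Pool.Agent.MP_54e5d7_al.Atc.Ar

end MrgPart3

-- ======== part 4: formerly Pool.Agent.MP_54e5d7_al.atc.ar.Basic
section MrgPart4

/-!
PROJECT ATC, block ARITH: the order is a lattice; the coset of vectors is a grid.
-/

set_option autoImplicit false

open scoped ComplexConjugate
open Matrix

namespace Pool.Agent.MP_54e5d7_al.Atc.Ar

open Pool.Agent.MP_54e5d7_al.ATC.NT

theorem norm_pl (t : ℤ√2 →+* ℝ) (x : O) : ‖pl t x‖ ^ 2 = t (x.re * x.re + x.im * x.im) := by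
  rw [Complex.sq_norm, Complex.normSq_apply, map_add, map_mul, map_mul]
  rfl

/-- the product formula -/
theorem one_le {x : O} (hx : x ≠ 0) : 1 ≤ ‖s1 x‖ * ‖s2 x‖ := by
  have h1 : (‖s1 x‖ * ‖s2 x‖) ^ 2 = ((x.re * x.re + x.im * x.im).norm : ℝ) := by
    rw [mul_pow, s1, s2, norm_pl, norm_pl, t1_mul_t2]
  have h2 : 0 < ‖s1 x‖ * ‖s2 x‖ :=
    mul_pos (norm_pos_iff.2 fun h => hx (s1_inj (h.trans (map_zero _).symm)))
      (norm_pos_iff.2 fun h => hx (s2_inj (h.trans (map_zero _).symm)))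
  have h3 : (0 : ℝ) < ((x.re * x.re + x.im * x.im).norm : ℝ) := h1 ▸ pow_pos h2 2
  have h4 : (1 : ℤ) ≤ (x.re * x.re + x.im * x.im).norm := by exact_mod_cast h3
  have h5 : (1 : ℝ) ≤ ((x.re * x.re + x.im * x.im).norm : ℝ) := by exact_mod_cast h4
  nlinarith

theorem eq_zero_of_lt {x : O} (h : ‖s1 x‖ * ‖s2 x‖ < 1) : x = 0 :=
  by_contra fun hx => absurd (one_le hx) (not_le.2 h)

theorem finite_O (R : ℝ) : {x : O | ‖s1 x‖ ≤ R ∧ ‖s2 x‖ ≤ R}.Finite := by
  refine Set.Finite.of_finite_image (f := fun x : O => (x.re, x.im))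
    (((bdd_finite R).prod (bdd_finite R)).subset ?_)
    fun x _ y _ h => QuadraticAlgebra.ext (congrArg Prod.fst h) (congrArg Prod.snd h)
  rintro _ ⟨x, ⟨h1, h2⟩, rfl⟩
  exact ⟨⟨(Complex.abs_re_le_norm (s1 x)).trans h1, (Complex.abs_re_le_norm (s2 x)).trans h2⟩,
    (Complex.abs_im_le_norm (s1 x)).trans h1, (Complex.abs_im_le_norm (s2 x)).trans h2⟩

theorem one_le_q4 : 1 ≤ q4 := by
  rw [q4, Real.one_le_sqrt, Real.one_le_sqrt]
  norm_num

theorem q4_le : q4 ≤ 2 := by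
  have h1 : √2 ≤ (2 : ℝ) := Real.sqrt_le_iff.2 ⟨by norm_num, by norm_num⟩
  nlinarith [q4_sq, q4_pos]

theorem norm_sc (i : Fin 3) : 1 ≤ ‖sc i‖ ∧ ‖sc i‖ ≤ 2 := by
  fin_cases i
  · simp [sc]
  · simp [sc]
  · simpa [sc, abs_of_pos q4_pos] using ⟨one_le_q4, q4_le⟩

theorem le_sc (i : Fin 3) (a : ℂ) : ‖a‖ ≤ ‖sc i * a‖ := by
  rw [norm_mul]
  exact le_mul_of_one_le_left (norm_nonneg _) (norm_sc i).1

theorem finite_L3 (R : ℝ) : {v : L3 | ‖e1 v‖ ≤ R ∧ ‖e2 v‖ ≤ R}.Finite := by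
  refine (Set.Finite.pi' fun _ : Fin 3 => finite_O R).subset ?_
  rintro v ⟨h1, h2⟩ i
  exact ⟨(le_sc i _).trans (e1_apply v i ▸ (norm_le_pi_norm _ i).trans h1),
    (le_sc i _).trans (e2_apply v i ▸ (norm_le_pi_norm _ i).trans h2)⟩

theorem finite_M3 (R : ℝ) :
    {A : M3 | ∀ i j, ‖mat s1 A i j‖ ≤ R ∧ ‖mat s2 A i j‖ ≤ R}.Finite := by
  refine (Set.Finite.pi' fun _ : Fin 3 => Set.Finite.pi' fun _ : Fin 3 =>
    finite_O (2 * R)).subset ?_
  have key : ∀ (a : ℂ) (i j : Fin 3), ‖sc i * a / sc j‖ ≤ R → ‖a‖ ≤ 2 * R := fun a i j h => by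
    have h1 := norm_sc j
    rw [norm_div, div_le_iff₀ (by linarith)] at h
    have h2 : 0 ≤ R := by
      by_contra h3
      nlinarith [norm_nonneg (sc i * a)]
    nlinarith [le_sc i a]
  exact fun A h i j => ⟨key _ i j (h i j).1, key _ i j (h i j).2⟩

theorem cover_real (a b : ℝ) : ∃ x : ℤ√2, |t1 x - a| ≤ 2 ∧ |t2 x - b| ≤ 2 := by
  have h0 : (0 : ℝ) < √2 := Real.sqrt_pos.2 (by norm_num)
  have h1 : √2 ≤ (2 : ℝ) := Real.sqrt_le_iff.2 ⟨by norm_num, by norm_num⟩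
  obtain ⟨c, hc⟩ : ∃ c : ℝ, a - b = 2 * (c * √2) := ⟨(a - b) / (2 * √2), by field_simp⟩
  have h2 := abs_le.1 (abs_sub_round ((a + b) / 2))
  have h3 := abs_le.1 (abs_sub_round c)
  refine ⟨⟨round ((a + b) / 2), round c⟩, ?_, ?_⟩
  · rw [t1_apply, abs_le]
    constructor <;> nlinarith
  · rw [t2_apply, abs_le]
    constructor <;> nlinarith

theorem cover_O (a b : ℂ) : ∃ x : O, ‖s1 x - a‖ ≤ 4 ∧ ‖s2 x - b‖ ≤ 4 := by
  obtain ⟨x, h1, h2⟩ := cover_real a.re b.re
  obtain ⟨y, h3, h4⟩ := cover_real a.im b.im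
  refine ⟨⟨x, y⟩, (Complex.norm_le_abs_re_add_abs_im _).trans ?_,
    (Complex.norm_le_abs_re_add_abs_im _).trans ?_⟩
  · have : |(s1 ⟨x, y⟩ - a).re| = |t1 x - a.re| := rfl
    have : |(s1 ⟨x, y⟩ - a).im| = |t1 y - a.im| := rfl
    linarith
  · have : |(s2 ⟨x, y⟩ - b).re| = |t2 x - b.re| := rfl
    have : |(s2 ⟨x, y⟩ - b).im| = |t2 y - b.im| := rfl
    linarith

/-- covering by the multiples of a nonzero element -/
theorem cover_mul {m : O} (hm : m ≠ 0) (a b : ℂ) :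
    ∃ x : O, ‖s1 (m * x) - a‖ ≤ 4 * ‖s1 m‖ ∧ ‖s2 (m * x) - b‖ ≤ 4 * ‖s2 m‖ := by
  have h1 : s1 m ≠ 0 := fun h => hm (s1_inj (h.trans (map_zero _).symm))
  have h2 : s2 m ≠ 0 := fun h => hm (s2_inj (h.trans (map_zero _).symm))
  obtain ⟨x, h3, h4⟩ := cover_O (a / s1 m) (b / s2 m)
  refine ⟨x, ?_, ?_⟩
  · rw [show s1 (m * x) - a = (s1 x - a / s1 m) * s1 m by rw [map_mul]; field_simp, norm_mul]
    gcongr
  · rw [show s2 (m * x) - b = (s2 x - b / s2 m) * s2 m by rw [map_mul]; field_simp, norm_mul]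
    gcongr

/-- finitely many residues modulo a nonzero element -/
theorem residues {m : O} (hm : m ≠ 0) : ∃ F : Set O, F.Finite ∧ ∀ x : O, ∃ y ∈ F, m ∣ x - y := by
  refine ⟨_, finite_O (4 * ‖s1 m‖ + 4 * ‖s2 m‖), fun x => ?_⟩
  obtain ⟨u, h1, h2⟩ := cover_mul hm (s1 x) (s2 x)
  refine ⟨x - m * u, ⟨?_, ?_⟩, u, by ring⟩
  · rw [map_sub, norm_sub_rev]
    linarith [norm_nonneg (s2 m)]
  · rw [map_sub, norm_sub_rev]
    linarith [norm_nonneg (s1 m)]

theorem finite_quot {m : O} (hm : m ≠ 0) : Finite (O ⧸ Ideal.span {m}) := by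
  obtain ⟨F, hF, h⟩ := residues hm
  have := hF.to_subtype
  refine Finite.of_surjective (fun y : F => Ideal.Quotient.mk (Ideal.span {m}) y.1) fun q => ?_
  obtain ⟨x, rfl⟩ := Ideal.Quotient.mk_surjective q
  obtain ⟨y, hy, h1⟩ := h x
  exact ⟨⟨y, hy⟩, (Ideal.Quotient.eq.2 (Ideal.mem_span_singleton.2 h1)).symm⟩

theorem natCast_ne {M : ℕ} (hM : M ≠ 0) : (M : O) ≠ 0 := Nat.cast_ne_zero.2 hM

/-- congruence subgroups have finite index in each other -/
theorem Gam_relIndex (M : ℕ) {N : ℕ} (hN : N ≠ 0) : (Gam N).relIndex (Gam M) ≠ 0 := by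
  have := finite_quot (natCast_ne hN)
  let φ : ↥(Gam M) →* Matrix (Fin 3) (Fin 3) (O ⧸ Ideal.span {(N : O)}) :=
    (Ideal.Quotient.mk (Ideal.span {(N : O)})).mapMatrix.toMonoidHom.comp (rep M)
  have h1 : φ.toHomUnits.ker.FiniteIndex := Subgroup.finiteIndex_ker _
  have h2 : φ.toHomUnits.ker ≤ (Gam N).subgroupOf (Gam M) := by
    intro g hg
    have h3 : φ g = 1 := congrArg Units.val (MonoidHom.mem_ker.1 hg)
    have h4 : ∀ i j, ∃ y : O, rep M g i j - (1 : M3) i j = (N : O) * y := fun i j => by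
      refine Ideal.mem_span_singleton.1 (Ideal.Quotient.eq.1 ?_)
      have h5 : Ideal.Quotient.mk (Ideal.span {(N : O)}) (rep M g i j) = _ :=
        congrFun (congrFun h3 i) j
      rw [h5]
      by_cases h : i = j <;> simp [one_apply, h]
    choose Y hY using h4
    refine ⟨Matrix.of Y, (mat_rep g).symm.trans ?_⟩
    congr 1
    ext1 i j
    rw [Matrix.add_apply, Matrix.smul_apply, of_apply, smul_eq_mul, ← hY]
    ring
  exact (Subgroup.finiteIndex_of_le h2).index_ne_zero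

end Pool.Agent.MP_54e5d7_al.Atc.Ar

end MrgPart4

-- ======== part 5: formerly Pool.Agent.MP_54e5d7_al.atc.amp.Reps
section MrgPart5

/-!
Equivariant unit vectors on the lines spanned by an invariant set of positive vectors.
-/

set_option autoImplicit false

open scoped ComplexConjugate
open Set

namespace Pool.Agent.MP_54e5d7_al.Atc.AmpL

/-- an invariant, locally finite set of positive vectors -/
structure Pos (Γ : Subgroup SU21) (P : Set V3) (δ : ℝ) : Prop where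
  pos : ∀ v ∈ P, 0 < (H v v).re
  le : ∀ v ∈ P, (H v v).re ≤ 2
  inv : ∀ γ ∈ Γ, ∀ v ∈ P, mv γ v ∈ P
  fin : ∀ R : ℝ, {v | v ∈ P ∧ ‖v‖ ≤ R}.Finite
  rigid : ∀ γ ∈ Γ, ∀ v ∈ P, ∀ c : ℂ, mv γ v = c • v → mv γ v = v
  dpos : 0 < δ
  gap : ∀ v ∈ P, ∀ w ∈ P, (∃ c : ℂ, w = c • v) ∨ δ ≤ |(H v v).re * (H w w).re - ‖H v w‖ ^ 2|

lemma H_smul_re (a : ℂ) (v : V3) : (H (a • v) (a • v)).re = ‖a‖ ^ 2 * (H v v).re := by
  rw [H_smul_left, H_smul_right, ← mul_assoc, Complex.mul_conj']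
  norm_cast
  exact Complex.re_ofReal_mul _ _

lemma norm_H_smul (a b : ℂ) (v w : V3) : ‖H (a • v) (b • w)‖ = ‖a‖ * ‖b‖ * ‖H v w‖ := by
  rw [H_smul_left, H_smul_right, norm_mul, norm_mul, Complex.norm_conj, mul_assoc]

variable {Γ : Subgroup SU21} {P : Set V3} {δ : ℝ}

lemma Pos.ne_zero (h : Pos Γ P δ) {v x : V3} (hv : v ∈ P) {a : ℂ} (ha : v = a • x) : a ≠ 0 := by
  rintro rfl
  have := h.pos v hv
  rw [ha, H_smul_re] at this
  simp at this

lemma Pos.exists_reps (h : Pos Γ P δ) : ∃ X : Set V3, (∀ x ∈ X, H x x = 1) ∧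
    (∀ γ ∈ Γ, ∀ x ∈ X, mv γ x ∈ X) ∧ (∀ x ∈ X, ∀ y ∈ X, ∀ c : ℂ, y = c • x → y = x) ∧
    (∀ v ∈ P, ∃ x ∈ X, ∃ a : ℂ, v = a • x) ∧ ∀ x ∈ X, ∃ v ∈ P, ∃ a : ℂ, x = a • v := by
  let R : V3 → V3 → Prop := fun v u => u ∈ P ∧ ∃ γ ∈ Γ, ∃ c : ℂ, c ≠ 0 ∧ v = c • mv γ u
  let b : V3 → V3 := fun v => Classical.epsilon (R v)
  have hb : ∀ v ∈ P, R v (b v) := fun v hv =>
    Classical.epsilon_spec ⟨v, hv, 1, Γ.one_mem, 1, one_ne_zero, by rw [mv_one, one_smul]⟩
  have hR : ∀ v w : V3, ∀ γ ∈ Γ, ∀ c : ℂ, c ≠ 0 → w = c • mv γ v → ∀ u, R v u → R w u := by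
    rintro v w γ hγ c hc rfl u ⟨hu, γ', hγ', c', hc', rfl⟩
    exact ⟨hu, γ * γ', Γ.mul_mem hγ hγ', c * c', mul_ne_zero hc hc', by
      rw [mv_smul, mv_mul, mul_smul]⟩
  have hinv : ∀ (v w : V3) (γ : SU21) (c : ℂ), c ≠ 0 → w = c • mv γ v → v = c⁻¹ • mv γ⁻¹ w := by
    rintro v w γ c hc rfl
    rw [mv_smul, mv_inv_mv, inv_smul_smul₀ hc]
  have hbb : ∀ v w : V3, ∀ γ ∈ Γ, ∀ c : ℂ, c ≠ 0 → w = c • mv γ v → b w = b v := by
    intro v w γ hγ c hc e
    have : R w = R v := funext fun u => propext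
      ⟨hR w v γ⁻¹ (Γ.inv_mem hγ) c⁻¹ (inv_ne_zero hc) (hinv v w γ c hc e) u, hR v w γ hγ c hc e u⟩
    simp only [b, this]
  let k : V3 → ℂ := fun u => ((√(H u u).re)⁻¹ : ℝ)
  have hk : ∀ u ∈ P, k u ≠ 0 := fun u hu => by
    have := Real.sqrt_pos.2 (h.pos u hu)
    simp only [k]
    exact_mod_cast (inv_pos.2 this).ne'
  refine ⟨{x | ∃ v ∈ P, ∃ γ ∈ Γ, x = k (b v) • mv γ (b v)}, ?_, ?_, ?_, ?_, ?_⟩
  · rintro _ ⟨v, hv, γ, -, rfl⟩
    have h1 := h.pos _ (hb v hv).1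
    have h2 : H (b v) (b v) = (((H (b v) (b v)).re : ℝ) : ℂ) := by rw [H_self_re, H_self]
    rw [H_smul_left, H_smul_right, H_mv, h2]
    simp only [k, Complex.conj_ofReal]
    norm_cast
    have h3 := Real.sqrt_pos.2 h1
    field_simp
    exact (Real.sq_sqrt h1.le).symm
  · rintro γ' hγ' _ ⟨v, hv, γ, hγ, rfl⟩
    exact ⟨v, hv, γ' * γ, Γ.mul_mem hγ' hγ, by rw [mv_smul, mv_mul]⟩
  · rintro _ ⟨v, hv, γ, hγ, rfl⟩ _ ⟨w, hw, γ', hγ', rfl⟩ c e
    have h1 := hk _ (hb v hv).1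
    have h2 := hk _ (hb w hw).1
    have e1 : mv γ' (b w) = ((k (b w))⁻¹ * c * k (b v)) • mv γ (b v) := by
      rw [mul_smul, mul_smul, ← e, inv_smul_smul₀ h2]
    have hc : (k (b w))⁻¹ * c * k (b v) ≠ 0 := h.ne_zero (h.inv γ' hγ' _ (hb w hw).1) e1
    have e2 : b w = ((k (b w))⁻¹ * c * k (b v)) • mv (γ'⁻¹ * γ) (b v) := by
      rw [mv_mul, ← mv_smul, ← e1, mv_inv_mv]
    obtain ⟨-, γ1, hγ1, c1, hc1, f1⟩ := hb v hv
    obtain ⟨-, γ2, hγ2, c2, hc2, f2⟩ := hb w hw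
    have e3 : b w = b v := by
      rw [hbb _ _ γ2 hγ2 c2 hc2 f2, hbb _ _ _ (Γ.mul_mem (Γ.inv_mem hγ') hγ) _ hc e2,
        ← hbb _ _ γ1 hγ1 c1 hc1 f1]
    rw [e3] at e2 hc ⊢
    have e4 : mv (γ'⁻¹ * γ) (b v) = b v := by
      refine h.rigid _ (Γ.mul_mem (Γ.inv_mem hγ') hγ) _ (hb v hv).1
        ((k (b v))⁻¹ * c * k (b v))⁻¹ ?_
      rw [eq_inv_smul_iff₀ hc, ← e2]
    have e5 : mv γ (b v) = mv γ' (b v) := by
      conv_rhs => rw [← e4, mv_mul, mv_mv_inv]
    rw [e5]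
  · intro v hv
    obtain ⟨h1, γ, hγ, c, -, e⟩ := hb v hv
    refine ⟨_, ⟨v, hv, γ, hγ, rfl⟩, c * (k (b v))⁻¹, ?_⟩
    rw [mul_smul, inv_smul_smul₀ (hk _ h1)]
    exact e
  · rintro _ ⟨v, hv, γ, hγ, rfl⟩
    exact ⟨_, h.inv γ hγ _ (hb v hv).1, _, rfl⟩

lemma Pos.norm_le (h : Pos Γ P δ) {v x : V3} (hv : v ∈ P) (hx : H x x = 1) {a : ℂ}
    (ha : v = a • x) : ‖v‖ ≤ 2 * ‖x‖ := by
  have h1 := h.le v hv
  rw [ha, H_smul_re, hx, Complex.one_re, mul_one] at h1
  rw [ha, norm_smul]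
  exact mul_le_mul_of_nonneg_right (by nlinarith [norm_nonneg a]) (norm_nonneg _)

lemma norm_unit_le {x : V3} (hx : H x x = 1) {R : ℝ} (hR : ‖x 2‖ ≤ R) : ‖x‖ ≤ 1 + R := by
  have h1 := H_self_re x
  rw [hx, Complex.one_re] at h1
  have h2 := norm_nonneg (x 2)
  have h3 := pow_le_pow_left₀ h2 hR 2
  refine (pi_norm_le_iff_of_nonneg (by linarith)).2 fun i => ?_
  refine (pow_le_pow_iff_left₀ (norm_nonneg _) (by linarith) two_ne_zero).1 ?_
  have h4 := sq_nonneg ‖x 0‖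
  have h5 := sq_nonneg ‖x 1‖
  fin_cases i
  · simp only [Fin.zero_eta]; nlinarith
  · simp only [Fin.mk_one]; nlinarith
  · simp only [Fin.reduceFinMk]; nlinarith

lemma Pos.sep (h : Pos Γ P δ) {x y v w : V3} (hx : H x x = 1) (hy : H y y = 1) (hv : v ∈ P)
    (hw : w ∈ P) {a b : ℂ} (ha : x = a • v) (hb : y = b • w) :
    (∃ c : ℂ, y = c • x) ∨ δ / 4 ≤ |1 - ‖H x y‖ ^ 2| := by
  have h1 := H_smul_re a v
  have h2 := H_smul_re b w
  rw [← ha, hx, Complex.one_re] at h1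
  rw [← hb, hy, Complex.one_re] at h2
  rcases h.gap v hv w hw with ⟨c, hc⟩ | hg
  · have : a ≠ 0 := by
      rintro rfl
      simp at h1
    exact Or.inl ⟨b * c * a⁻¹, by rw [hb, hc, ha, mul_smul, mul_smul, inv_smul_smul₀ this]⟩
  · right
    have e : 1 - ‖H x y‖ ^ 2 =
        ‖a‖ ^ 2 * ‖b‖ ^ 2 * ((H v v).re * (H w w).re - ‖H v w‖ ^ 2) := by
      rw [ha, hb, norm_H_smul]
      linear_combination (‖b‖ ^ 2 * (H w w).re) * h1 + h2
    have k1 : 1 / 2 ≤ ‖a‖ ^ 2 := by nlinarith [h.le v hv, sq_nonneg ‖a‖]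
    have k2 : 1 / 2 ≤ ‖b‖ ^ 2 := by nlinarith [h.le w hw, sq_nonneg ‖b‖]
    have k3 : 1 / 2 * (1 / 2) ≤ ‖a‖ ^ 2 * ‖b‖ ^ 2 := by gcongr
    rw [e, abs_mul, abs_of_nonneg (by positivity)]
    have := mul_le_mul k3 hg h.dpos.le (by positivity)
    linarith

end Pool.Agent.MP_54e5d7_al.Atc.AmpL

end MrgPart5

-- ======== part 6: formerly Pool.Agent.MP_54e5d7_al.atc.amp.Count
section MrgPart6

/-!
Points of a translation invariant set in a large ball are at most `M` times as many as those in a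
small ball.
-/

set_option autoImplicit false

namespace Pool.Agent.MP_54e5d7_al.ATC.Amp

lemma count_le (F : Type) [NormedAddCommGroup F] [ProperSpace F] (A η : ℝ) (hη : 0 < η) :
    ∃ M : ℕ, ∀ (W : Type) [AddCommGroup W] (X : Set W) (L : W →+ F) (c : F) (bad good : Finset W),
      (∀ v ∈ bad, v ∈ X ∧ ‖L v‖ ≤ A) → (∀ v ∈ X, ‖L v - c‖ ≤ η → v ∈ good) →
      (∀ w : W, ∃ u, ‖L u + L w - c‖ ≤ η / 2 ∧ ∀ x ∈ X, x + u ∈ X) →
      bad.card ≤ M * good.card := by
  classical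
  obtain ⟨t, ht, hcov⟩ := Metric.totallyBounded_iff.1
    (isCompact_closedBall (0 : F) A).totallyBounded (η / 4) (by positivity)
  refine ⟨ht.toFinset.card, fun W _ X L c bad good hbad hgood hden => ?_⟩
  have h1 : bad ⊆ ht.toFinset.biUnion fun y => bad.filter fun v => L v ∈ Metric.ball y (η / 4) := by
    intro v hv
    have := hcov (mem_closedBall_zero_iff.2 (hbad v hv).2)
    simp only [Set.mem_iUnion] at this
    obtain ⟨y, hy, hy'⟩ := this
    exact Finset.mem_biUnion.2 ⟨y, ht.mem_toFinset.2 hy, Finset.mem_filter.2 ⟨hv, hy'⟩⟩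
  refine (Finset.card_le_card h1).trans (Finset.card_biUnion_le.trans ?_)
  refine (Finset.sum_le_card_nsmul _ _ good.card fun y _ => ?_).trans (by simp)
  rcases (bad.filter fun v => L v ∈ Metric.ball y (η / 4)).eq_empty_or_nonempty with h | ⟨v0, h⟩
  · rw [h]
    exact Nat.zero_le _
  obtain ⟨u, hu, hu'⟩ := hden v0
  refine Finset.card_le_card_of_injOn (fun v => v + u) (fun v hv => ?_)
    (fun a _ b _ hab => add_right_cancel hab)
  have hv' := Finset.mem_filter.1 (Finset.mem_coe.1 hv)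
  have h0 := (Finset.mem_filter.1 h).2
  refine Finset.mem_coe.2 (hgood _ (hu' v (hbad v hv'.1).1) ?_)
  have e : L (v + u) - c = (L v - y) - (L v0 - y) + (L u + L v0 - c) := by
    simp only [map_add]
    abel
  have h2 := hv'.2
  rw [Metric.mem_ball, dist_eq_norm] at h0 h2
  rw [e]
  linarith [norm_add_le ((L v - y) - (L v0 - y)) (L u + L v0 - c),
    norm_sub_le (L v - y) (L v0 - y)]

end Pool.Agent.MP_54e5d7_al.ATC.Amp

end MrgPart6

-- ======== part 7: formerly Pool.Agent.MP_54e5d7_al.atc.SCBall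
section MrgPart7

/-! The projection data of complex lines in the complex hyperbolic plane. -/

set_option autoImplicit false

namespace Pool.Agent.MP_54e5d7_al.SC

open ComplexConjugate

/-- A hermitian form which is positive on the orthogonal complement of each unit negative
vector, on a space of dimension at most three. -/
structure Lor (E : Type*) [AddCommGroup E] [Module ℂ E] where
  h : E → E → ℂ
  add_left : ∀ a b c, h (a + b) c = h a c + h b c
  smul_left : ∀ (t : ℂ) a b, h (t • a) b = t * h a b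
  conj_symm : ∀ a b, h b a = conj (h a b)
  pos : ∀ m a, h m m = -1 → h a m = 0 → 0 ≤ (h a a).re
  dep : ∀ v : Fin 4 → E, ¬ LinearIndependent ℂ v

namespace Lor

variable {E : Type*} [AddCommGroup E] [Module ℂ E] (H : Lor E)

theorem add_right (a b c : E) : H.h a (b + c) = H.h a b + H.h a c := by
  rw [H.conj_symm (b + c) a, H.add_left, map_add, ← H.conj_symm, ← H.conj_symm]

theorem smul_right (t : ℂ) (a b : E) : H.h a (t • b) = conj t * H.h a b := by
  rw [H.conj_symm (t • b) a, H.smul_left, map_mul, ← H.conj_symm]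

theorem zero_left (a : E) : H.h 0 a = 0 := by
  have := H.smul_left 0 0 a
  simpa using this

theorem norm_symm (a b : E) : ‖H.h a b‖ = ‖H.h b a‖ := by
  rw [H.conj_symm a b, Complex.norm_conj]

theorem self_re (a : E) : H.h a a = ((H.h a a).re : ℂ) := by
  have := H.conj_symm a a
  exact (Complex.conj_eq_iff_re.mp this.symm).symm

/-- Cauchy–Schwarz on the complement of a unit negative vector. -/
theorem cs {m a b : E} (hm : H.h m m = -1) (ha : H.h a m = 0) (hb : H.h b m = 0) :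
    ‖H.h a b‖ ^ 2 ≤ (H.h a a).re * (H.h b b).re := by
  have key : ∀ s : ℝ, 0 ≤ (‖H.h a b‖ ^ 2 * (H.h b b).re) * (s * s) + (2 * ‖H.h a b‖ ^ 2) * s
      + (H.h a a).re := by
    intro s
    have h1 := H.pos m (a + ((s : ℂ) * H.h a b) • b) hm (by
      rw [H.add_left, H.smul_left, ha, hb]; simp)
    have h2 : H.h (a + ((s : ℂ) * H.h a b) • b) (a + ((s : ℂ) * H.h a b) • b) =
        (((‖H.h a b‖ ^ 2 * (H.h b b).re) * (s * s) + (2 * ‖H.h a b‖ ^ 2) * s
          + (H.h a a).re : ℝ) : ℂ) := by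
      simp only [H.add_left, H.add_right, H.smul_left, H.smul_right, map_mul, Complex.conj_ofReal]
      rw [H.conj_symm a b]
      push_cast
      rw [← H.self_re, ← H.self_re, ← Complex.mul_conj']
      ring
    rwa [h2, Complex.ofReal_re] at h1
  have hd := discrim_le_zero key
  rw [discrim] at hd
  have hA := H.pos m a hm ha
  have hB := H.pos m b hm hb
  by_cases h0 : ‖H.h a b‖ ^ 2 = 0
  · rw [h0]; positivity
  · have hp : 0 < ‖H.h a b‖ ^ 2 := lt_of_le_of_ne (by positivity) (Ne.symm h0)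
    by_contra hc
    push Not at hc
    nlinarith

/-- Unit negative vectors. -/
def Pt : Type _ := {a : E // H.h a a = -1}

theorem gram {m a b : E} (hm : H.h m m = -1) (ha : H.h a a = -1) (hb : H.h b b = -1) :
    1 ≤ ‖H.h a m‖ ∧
    ‖H.h a b + H.h a m * H.h m b‖ ^ 2 ≤ (‖H.h a m‖ ^ 2 - 1) * (‖H.h m b‖ ^ 2 - 1) := by
  have o : ∀ a, H.h (a + H.h a m • m) m = 0 := fun a => by
    rw [H.add_left, H.smul_left, hm]; ring
  have e : ∀ a b, H.h (a + H.h a m • m) (b + H.h b m • m) = H.h a b + H.h a m * H.h m b := by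
    intro a b
    rw [H.add_right, H.smul_right, o, H.add_left, H.smul_left]
    ring
  have n : ∀ a, H.h a a = -1 →
      (H.h (a + H.h a m • m) (a + H.h a m • m)).re = ‖H.h a m‖ ^ 2 - 1 := by
    intro a ha
    rw [e, ha, H.conj_symm a m, Complex.mul_conj']
    simp [← Complex.ofReal_pow]
    ring
  constructor
  · have := H.pos m _ hm (o a)
    rw [n a ha] at this
    nlinarith [norm_nonneg (H.h a m)]
  · have := H.cs hm (o a) (o b)
    rwa [n a ha, n b hb, e, H.norm_symm b m] at this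

/-- The hyperbolic cosine of the distance. -/
noncomputable def c (a b : H.Pt) : ℝ := ‖H.h a.1 b.1‖

theorem one_le_c (a b : H.Pt) : 1 ≤ H.c a b := (H.gram b.2 a.2 a.2).1

theorem c_pos (a b : H.Pt) : 0 < H.c a b := lt_of_lt_of_le one_pos (H.one_le_c a b)

theorem c_symm (a b : H.Pt) : H.c a b = H.c b a := H.norm_symm _ _

/-- The distance. -/
noncomputable def d (a b : H.Pt) : ℝ := Real.arcosh (H.c a b)

theorem d_symm (a b : H.Pt) : H.d a b = H.d b a := by rw [d, d, H.c_symm]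

theorem d_self (a : H.Pt) : H.d a a = 0 := by
  rw [d, c, a.2]
  simp

theorem d_tri (a m b : H.Pt) : H.d a b ≤ H.d a m + H.d m b := by
  have hA := H.one_le_c a m
  have hB := H.one_le_c m b
  have h0 : 0 ≤ H.d a m + H.d m b := add_nonneg (Real.arcosh_nonneg hA) (Real.arcosh_nonneg hB)
  rw [← Real.arcosh_cosh h0]
  refine (Real.arcosh_le_arcosh (H.c_pos a b) (Real.cosh_pos _)).mpr ?_
  rw [Real.cosh_add, d, d, Real.cosh_arcosh hA, Real.cosh_arcosh hB, Real.sinh_arcosh hA,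
    Real.sinh_arcosh hB, ← Real.sqrt_mul (by nlinarith)]
  have h1 := Real.le_sqrt_of_sq_le (H.gram m.2 a.2 b.2).2
  have h2 := norm_sub_le (H.h a.1 b.1 + H.h a.1 m.1 * H.h m.1 b.1) (H.h a.1 m.1 * H.h m.1 b.1)
  rw [add_sub_cancel_right, norm_mul] at h2
  simp only [c]
  linarith

theorem arcosh_le_log {x : ℝ} (hx : 1 ≤ x) : Real.arcosh x ≤ Real.log (2 * x) := by
  rw [Real.arcosh]
  have h1 : √(x ^ 2 - 1) ≤ x := by
    rw [Real.sqrt_le_left (by linarith)]
    linarith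
  exact Real.log_le_log (by positivity) (by linarith)

theorem log_le_arcosh {x : ℝ} (hx : 1 ≤ x) : Real.log x ≤ Real.arcosh x := by
  rw [Real.arcosh]
  exact Real.log_le_log (by positivity) (by linarith [Real.sqrt_nonneg (x ^ 2 - 1)])

theorem d_le_log {a b : H.Pt} {C : ℝ} (h : H.c a b ≤ C) : H.d a b ≤ Real.log (2 * C) :=
  (arcosh_le_log (H.one_le_c a b)).trans
    (Real.log_le_log (by linarith [H.c_pos a b]) (by linarith))

/-- The hyperbolic cosine of the distance to the line orthogonal to `u`. -/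
noncomputable def n (u a : E) : ℝ := √(1 + ‖H.h a u‖ ^ 2)

theorem n_sq (u a : E) : H.n u a ^ 2 = 1 + ‖H.h a u‖ ^ 2 := Real.sq_sqrt (by positivity)

theorem one_le_n (u a : E) : 1 ≤ H.n u a := Real.one_le_sqrt.mpr (by nlinarith [sq_nonneg ‖H.h a u‖])

theorem n_pos (u a : E) : 0 < H.n u a := lt_of_lt_of_le one_pos (H.one_le_n u a)

theorem norm_le_n (u a : E) : ‖H.h a u‖ ≤ H.n u a :=
  Real.le_sqrt_of_sq_le (by linarith)

/-- The normalised orthogonal projection to the complement of `u`. -/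
noncomputable def pv (u a : E) : E := ((H.n u a : ℂ))⁻¹ • (a + (-H.h a u) • u)

theorem pv_u {u : E} (hu : H.h u u = 1) (a : E) : H.h (H.pv u a) u = 0 := by
  rw [pv, H.smul_left, H.add_left, H.smul_left, hu]
  ring

theorem pv_pv {u : E} (hu : H.h u u = 1) (a b : E) :
    (H.n u a : ℂ) * H.n u b * H.h (H.pv u a) (H.pv u b) = H.h a b - H.h a u * conj (H.h b u) := by
  have h1 : (H.n u a : ℂ) ≠ 0 := by exact_mod_cast (H.n_pos u a).ne'
  have h2 : (H.n u b : ℂ) ≠ 0 := by exact_mod_cast (H.n_pos u b).ne'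
  simp only [pv, H.smul_left, H.smul_right, H.add_left, H.add_right, hu, map_inv₀, map_neg,
    Complex.conj_ofReal]
  rw [H.conj_symm b u]
  field_simp
  ring

theorem n_sq' (u a : E) : (H.n u a : ℂ) ^ 2 = 1 + H.h a u * conj (H.h a u) := by
  rw [Complex.mul_conj']
  exact_mod_cast H.n_sq u a

theorem pv_unit {u : E} (hu : H.h u u = 1) {a : E} (ha : H.h a a = -1) :
    H.h (H.pv u a) (H.pv u a) = -1 := by
  have h1 : (H.n u a : ℂ) ≠ 0 := by exact_mod_cast (H.n_pos u a).ne'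
  have h2 := H.pv_pv hu a a
  have h3 := H.n_sq' u a
  rw [ha] at h2
  apply mul_left_cancel₀ (pow_ne_zero 2 h1)
  linear_combination h2 + h3

/-- The projection of a point to the complex line with unit normal `u`. -/
noncomputable def pr {u : E} (hu : H.h u u = 1) (a : H.Pt) : H.Pt :=
  ⟨H.pv u a.1, H.pv_unit hu a.2⟩

theorem c_pr {u : E} (hu : H.h u u = 1) (a : H.Pt) : H.c a (H.pr hu a) = H.n u a.1 := by
  have h1 : (H.n u a.1 : ℂ) ≠ 0 := by exact_mod_cast (H.n_pos u a.1).ne'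
  have h3 := H.n_sq' u a.1
  have : H.h a.1 (H.pv u a.1) = -(H.n u a.1 : ℂ) := by
    simp only [pv, H.smul_right, H.add_right, map_inv₀, map_neg, Complex.conj_ofReal, a.2]
    field_simp
    linear_combination h3
  simp only [c, pr, this, norm_neg, Complex.norm_real, Real.norm_eq_abs]
  exact abs_of_pos (H.n_pos u a.1)

theorem c_pr_pr {u : E} (hu : H.h u u = 1) (a b : H.Pt) :
    H.n u a.1 * H.n u b.1 * H.c (H.pr hu a) (H.pr hu b) =
      ‖H.h a.1 b.1 - H.h a.1 u * conj (H.h b.1 u)‖ := by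
  rw [← H.pv_pv hu]
  simp only [norm_mul, Complex.norm_real, Real.norm_eq_abs, abs_of_pos (H.n_pos u _), c, pr]

theorem c_pr_le {u : E} (hu : H.h u u = 1) (a b : H.Pt) :
    H.n u a.1 * H.n u b.1 * H.c (H.pr hu a) (H.pr hu b) ≤
      H.c a b + ‖H.h a.1 u‖ * ‖H.h b.1 u‖ := by
  rw [H.c_pr_pr]
  refine (norm_sub_le _ _).trans ?_
  rw [norm_mul, Complex.norm_conj, c]

theorem lip {u : E} (hu : H.h u u = 1) (a b : H.Pt) :
    H.d (H.pr hu a) (H.pr hu b) ≤ H.d a b := by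
  refine (Real.arcosh_le_arcosh (H.c_pos _ _) (H.c_pos _ _)).mpr ?_
  have h1 := H.c_pr_le hu a b
  have h2 := H.one_le_c (H.pr hu a) (H.pr hu b)
  have h3 : 1 + ‖H.h a.1 u‖ * ‖H.h b.1 u‖ ≤ H.n u a.1 * H.n u b.1 := by
    refine le_of_sq_le_sq (by rw [mul_pow, H.n_sq, H.n_sq]; nlinarith [sq_nonneg (‖H.h a.1 u‖ - ‖H.h b.1 u‖)])
      (mul_pos (H.n_pos _ _) (H.n_pos _ _)).le
  have h4 : 0 ≤ ‖H.h a.1 u‖ * ‖H.h b.1 u‖ := by positivity
  nlinarith

theorem c_con {u : E} (hu : H.h u u = 1) (a b : H.Pt) :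
    H.n u a.1 * H.n u b.1 * (H.c (H.pr hu a) (H.pr hu b) - 1) ≤ H.c a b := by
  have h1 := H.c_pr_le hu a b
  have h2 : ‖H.h a.1 u‖ * ‖H.h b.1 u‖ ≤ H.n u a.1 * H.n u b.1 :=
    mul_le_mul (H.norm_le_n _ _) (H.norm_le_n _ _) (norm_nonneg _) (H.n_pos _ _).le
  linarith

theorem con {u : E} (hu : H.h u u = 1) (a b : H.Pt) {th : ℝ} (hth : Real.log 16 ≤ th)
    (h : th ≤ H.d (H.pr hu a) (H.pr hu b)) :
    H.d a (H.pr hu a) + H.d (H.pr hu a) (H.pr hu b) + H.d (H.pr hu b) b ≤ H.d a b + th := by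
  have hT : 2 ≤ H.c (H.pr hu a) (H.pr hu b) := by
    by_contra h'
    have h1 := H.d_le_log (not_le.mp h').le
    have h2 : Real.log (2 * 2) < Real.log 16 := Real.log_lt_log (by norm_num) (by norm_num)
    linarith
  have h1 := H.c_con hu a b
  have ha := H.n_pos u a.1
  have hb := H.n_pos u b.1
  have e1 := H.d_le_log (H.c_pr hu a).le
  have e2 := H.d_le_log (H.c_pr hu b).le
  have e3 := H.d_le_log (le_refl (H.c (H.pr hu a) (H.pr hu b)))
  have e4 := log_le_arcosh (H.one_le_c a b)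
  have e5 : Real.log (2 * H.n u a.1 * (2 * H.c (H.pr hu a) (H.pr hu b)) * (2 * H.n u b.1)) ≤
      Real.log (16 * H.c a b) := by
    refine Real.log_le_log (by positivity) ?_
    have : 0 ≤ H.n u a.1 * H.n u b.1 * (H.c (H.pr hu a) (H.pr hu b) - 2) :=
      mul_nonneg (mul_pos ha hb).le (by linarith)
    nlinarith
  rw [Real.log_mul (by positivity) (by positivity), Real.log_mul (by positivity) (by positivity),
    Real.log_mul (x := 16) (by norm_num) (H.c_pos a b).ne'] at e5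
  rw [H.d_symm (H.pr hu b) b]
  simp only [d] at *
  linarith

/-- The projection of one complex line to another one is bounded. -/
theorem overlap {u w : E} (hu : H.h u u = 1) (hw : H.h w w = 1) {η : ℝ} (hη : 0 < η)
    (hs : η ≤ |1 - ‖H.h u w‖ ^ 2|) (q q' : H.Pt) (hq : H.h q.1 w = 0) (hq' : H.h q'.1 w = 0) :
    H.c (H.pr hu q) (H.pr hu q') ≤ 2 + 2 / η := by
  set u' := u + (-H.h u w) • w with hu'
  set κ : ℝ := 1 - ‖H.h u w‖ ^ 2 with hκ
  set z := H.h q.1 q'.1 with hz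
  set α := H.h q.1 u with hα
  set β := H.h q'.1 u with hβ
  have u'w : H.h u' w = 0 := by rw [hu', H.add_left, H.smul_left, hw]; ring
  have qu' : H.h q.1 u' = α := by rw [hu', H.add_right, H.smul_right, hq]; ring
  have q'u' : H.h q'.1 u' = β := by rw [hu', H.add_right, H.smul_right, hq']; ring
  have u'u' : H.h u' u' = κ := by
    conv_lhs => rw [hu', H.add_right, H.smul_right, ← hu', u'w, hu', H.add_left, H.smul_left, hu,
      H.conj_symm u w]
    rw [hκ]
    push_cast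
    rw [← Complex.mul_conj']
    ring
  obtain ⟨s, hs0, i, hi⟩ := Fintype.not_linearIndependent_iff.mp (H.dep ![q.1, q'.1, u', w])
  rw [Fin.sum_univ_four] at hs0
  simp only [Matrix.cons_val_zero, Matrix.cons_val_one, Matrix.cons_val] at hs0
  have pair : ∀ y, s 0 * H.h q.1 y + s 1 * H.h q'.1 y + s 2 * H.h u' y + s 3 * H.h w y = 0 := by
    intro y
    have := congrArg (fun x => H.h x y) hs0
    simpa only [H.add_left, H.smul_left, H.zero_left] using this
  have s3 : s 3 = 0 := by simpa [hq, hq', u'w, hw] using pair w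
  have E1 := pair q.1
  have E2 := pair q'.1
  have E3 := pair u'
  rw [s3, q.2, H.conj_symm q.1 q'.1, H.conj_symm q.1 u', qu', ← hz] at E1
  rw [s3, q'.2, H.conj_symm q'.1 u', q'u', ← hz] at E2
  rw [s3, qu', q'u', u'u'] at E3
  have hD : (κ : ℂ) + β * conj β - z * conj z * κ + z * conj α * β + α * conj z * conj β
      + α * conj α = 0 := by
    by_contra hD
    apply hi
    fin_cases i
    · apply (mul_eq_zero.mp _).resolve_right hD
      show s 0 * _ = 0
      linear_combination (-κ - conj β * β) * E1 - (conj z * κ - conj α * β) * E2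
        + (conj z * conj β + conj α) * E3
    · apply (mul_eq_zero.mp _).resolve_right hD
      show s 1 * _ = 0
      linear_combination (-(z * κ - conj β * α)) * E1 + (-κ - conj α * α) * E2
        + (conj β + conj α * z) * E3
    · apply (mul_eq_zero.mp _).resolve_right hD
      show s 2 * _ = 0
      linear_combination (z * β + α) * E1 + (β + conj z * α) * E2 + (1 - conj z * z) * E3
    · exact s3
  have hN : ‖(κ : ℂ) * z - α * conj β‖ ^ 2 = (κ + ‖α‖ ^ 2) * (κ + ‖β‖ ^ 2) := by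
    have : ((‖(κ : ℂ) * z - α * conj β‖ ^ 2 : ℝ) : ℂ) =
        (((κ + ‖α‖ ^ 2) * (κ + ‖β‖ ^ 2) : ℝ) : ℂ) := by
      push_cast
      rw [← Complex.mul_conj', ← Complex.mul_conj', ← Complex.mul_conj']
      simp only [map_sub, map_mul, Complex.conj_ofReal, Complex.conj_conj]
      linear_combination (-κ) * hD
    exact_mod_cast this
  have hk : 0 < |κ| := lt_of_lt_of_le hη hs
  have na := H.n_sq u q.1
  have nb := H.n_sq u q'.1
  rw [← hα] at na
  rw [← hβ] at nb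
  have hnn : 0 < H.n u q.1 * H.n u q'.1 := mul_pos (H.n_pos _ _) (H.n_pos _ _)
  have b1 : ‖(κ : ℂ) * z - α * conj β‖ ≤ (|κ| + 1) * (H.n u q.1 * H.n u q'.1) := by
    refine le_of_sq_le_sq ?_ (by positivity)
    have f : ∀ t : ℝ, 0 ≤ t → |κ + t| ≤ (|κ| + 1) * (1 + t) := fun t ht => by
      have := abs_add_le κ t
      rw [abs_of_nonneg ht] at this
      nlinarith
    rw [hN, mul_pow, mul_pow, na, nb]
    calc _ ≤ |κ + ‖α‖ ^ 2| * |κ + ‖β‖ ^ 2| := by rw [← abs_mul]; exact le_abs_self _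
      _ ≤ ((|κ| + 1) * (1 + ‖α‖ ^ 2)) * ((|κ| + 1) * (1 + ‖β‖ ^ 2)) :=
        mul_le_mul (f _ (by positivity)) (f _ (by positivity)) (abs_nonneg _) (by positivity)
      _ = _ := by ring
  have b2 : ‖α‖ * ‖β‖ ≤ H.n u q.1 * H.n u q'.1 :=
    mul_le_mul (H.norm_le_n _ _) (H.norm_le_n _ _) (norm_nonneg _) (H.n_pos _ _).le
  have b3 : |κ| * ‖z - α * conj β‖ ≤
      ‖(κ : ℂ) * z - α * conj β‖ + (|κ| + 1) * (‖α‖ * ‖β‖) := by
    have e : (κ : ℂ) * (z - α * conj β) =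
        ((κ : ℂ) * z - α * conj β) + (1 - κ) * (α * conj β) := by ring
    have e2 := norm_add_le ((κ : ℂ) * z - α * conj β) ((1 - κ) * (α * conj β))
    rw [← e, norm_mul, norm_mul, norm_mul, Complex.norm_conj, Complex.norm_real,
      Real.norm_eq_abs] at e2
    have e3 : ‖(1 : ℂ) - κ‖ ≤ |κ| + 1 := by
      refine (norm_sub_le _ _).trans ?_
      rw [norm_one, Complex.norm_real, Real.norm_eq_abs, add_comm]
    have := mul_le_mul_of_nonneg_right e3 (by positivity : 0 ≤ ‖α‖ * ‖β‖)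
    linarith
  have b4 := H.c_pr_pr hu q q'
  rw [← hz, ← hα, ← hβ] at b4
  rw [← b4] at b3
  have b5 : |κ| * H.c (H.pr hu q) (H.pr hu q') ≤ 2 * (|κ| + 1) := by
    refine le_of_mul_le_mul_left ?_ hnn
    have := mul_le_mul_of_nonneg_left b2 (by positivity : 0 ≤ |κ| + 1)
    linarith
  have b6 : 2 / |κ| ≤ 2 / η := div_le_div_of_nonneg_left (by norm_num) hη hs
  have b7 : |κ| * (2 / |κ|) = 2 := by field_simp
  refine le_trans (le_of_mul_le_mul_left ?_ hk) (add_le_add_right b6 2)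
  linarith

/-- A point closer to the second line projects near the projection of the second line. -/
theorem behr {u w : E} (hu : H.h u u = 1) (hw : H.h w w = 1) (x : H.Pt)
    (h : H.n w x.1 ≤ H.n u x.1) : H.c (H.pr hu x) (H.pr hu (H.pr hw x)) ≤ 2 := by
  have h1 := H.c_con hu x (H.pr hw x)
  rw [H.c_pr] at h1
  have h2 := H.one_le_n u (H.pr hw x).1
  have h3 := H.n_pos u x.1
  by_contra h'
  push Not at h'
  have : 1 < H.n u (H.pr hw x).1 * (H.c (H.pr hu x) (H.pr hu (H.pr hw x)) - 1) := by nlinarith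
  nlinarith

theorem midpoint (a b : H.Pt) :
    ∃ m : H.Pt, H.c a m ^ 2 = (1 + H.c a b) / 2 ∧ H.c m b ^ 2 = (1 + H.c a b) / 2 := by
  have hr := H.c_pos a b
  set r := H.c a b with hrd
  set z := H.h a.1 b.1 with hz
  have hrz : (r : ℂ) ^ 2 = z * conj z := by
    rw [Complex.mul_conj']
    rfl
  have hr0 : (r : ℂ) ≠ 0 := by exact_mod_cast hr.ne'
  set s : ℝ := √(2 + 2 * r) with hs
  have hs0 : 0 < s := Real.sqrt_pos.mpr (by linarith)
  have hs1 : s ^ 2 = 2 + 2 * r := Real.sq_sqrt (by linarith)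
  have hs2 : (s : ℂ) ^ 2 = 2 + 2 * r := by exact_mod_cast hs1
  have hs3 : (s : ℂ) ≠ 0 := by exact_mod_cast hs0.ne'
  have hba : H.h b.1 a.1 = conj z := H.conj_symm _ _
  have fin : ‖(1 + r : ℂ) / s‖ ^ 2 = (1 + r) / 2 := by
    have : ‖(1 + r : ℂ)‖ = 1 + r := by
      rw [← Complex.ofReal_one, ← Complex.ofReal_add, Complex.norm_real, Real.norm_eq_abs,
        abs_of_pos (by linarith)]
    rw [norm_div, this, Complex.norm_real, Real.norm_eq_abs, abs_of_pos hs0, div_pow, hs1]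
    field_simp
  refine ⟨⟨(s : ℂ)⁻¹ • (a.1 + (-z / r) • b.1), ?_⟩, ?_, ?_⟩
  · simp only [H.smul_left, H.smul_right, H.add_left, H.add_right, a.2, b.2, hba, ← hz, map_inv₀,
      map_div₀, map_neg, Complex.conj_ofReal]
    field_simp
    linear_combination (1 + 2 * r) * hrz + r ^ 2 * hs2
  · rw [← fin, c, ← norm_neg]
    congr 2
    simp only [H.smul_right, H.add_right, a.2, ← hz, map_inv₀, map_div₀, map_neg,
      Complex.conj_ofReal]
    field_simp
    linear_combination (-1 : ℂ) * hrz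
  · have e : H.h ((s : ℂ)⁻¹ • (a.1 + (-z / r) • b.1)) b.1 = (z / r) * ((1 + r) / s) := by
      simp only [H.smul_left, H.add_left, b.2, ← hz]
      field_simp
      ring
    have e2 : ‖z / r‖ = 1 := by
      rw [norm_div, Complex.norm_real, Real.norm_eq_abs, abs_of_pos hr]
      exact div_self hr.ne'
    rw [← fin, c, e, norm_mul, e2, one_mul]

theorem conn (a b : H.Pt) : Relation.ReflTransGen (fun a b => H.c a b ≤ 2) a b := by
  have key : ∀ k : ℕ, ∀ a b : H.Pt, H.c a b ≤ 2 + k / 2 →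
      Relation.ReflTransGen (fun a b => H.c a b ≤ 2) a b := by
    intro k
    induction k with
    | zero => exact fun a b h => Relation.ReflTransGen.single (by simpa using h)
    | succ k ih =>
      intro a b h
      by_cases h2 : H.c a b ≤ 2
      · exact Relation.ReflTransGen.single h2
      · obtain ⟨m, h3, h4⟩ := H.midpoint a b
        push Not at h2
        push_cast at h
        have f : ∀ t : ℝ, t ^ 2 = (1 + H.c a b) / 2 → t ≤ 2 + k / 2 := fun t ht => by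
          have : t ≤ H.c a b - 1 / 2 := le_of_sq_le_sq (by nlinarith) (by linarith)
          linarith
        exact (ih a m (f _ h3)).trans (ih m b (f _ h4))
  obtain ⟨k, hk⟩ := exists_nat_ge (2 * H.c a b)
  exact key k a b (by linarith)

end Lor

end Pool.Agent.MP_54e5d7_al.SC

end MrgPart7

-- ======== part 8: formerly Pool.Agent.MP_54e5d7_al.atc.ScFin
section MrgPart8

/-! PROJECT ATC, block SC: small cancellation for the discs in the ball. -/

set_option autoImplicit false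

open scoped ComplexConjugate
open Matrix

namespace Pool.Agent.MP_54e5d7_al.Atc

namespace ScFin

theorem H_self (v : V3) : H v v = ((‖v 0‖ ^ 2 + ‖v 1‖ ^ 2 - ‖v 2‖ ^ 2 : ℝ) : ℂ) := by
  simp only [H, Complex.mul_conj']
  push_cast
  ring

theorem unit_eq {v : V3} (hv : H v v = -1) : ‖v 0‖ ^ 2 + ‖v 1‖ ^ 2 + 1 = ‖v 2‖ ^ 2 := by
  rw [H_self] at hv
  have : ‖v 0‖ ^ 2 + ‖v 1‖ ^ 2 - ‖v 2‖ ^ 2 = -1 := by exact_mod_cast hv
  linarith

/-- The standard form is Lorentzian. -/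
def lor : SC.Lor V3 where
  h := H
  add_left a b c := by simp only [H, Pi.add_apply]; ring
  smul_left t a b := by simp only [H, Pi.smul_apply, smul_eq_mul]; ring
  conj_symm a b := by simp only [H, map_sub, map_add, map_mul, Complex.conj_conj]; ring
  pos m a hm ha := by
    rw [H_self, Complex.ofReal_re]
    have h1 := unit_eq hm
    have h2 : ‖a 2‖ * ‖m 2‖ ≤ ‖a 0‖ * ‖m 0‖ + ‖a 1‖ * ‖m 1‖ := by
      have e : a 2 * conj (m 2) = a 0 * conj (m 0) + a 1 * conj (m 1) := by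
        simp only [H] at ha
        linear_combination -ha
      have := norm_add_le (a 0 * conj (m 0)) (a 1 * conj (m 1))
      rw [← e] at this
      simpa using this
    have h3 : (‖a 2‖ * ‖m 2‖) ^ 2 ≤ (‖a 0‖ * ‖m 0‖ + ‖a 1‖ * ‖m 1‖) ^ 2 :=
      pow_le_pow_left₀ (by positivity) h2 2
    have h4 : ‖a 2‖ ^ 2 * ‖m 2‖ ^ 2 ≤ (‖a 0‖ ^ 2 + ‖a 1‖ ^ 2) * ‖m 2‖ ^ 2 := by
      nlinarith [sq_nonneg (‖a 0‖ * ‖m 1‖ - ‖a 1‖ * ‖m 0‖), sq_nonneg ‖a 0‖, sq_nonneg ‖a 1‖]
    have h5 : 0 < ‖m 2‖ ^ 2 := by nlinarith [sq_nonneg ‖m 0‖, sq_nonneg ‖m 1‖]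
    linarith [le_of_mul_le_mul_right h4 h5]
  dep v hv := by
    have := hv.fintype_card_le_finrank
    simp at this

/-- The point of the ball on the line of `v`. -/
noncomputable def pt (v : V3) : C2 := (v 0 / v 2, v 1 / v 2)

theorem ne_zero {v : V3} (hv : H v v = -1) : v 2 ≠ 0 := by
  intro h
  have := unit_eq hv
  rw [h, norm_zero] at this
  nlinarith [sq_nonneg ‖v 0‖, sq_nonneg ‖v 1‖]

theorem hat_pt {v : V3} (hv : H v v = -1) : hat (pt v) = (v 2)⁻¹ • v := by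
  have h := ne_zero hv
  funext i
  fin_cases i
  · simp [hat, pt, div_eq_inv_mul]
  · simp [hat, pt, div_eq_inv_mul]
  · simp [hat, h]

theorem nsq_pt {v : V3} (hv : H v v = -1) : 1 - nsq (pt v) = (‖v 2‖ ^ 2)⁻¹ := by
  have h : ‖v 2‖ ≠ 0 := norm_ne_zero_iff.mpr (ne_zero hv)
  have h1 := unit_eq hv
  simp only [nsq, pt, norm_div]
  field_simp
  linarith

theorem pt_mem {v : V3} (hv : H v v = -1) : pt v ∈ B := by
  have h : ‖v 2‖ ≠ 0 := norm_ne_zero_iff.mpr (ne_zero hv)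
  have h1 := nsq_pt hv
  have h2 : 0 < (‖v 2‖ ^ 2)⁻¹ := by positivity
  show nsq (pt v) < 1
  linarith

theorem mv_smul (g : SU21) (t : ℂ) (v : V3) : mv g (t • v) = t • mv g v := by
  simp [mv, Matrix.mulVec_smul]

theorem mv_add (g : SU21) (v w : V3) : mv g (v + w) = mv g v + mv g w := by
  simp [mv, Matrix.mulVec_add]

theorem act_pt (g : SU21) {v : V3} (hv : H v v = -1) : act g (pt v) = pt (mv g v) := by
  have h := ne_zero hv
  simp only [act, jf, hat_pt hv, mv_smul, Pi.smul_apply, smul_eq_mul]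
  rw [mul_div_mul_left _ _ (inv_ne_zero h), mul_div_mul_left _ _ (inv_ne_zero h), pt]

theorem ch2_pt {v w : V3} (hv : H v v = -1) (hw : H w w = -1) :
    ch2 (pt v) (pt w) = ‖H v w‖ ^ 2 := by
  have h1 : ‖v 2‖ ≠ 0 := norm_ne_zero_iff.mpr (ne_zero hv)
  have h2 : ‖w 2‖ ≠ 0 := norm_ne_zero_iff.mpr (ne_zero hw)
  rw [ch2, hat_pt hv, hat_pt hw, nsq_pt hv, nsq_pt hw]
  change ‖lor.h _ _‖ ^ 2 / _ = ‖lor.h _ _‖ ^ 2
  rw [lor.smul_left, lor.smul_right]
  simp only [norm_mul, norm_inv, Complex.norm_conj]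
  field_simp

theorem lox_pow {g : SU21} (hg : Lox g) {k : ℕ} (hk : 0 < k) : g ^ k ≠ 1 := by
  obtain ⟨e, f, u, α, β, -, -, hef, -, -, -, hα, he, -, -⟩ := hg
  have h1 : ∀ j : ℕ, mv (g ^ j) e = α ^ j • e := by
    intro j
    induction j with
    | zero => simp [mv_one]
    | succ j ih => rw [pow_succ, mv_mul, he, mv_smul, ih, smul_smul, pow_succ']
  intro h
  have h2 := h1 k
  rw [h, mv_one] at h2
  have h3 := lor.smul_left (α ^ k) e f
  rw [← h2] at h3
  change H e f = α ^ k * H e f at h3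
  rw [hef] at h3
  have h4 : α ^ k = 1 := by linear_combination h3
  have h5 := one_lt_pow₀ hα hk.ne'
  rw [← norm_pow, h4, norm_one] at h5
  exact lt_irrefl _ h5

/-- The constant of the projection axioms. -/
noncomputable def th (ε : ℝ) : ℝ := Real.log 16 + Real.log (2 * (2 + 2 / ε))

end ScFin

open ScFin

theorem sc_stmt : ScStmt := by
  intro ε hε
  refine ⟨Real.exp (100 * th ε) ^ 2, fun n U _ C Γ X N _ hL hD hX hN => ?_⟩
  have l16 : Real.log (2 * 2) ≤ Real.log 16 := Real.log_le_log (by norm_num) (by norm_num)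
  have l4 : 0 < Real.log (2 * 2) := Real.log_pos (by norm_num)
  have lε : 0 ≤ Real.log (2 * (2 + 2 / ε)) :=
    Real.log_nonneg (by have : 0 < 2 / ε := by positivity
                        linarith)
  let _ : MulAction ↥(Γ.comap C.p) lor.Pt :=
    { smul := fun a v => ⟨mv (C.p a) v.1, (H_mv _ _ _).trans v.2⟩
      one_smul := fun v => Subtype.ext (by
        show mv (C.p 1) v.1 = v.1
        rw [map_one, mv_one])
      mul_smul := fun a b v => Subtype.ext (by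
        show mv (C.p (a.1 * b.1)) v.1 = mv (C.p a) (mv (C.p b) v.1)
        rw [map_mul, mv_mul]) }
  let _ : MulAction ↥(Γ.comap C.p) ↥X :=
    { smul := fun a x => ⟨mv (C.p a) x.1, hX.inv _ a.2 _ x.2⟩
      one_smul := fun v => Subtype.ext (by
        show mv (C.p 1) v.1 = v.1
        rw [map_one, mv_one])
      mul_smul := fun a b v => Subtype.ext (by
        show mv (C.p (a.1 * b.1)) v.1 = mv (C.p a) (mv (C.p b) v.1)
        rw [map_mul, mv_mul]) }
  have x0 : lor.Pt := ⟨![0, 0, 1], by simp [lor, H]⟩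
  have : Nonempty lor.Pt := ⟨x0⟩
  have hu : ∀ Y : ↥X, lor.h Y.1 Y.1 = 1 := fun Y => hX.unit _ Y.2
  have ov : ∀ Y Z : ↥X, Y ≠ Z → ∀ x y : lor.Pt,
      lor.d (lor.pr (hu Y) (lor.pr (hu Z) x)) (lor.pr (hu Y) (lor.pr (hu Z) y)) ≤
        Real.log (2 * (2 + 2 / ε)) := fun Y Z h x y =>
    lor.d_le_log (lor.overlap (hu Y) (hu Z) hε
      (hX.sep _ Y.2 _ Z.2 fun h' => h (Subtype.ext h')) _ _
      (lor.pv_u (hu Z) _) (lor.pv_u (hu Z) _))
  have bh : ∀ Y Z : ↥X, Y ≠ Z → ∀ x : lor.Pt, lor.n Z.1 x.1 ≤ lor.n Y.1 x.1 →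
      lor.d (lor.pr (hu Y) x) (lor.pr (hu Y) (lor.pr (hu Z) x0)) ≤ th ε := by
    intro Y Z h x hx
    have h1 := lor.d_le_log (lor.behr (hu Y) (hu Z) x hx)
    have h2 := ov Y Z h x x0
    have h3 := lor.d_tri (lor.pr (hu Y) x) (lor.pr (hu Y) (lor.pr (hu Z) x))
      (lor.pr (hu Y) (lor.pr (hu Z) x0))
    rw [th]
    linarith
  let D : SC.Dat ↥(Γ.comap C.p) lor.Pt ↥X :=
    { d := lor.d
      p := fun Y => lor.pr (hu Y)
      N := fun Y => (N Y.1).subgroupOf _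
      th := th ε
      th_pos := by rw [th]; linarith
      symm := lor.d_symm
      tri := lor.d_tri
      self := lor.d_self
      inv := fun g x y => congrArg (fun t => Real.arcosh ‖t‖) (H_mv (C.p g) x.1 y.1)
      p_eq := fun g Y x => Subtype.ext (by
        show lor.pv (mv (C.p g) Y.1) (mv (C.p g) x.1) = mv (C.p g) (lor.pv Y.1 x.1)
        have e : lor.h (mv (C.p g) x.1) (mv (C.p g) Y.1) = lor.h x.1 Y.1 := H_mv _ _ _
        simp only [SC.Lor.pv, SC.Lor.n, e, mv_smul, mv_add])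
      N_conj := fun g Y ν hν => hN.cnj g.1 g.2 Y.1 Y.2 ν.1 hν
      N_fix := fun Y ν hν => Subtype.ext (hN.le Y.1 Y.2 ν.1 hν).2
      lip := fun Y => lor.lip (hu Y)
      conn := fun x y => Relation.ReflTransGen.mono (r := fun a b => lor.c a b ≤ 2) (fun a b h => by
        have := lor.d_le_log h
        rw [th]
        linarith) x y (lor.conn x y)
      beh := fun Y Z h => ⟨lor.pr (hu Y) (lor.pr (hu Z) x0), lor.pr (hu Z) (lor.pr (hu Y) x0),
        fun x => (le_total (lor.n Z.1 x.1) (lor.n Y.1 x.1)).imp (bh Y Z h x) (bh Z Y h.symm x),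
        fun x => by
          have h1 := ov Y Z h x x0
          have h2 := ov Z Y h.symm x x0
          rw [th]
          constructor <;> linarith⟩
      con := fun Y x y h => lor.con (hu Y) x y (by rw [th]; linarith) h
      spin := fun Y ν x hν h1 => by
        have h2 : C.p ν.1 ≠ 1 := fun h => h1 (Subtype.ext (hN.inj Y.1 Y.2 ν.1 hν h))
        set a := lor.pr (hu Y) x
        have h3 := hD _ ν.2 h2 _ (pt_mem a.2)
        rw [act_pt _ a.2, ch2_pt a.2 ((H_mv _ _ _).trans a.2)] at h3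
        have h4 : Real.exp (100 * th ε) ≤ lor.c a (ν • a) :=
          le_of_sq_le_sq h3 (norm_nonneg _)
        exact ((Real.le_log_iff_exp_le (lor.c_pos _ _)).mpr h4).trans
          (SC.Lor.log_le_arcosh (lor.one_le_c _ _)) }
  let M : Subgroup ↥(Γ.comap C.p) := (C.p.comp (Subgroup.subtype _)).ker
  have hM : D.Ker M :=
    { normal := MonoidHom.normal_ker _
      triv := fun m hm x => Subtype.ext (by
        show mv (C.p m.1) x.1 = x.1
        rw [show C.p m.1 = 1 from hm, mv_one])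
      stab := fun g Y h => by
        obtain ⟨ν, hν, e⟩ := hN.onto Y.1 Y.2 (C.p g.1) ⟨g.2, congrArg Subtype.val h⟩
        have hνΓ : ν ∈ Γ.comap C.p := (hN.le Y.1 Y.2 ν hν).1
        have e2 : g = ⟨ν, hνΓ⟩ * ((⟨ν, hνΓ⟩ : ↥(Γ.comap C.p))⁻¹ * g) := by group
        rw [e2]
        refine Subgroup.mul_mem_sup hν ?_
        show C.p (ν⁻¹ * g.1) = 1
        rw [map_mul, map_inv, e, inv_mul_cancel]
      tf := fun g m hm h => by
        by_contra h'
        refine lox_pow (hL.lox _ g.2 h') hm ?_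
        rw [← map_pow]
        exact h }
  have hK : (⨆ x ∈ X, N x) = D.K.map (Subgroup.subtype _) := by
    apply le_antisymm
    · refine iSup₂_le fun x hx ν hν => ?_
      exact ⟨⟨ν, (hN.le x hx ν hν).1⟩, D.N_le_K ⟨x, hx⟩ hν, rfl⟩
    · rw [Subgroup.map_le_iff_le_comap]
      refine (Subgroup.closure_le _).mpr ?_
      rintro g ⟨Y, hY⟩
      exact (le_iSup₂ (f := fun x (_ : x ∈ X) => N x) Y.1 Y.2) hY
  rw [hK]
  constructor
  · rintro z ⟨k, hk, rfl⟩ h
    have : k ∈ D.K ⊓ M := ⟨hk, h⟩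
    rw [SC.Dat.K_inf hM, Subgroup.mem_bot] at this
    rw [this, map_one]
  · rintro a ha k hk ⟨b, hb, e⟩
    have e' : (⟨a, ha⟩ : ↥(Γ.comap C.p)) ^ k = b := Subtype.ext e.symm
    have hMn := hM.normal
    obtain ⟨y, hy, c, hc, hyc⟩ := Subgroup.mem_sup_of_normal_right.mp
      (SC.Dat.torsion hM hk (Subgroup.mem_sup_left (e' ▸ hb)))
    refine ⟨c.1, hc, y, hy, ?_⟩
    have := congrArg Subtype.val hyc
    simp only [Subgroup.coe_mul] at this
    rw [← this, mul_inv_cancel_right]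
    rfl

end Pool.Agent.MP_54e5d7_al.Atc

end MrgPart8

-- ======== part 9: formerly Pool.Agent.MP_54e5d7_al.atc.ker.Berg
section MrgPart9

/-!
PROJECT ATC, block KER: the Poincare series of the kernel lies in the Bergman space.
-/

set_option autoImplicit false

open Set

namespace Pool.Agent.MP_54e5d7_al.Atc

variable {n : ℕ} {U : Type} [Group U] {C : Cover n U} {Γ : Subgroup SU21} {G : Type} [Group G]

theorem one_sub_nsq_act_le (g : SU21) {w : C2} (hw : w ∈ B) :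
    (1 - nsq (act g w)) * (1 - nsq w) ≤ 4 * (1 - nsq (act g 0)) := by
  have h0 := act_mem g zero_mem_B
  have h1 := act_mem g hw
  have h := ch2_le h0 zero_mem_B h1
  rw [ch2_act g zero_mem_B hw, ch2_symm 0 w, ch2_zero, ch2_zero, ch2_zero] at h
  have a0 : 0 < 1 - nsq (act g 0) := sub_pos.2 h0
  have a1 : 0 < 1 - nsq (act g w) := sub_pos.2 h1
  have a2 : 0 < 1 - nsq w := sub_pos.2 hw
  rw [mul_assoc, ← mul_inv, inv_le_iff_one_le_mul₀ a0, mul_assoc, mul_left_comm,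
    ← div_eq_inv_mul, one_le_div (mul_pos a2 a1)] at h
  linarith

/-- summability over the preimage of the lattice -/
theorem Cover.summable_comap (C : Cover n U) (hn : 0 < n) (hΓ : Lat Γ) {τ : ℝ} (hτ : 2 < τ) :
    Summable fun a : ↥(Γ.comap C.p) => (1 - nsq (act (C.p a) 0)) ^ τ := by
  have hf : Finite C.p.ker := Nat.finite_of_card_ne_zero (by rw [C.card_ker hn]; exact hn.ne')
  choose ι hι using C.surj hn
  have h1 := (hΓ.summable hτ).mul_of_nonneg
    (summable_of_hasFiniteSupport (f := fun _ : C.p.ker => (1 : ℝ)) (toFinite _))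
    (fun γ => Real.rpow_nonneg (sub_pos.2 (act_mem _ zero_mem_B)).le _) fun _ => zero_le_one
  have h2 : Function.Injective fun a : ↥(Γ.comap C.p) => ((⟨C.p a, a.2⟩,
      ⟨(ι (C.p a))⁻¹ * a, by simp [MonoidHom.mem_ker, hι]⟩) : Γ × C.p.ker) := by
    intro a b h
    have e1 : C.p a = C.p b := congrArg (fun x : Γ × C.p.ker => (x.1 : SU21)) h
    have e2 : (ι (C.p a))⁻¹ * a = (ι (C.p b))⁻¹ * b :=
      congrArg (fun x : Γ × C.p.ker => (x.2 : U)) h
    rw [e1] at e2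
    exact Subtype.ext (mul_left_cancel e2)
  exact (h1.comp_injective h2).congr fun a => mul_one _

/-- the terms of the Poincare series on a smaller ball -/
theorem Cover.norm_sl_bk (C : Cover n U) (hn : 0 < n) (s : ℕ) {z : C2} (hz : z ∈ B) {r : ℝ}
    (hr : r < 1) : ∃ c : ℝ, 0 ≤ c ∧ ∀ (a : U), ∀ w ∈ Bl r, ‖C.sl s (bk ((s : ℝ) / n) z) a w‖ ≤
      c * (1 - nsq (act (C.p a) 0)) ^ ((s : ℝ) / n / 2) := by
  set t : ℝ := (s : ℝ) / n with ht
  have ht0 : 0 ≤ t := by positivity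
  have hr0 : 0 < 1 - r := sub_pos.2 hr
  have hD : 0 ≤ ((1 - nsq z) / 2) ^ (-t) := Real.rpow_nonneg (half_pos (sub_pos.2 hz)).le _
  refine ⟨((1 - nsq z) / 2) ^ (-t) * (4 / (1 - r) ^ 2) ^ (t / 2), by positivity, fun a w hw => ?_⟩
  have hwB : w ∈ B := Bl_mono hr.le hw
  have a0 : 0 < 1 - nsq (act (C.p a) 0) := sub_pos.2 (act_mem _ zero_mem_B)
  have a1 : 0 < 1 - nsq (act (C.p a) w) := sub_pos.2 (act_mem _ hwB)
  have a2 : 0 < 1 - nsq w := sub_pos.2 hwB
  have a3 : 1 - r ≤ 1 - nsq w := by linarith [show nsq w < r from hw]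
  have h1 := C.norm_sl hn s (bk t z) a hwB
  rw [← ht] at h1
  have h2 := norm_bk_le ht0 hz (act_mem (C.p a) hwB)
  have h3 : 1 - nsq (act (C.p a) w) ≤ 4 / (1 - r) ^ 2 * (1 - nsq (act (C.p a) 0)) * (1 - nsq w) := by
    have h4 := one_sub_nsq_act_le (C.p a) hwB
    rw [div_mul_eq_mul_div, div_mul_eq_mul_div, le_div_iff₀ (by positivity)]
    calc (1 - nsq (act (C.p a) w)) * (1 - r) ^ 2
        ≤ (1 - nsq (act (C.p a) w)) * (1 - nsq w) ^ 2 := by gcongr
      _ = (1 - nsq (act (C.p a) w)) * (1 - nsq w) * (1 - nsq w) := by ring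
      _ ≤ _ := by gcongr
  have h5 := Real.rpow_le_rpow a1.le h3 ht0
  rw [Real.mul_rpow (by positivity) a2.le] at h5
  rw [mul_assoc, ← Real.mul_rpow (by positivity) a0.le]
  refine (sq_le_sq₀ (norm_nonneg _) (by positivity)).1
    (le_of_mul_le_mul_right ?_ (Real.rpow_pos_of_pos a2 t))
  rw [h1, mul_pow, ← Real.rpow_natCast (_ ^ (t / 2)) 2, ← Real.rpow_mul (by positivity),
    show t / 2 * (2 : ℕ) = t by push_cast; ring, mul_assoc]
  exact mul_le_mul (pow_le_pow_left₀ (norm_nonneg _) h2 2) h5 (Real.rpow_nonneg a1.le _)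
    (by positivity)

theorem Cover.sl_tsum (C : Cover n U) (s : ℕ) {ι : Type} (f : C2 → ℂ) (k : ι → U) (a : U)
    (w : C2) : C.sl s (fun w => ∑' i, C.sl s f (k i) w) a w = ∑' i, C.sl s f (k i * a) w := by
  by_cases hw : w ∈ B
  · rw [C.sl_of_mem s _ a hw, ← tsum_div_const]
    exact tsum_congr fun i => by rw [← C.sl_mul, C.sl_of_mem s _ a hw]
  · simp only [C.sl_of_notMem s _ _ hw, tsum_zero]

theorem Quo.berg_kap (Q : Quo C Γ G) (hn : 0 < n) {s : ℕ} (hs : 4 * n < s) (hΓ : Lat Γ) {z : C2}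
    (hz : z ∈ B) : Q.Berg s fun w => ∑' k : Q.π.ker, C.sl s (bk ((s : ℝ) / n) z) k.1 w := by
  have hτ : 2 < (s : ℝ) / n / 2 := by
    have h1 : (0 : ℝ) < n := by exact_mod_cast hn
    have h2 : (4 : ℝ) * n < s := by exact_mod_cast hs
    rw [lt_div_iff₀ two_pos, lt_div_iff₀ h1]
    linarith
  have hS := C.summable_comap hn hΓ hτ
  have hu : ∀ a : U, 0 ≤ (1 - nsq (act (C.p a) 0)) ^ ((s : ℝ) / n / 2) := fun a =>
    Real.rpow_nonneg (sub_pos.2 (act_mem _ zero_mem_B)).le _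
  refine ⟨⟨⟨fun w hw => by simp only [C.sl_of_notMem s _ _ hw, tsum_zero], fun y hy => ?_⟩,
    fun k hk => funext fun w => ?_⟩, fun r hr => ?_⟩
  · obtain ⟨r, h1, h2⟩ := exists_between (show nsq y < 1 from hy)
    obtain ⟨c, -, hc⟩ := C.norm_sl_bk hn s hz h2
    exact ((hol_tsum (isOpen_Bl r) ((hS.subtype (Q.π.ker : Set _)).mul_left c)
      (fun k : Q.π.ker => (C.hol_sl hn s (bk_hol _ hz) k.1).2.mono (Bl_mono h2.le))
      fun k w hw => hc k.1 w hw).differentiableAt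
        ((isOpen_Bl r).mem_nhds h1)).differentiableWithinAt
  · rw [C.sl_tsum s _ (fun k : Q.π.ker => (k.1 : U))]
    exact (Equiv.mulRight (⟨k, hk⟩ : Q.π.ker)).tsum_eq
      fun k : Q.π.ker => C.sl s (bk ((s : ℝ) / n) z) k.1 w
  · obtain ⟨c, h0, hc⟩ := C.norm_sl_bk hn s hz hr
    have hinj : Function.Injective fun x : G × Q.π.ker => x.2.1 * Q.σ x.1 := by
      rintro ⟨q, k⟩ ⟨q', k'⟩ h
      have h1 := congrArg Q.π h
      simp only [map_mul, Q.sec, (MonoidHom.mem_ker).1 k.2, (MonoidHom.mem_ker).1 k'.2,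
        one_mul] at h1
      subst h1
      exact Prod.ext rfl (Subtype.ext (mul_right_cancel h))
    have hP := (hS.comp_injective hinj).mul_left c
    have hM := hP.prod
    have hM0 : ∀ q : G, 0 ≤ ∑' k : Q.π.ker, c * (1 - nsq (act (C.p ((k.1 * Q.σ q :
        ↥(Γ.comap C.p)) : U)) 0)) ^ ((s : ℝ) / n / 2) :=
      fun q => tsum_nonneg fun k => mul_nonneg h0 (hu _)
    refine ⟨fun q => ∑' k : Q.π.ker, c * (1 - nsq (act (C.p ((k.1 * Q.σ q :
      ↥(Γ.comap C.p)) : U)) 0)) ^ ((s : ℝ) / n / 2), ?_, fun q w hw => ?_⟩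
    · exact Summable.of_nonneg_of_le (fun q => sq_nonneg _) (fun q => (sq _).trans_le
        (mul_le_mul_of_nonneg_right (hM.le_tsum q fun q' _ => hM0 q') (hM0 q))) (hM.mul_left _)
    · rw [C.sl_tsum s _ (fun k : Q.π.ker => (k.1 : U))]
      exact tsum_of_norm_bounded (hP.prod_factor q).hasSum fun k => hc _ w hw

end Pool.Agent.MP_54e5d7_al.Atc

end MrgPart9

-- ======== part 10: formerly Pool.Agent.MP_54e5d7_al.atc.ker.Orb2
section MrgPart10

/-!
PROJECT ATC, block KER: the orbital integrals vanish in total.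
-/

set_option autoImplicit false

open scoped ComplexConjugate
open Set MeasureTheory

namespace Pool.Agent.MP_54e5d7_al.Atc

variable {n : ℕ} {U : Type} [Group U] (C : Cover n U)

/-- the diagonal term of the element `a` -/
noncomputable def Cover.dg (s : ℕ) (a : U) (z : C2) : ℂ :=
  C.sl s (bk ((s : ℝ) / n) z) a z * (((1 - nsq z) ^ ((s : ℝ) / n) : ℝ) : ℂ)

theorem Cover.dg_diff (hn : 0 < n) (s : ℕ) (a : U) : DifferentiableOn ℝ (C.dg s a) B := by
  have h1 : DifferentiableOn ℝ (act (C.p a)) B := (differentiableOn_act _).restrictScalars ℝ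
  have h2 : Differentiable ℝ fun x : C2 × C2 => -H (hat x.1) (hat x.2) := by
    simp only [H, hat_zero, hat_one, hat_two, ← Complex.conjCLE_apply]
    fun_prop
  have h3 : DifferentiableOn ℝ (fun z => bk ((s : ℝ) / n) z (act (C.p a) z)) B := fun z hz => by
    have h4 : -H (hat (act (C.p a) z)) (hat z) ∈ Complex.slitPlane :=
      Or.inl ((half_pos (BK.B_pos hz)).trans (re_H_hat hz (act_mem _ hz)))
    exact ((differentiableAt_id.cpow_const (c := -(((s : ℝ) / n : ℝ) : ℂ)) h4).restrictScalars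
      ℝ).comp_differentiableWithinAt z
      ((h2 _).comp_differentiableWithinAt z ((h1 z hz).prodMk differentiableWithinAt_id))
  have h5 : Differentiable ℝ nsq :=
    (((contDiff_norm_sq ℂ (n := 1)).comp contDiff_fst).add
      ((contDiff_norm_sq ℂ).comp contDiff_snd)).differentiable one_ne_zero
  have h6 : DifferentiableOn ℝ (fun z => (((1 - nsq z) ^ ((s : ℝ) / n) : ℝ) : ℂ)) B :=
    Complex.ofRealCLM.differentiable.comp_differentiableOn
      (((differentiable_const _).sub h5).differentiableOn.rpow_const fun z hz =>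
        Or.inl (BK.B_pos hz).ne')
  have h7 : DifferentiableOn ℝ (fun z => (C.φ a z ^ s)⁻¹) B :=
    (((C.hol a).pow s).inv fun z hz => pow_ne_zero _ (C.φ_ne_zero hn a hz)).restrictScalars ℝ
  refine ((h3.mul h7).mul h6).congr fun z hz => ?_
  rw [Cover.dg, C.sl_of_mem s _ a hz, div_eq_mul_inv]
  rfl

theorem Cover.dg_pow (hn : 0 < n) (s : ℕ) (a : U) {z : C2} (hz : z ∈ B) :
    C.dg s a z ^ n * Tr.pp (C.p a).1.1 z ^ s = 1 := by
  have hn' : (n : ℝ) ≠ 0 := by exact_mod_cast hn.ne'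
  have h0 := BK.B_pos hz
  have h1 : Tr.pp (C.p a).1.1 z = H (mv (C.p a) (hat z)) (hat z) * (H (hat z) (hat z))⁻¹ := rfl
  have h2 : -H (hat (act (C.p a) z)) (hat z) ≠ 0 := fun e => by
    have := (half_pos h0).trans (re_H_hat hz (act_mem (C.p a) hz))
    rw [e] at this
    simp at this
  have h3 : -(((s : ℝ) / n : ℝ) : ℂ) * n = -(s : ℂ) := by
    rw [← Complex.ofReal_natCast n, neg_mul, ← Complex.ofReal_mul, div_mul_cancel₀ _ hn']
    rfl
  rw [h1, mv_hat _ hz, H_smul_left, H_hat, Cover.dg, C.sl_of_mem s _ a hz, mul_pow, div_pow,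
    ← pow_mul, mul_comm s n, pow_mul, C.pow a z hz, bk, ← Complex.cpow_mul_nat, h3,
    Complex.cpow_neg, Complex.cpow_natCast, ← Complex.ofReal_pow, ← Real.rpow_mul_natCast h0.le,
    div_mul_cancel₀ _ hn', Real.rpow_natCast, Complex.ofReal_pow, ← inv_pow, ← div_pow, ← mul_pow,
    ← mul_pow]
  have h4 := jf_ne_zero (C.p a) hz
  have h5 : ((1 - nsq z : ℝ) : ℂ) ≠ 0 := Complex.ofReal_ne_zero.2 h0.ne'
  have h6 : ((nsq z - 1 : ℝ) : ℂ) = -((1 - nsq z : ℝ) : ℂ) := by push_cast; ring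
  rw [neg_ne_zero] at h2
  rw [h6]
  generalize ((1 - nsq z : ℝ) : ℂ) = u at h5 ⊢
  have h7 : (-H (hat (act (C.p a) z)) (hat z))⁻¹ / jf (C.p a) z * u *
      (jf (C.p a) z * H (hat (act (C.p a) z)) (hat z) * (-u)⁻¹) = 1 := by field_simp
  rw [h7, one_pow]

theorem Cover.dg_conj (hn : 0 < n) (s : ℕ) (a b : U) {z : C2} (hz : z ∈ B) :
    C.dg s (b * a * b⁻¹) (act (C.p b) z) = C.dg s a z := by
  have hb := act_mem (C.p b) hz
  have h1 := C.sl_pair hn s (fun _ => 1) (C.sl s (bk ((s : ℝ) / n) (act (C.p b) z)) (b * a * b⁻¹))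
    b hz
  rw [C.sl_mul, inv_mul_cancel_right, map_one, one_mul, ← C.sl_mul, C.sl_of_mem s _ b hz,
    C.sl_of_mem s _ a hz, C.sl_of_mem s _ b (act_mem _ hz), bk_cov C hn s b hz (act_mem _ hz)] at h1
  rw [Cover.dg, Cover.dg, ← h1, C.sl_of_mem s _ a hz, map_div₀, map_one, map_pow]
  have h2 := pow_ne_zero s (C.φ_ne_zero hn b (act_mem (C.p a) hz))
  have h3 : conj (C.φ b z) ^ s ≠ 0 := pow_ne_zero _ ((map_ne_zero _).2 (C.φ_ne_zero hn b hz))
  congr 1
  field_simp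

variable {C} {Γ : Subgroup SU21} {G : Type} [Group G] (Q : Quo C Γ G)

theorem Quo.orb (hn : 0 < n) {s : ℕ} (hs : 4 * n < s) (hΓ : Lat Γ) {F : Set C2} (hF : FD Γ F)
    (hK : ∀ z : ↥(Γ.comap C.p), C.p z = 1 → Q.π z = 1 → z = 1) :
    HasSum (fun k : {k : ↥(Γ.comap C.p) // Q.π k = 1 ∧ k ≠ 1} =>
      ∫ z in F, C.sl s (bk ((s : ℝ) / n) z) k.1 z *
        (((1 - nsq z) ^ ((s : ℝ) / n) * rho z : ℝ) : ℂ)) 0 := by
  obtain ⟨e, he⟩ := C.exists_equiv_lift hn Γ
  have ht : (4 : ℝ) < (s : ℝ) / n := by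
    rw [lt_div_iff₀ (by exact_mod_cast hn)]
    exact_mod_cast hs
  have h1 := orb_core hΓ hF (S := {k : ↥(Γ.comap C.p) // Q.π k = 1 ∧ k ≠ 1})
    (fun k => C.p k.1)
    (fun γ => (MulAut.conj (e (γ, 1))).toEquiv.subtypeEquiv fun k => by simp)
    (fun γ k => by simp [he]) (fun k z hz h => k.2.2 (hK _ (hΓ.free _ k.1.2 z hz h) k.2.1))
    (fun k => C.dg s k.1) hn (s := s) (by omega) (fun k => C.dg_diff hn s _)
    (fun k z hz => C.dg_pow hn s _ hz)
    (fun γ k z hz => by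
      have := C.dg_conj hn s k.1 (e (γ, 1)) hz
      rw [he] at this
      exact this)
    (fun r hr => ⟨_, ((C.summable_lift hn hΓ (τ := (s : ℝ) / n / 2) (by linarith)).mul_left
      ((16 / (1 - r) ^ 2) ^ ((s : ℝ) / n / 2))).subtype _, fun k z hz => by
        have hB : z ∈ B := Bl_mono hr.le hz
        rw [Cover.dg, norm_mul, Complex.norm_real,
          Real.norm_of_nonneg (Real.rpow_nonneg (BK.B_pos hB).le _), C.norm_diag hn s _ hB]
        exact ch2_move_le hr (by linarith) _ hz⟩)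
  refine h1.congr_fun fun k => ?_
  rw [integral_mu hF.1 hF.subset]
  refine integral_congr_ae (Filter.Eventually.of_forall fun z => ?_)
  simp only [Cover.dg, Complex.real_smul, Complex.ofReal_mul]
  ring

end Pool.Agent.MP_54e5d7_al.Atc

end MrgPart10

-- ======== part 11: formerly Pool.Agent.MP_54e5d7_al.atc.ker.Ker
section MrgPart11

/-!
PROJECT ATC, block KER: the reproducing kernel and its trace.
-/

set_option autoImplicit false

open scoped ComplexConjugate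
open Set MeasureTheory

namespace Pool.Agent.MP_54e5d7_al.Atc

theorem ker : KerStmt := by
  intro n U _ C Γ G _ Q s F hn hs hΓ hF hK
  have hs' : 4 * n < s := by omega
  have ht : (4 : ℝ) < (s : ℝ) / n := by
    rw [lt_div_iff₀ (by exact_mod_cast hn)]
    exact_mod_cast hs'
  have hn' : (n : ℝ) ≠ 0 := by exact_mod_cast hn.ne'
  set c : ℝ := (((s : ℝ) / n - 1) * ((s : ℝ) / n - 2)) / (Real.pi ^ 2 * n) with hc
  refine ⟨fun z => (c : ℂ) • fun w => ∑' k : Q.π.ker, C.sl s (bk ((s : ℝ) / n) z) k.1 w,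
    fun z hz => Quo.Berg.smul Q (Q.berg_kap hn hs' hΓ hz) _, fun z hz f hf => ?_, ?_⟩
  · have h1 := (Q.rep_kap hn hs' hΓ hF hz hf).mul_left (c : ℂ)
    have h2 : (c : ℂ) * (n * (((Real.pi ^ 2 / (((s : ℝ) / n - 1) * ((s : ℝ) / n - 2)) : ℝ) : ℂ) *
        f z)) = f z := by
      have h3 : c * (n * (Real.pi ^ 2 / (((s : ℝ) / n - 1) * ((s : ℝ) / n - 2)))) = 1 := by
        have h4 : (s : ℝ) / n - 1 ≠ 0 := by linarith
        have h5 : (s : ℝ) / n - 2 ≠ 0 := by linarith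
        have h6 := Real.pi_ne_zero
        rw [hc]
        generalize (s : ℝ) / n - 1 = a at h4
        generalize (s : ℝ) / n - 2 = b at h5
        field_simp
      have h7 := congrArg (fun x : ℝ => (x : ℂ)) h3
      simp only [Complex.ofReal_mul, Complex.ofReal_natCast, Complex.ofReal_one] at h7
      rw [← mul_assoc (n : ℂ), ← mul_assoc, h7, one_mul]
    rw [h2] at h1
    refine h1.congr_fun fun q => ?_
    rw [← integral_const_mul]
    refine integral_congr_ae (Filter.Eventually.of_forall fun w => ?_)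
    simp only [C.sl_smul, Pi.smul_apply, smul_eq_mul, map_mul, Complex.conj_ofReal, mul_assoc]
  · have h1 := Q.trace_of_orb hn hs' hΓ hF (Q.orb hn hs' hΓ hF hK)
    simp only [Pi.smul_apply, smul_eq_mul, mul_assoc]
    rw [integral_const_mul, h1, ← Complex.ofReal_mul, hc]
    congr 1
    ring

end Pool.Agent.MP_54e5d7_al.Atc

end MrgPart11

-- marker of a merged file
example : 731051 + 476785 = 731051 + 476785 := rfl
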